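import Mathlib

/-!
# Selberg's upper bound sieve

We complete Mathlib's `BoundingSieve` with the optimal `Λ²` weights and prove the standard
Selberg bound `siftedSum ≤ X / S + error`.
-/

open Finset ArithmeticFunction
open scoped ArithmeticFunction.Moebius

namespace Pool.Agent.Lib.Sieve

variable (s : BoundingSieve) (Z : ℕ)

/-- The sum `S = ∑_{l ∣ P, l ≤ Z} g(l)`. -/
noncomputable def selS : ℝ := ∑ l ∈ s.prodPrimes.divisors with l ≤ Z, s.selbergTerms l

/-- The inner sum in the Selberg weights. -/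
noncomputable def selT (d : ℕ) : ℝ :=
  ∑ m ∈ s.prodPrimes.divisors with (d * m ≤ Z ∧ m.Coprime d), s.selbergTerms m

/-- The Selberg weights. -/
noncomputable def selW (d : ℕ) : ℝ :=
  if d ∣ s.prodPrimes then
    (s.nu d)⁻¹ * s.selbergTerms d * (μ d : ℝ) * (selS s Z)⁻¹ * selT s Z d
  else 0

theorem selS_pos (hZ : 1 ≤ Z) : 0 < selS s Z := by
  unfold selS
  apply Finset.sum_pos
  · intro l hl
    exact BoundingSieve.selbergTerms_pos (Nat.dvd_of_mem_divisors (Finset.mem_filter.mp hl).1)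
  · refine ⟨1, Finset.mem_filter.mpr ⟨?_, hZ⟩⟩
    exact Nat.one_mem_divisors.mpr s.prodPrimes_squarefree.ne_zero

theorem selT_nonneg (d : ℕ) : 0 ≤ selT s Z d := by
  unfold selT
  apply Finset.sum_nonneg
  intro l hl
  exact (BoundingSieve.selbergTerms_pos (Nat.dvd_of_mem_divisors (Finset.mem_filter.mp hl).1)).le

theorem selT_one : selT s Z 1 = selS s Z := by
  unfold selT selS
  simp

theorem selW_one (hZ : 1 ≤ Z) : selW s Z 1 = 1 := by
  unfold selW
  rw [if_pos (one_dvd _), selT_one, s.nu_mult.map_one,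
    BoundingSieve.selbergTerms_isMultiplicative.map_one]
  have := (selS_pos s Z hZ).ne'
  simp [this]

theorem selT_eq_zero {d : ℕ} (hd : Z < d) : selT s Z d = 0 := by
  unfold selT
  apply Finset.sum_eq_zero
  intro m hm
  exfalso
  have h1 := Nat.pos_of_mem_divisors (Finset.mem_filter.mp hm).1
  have h2 := (Finset.mem_filter.mp hm).2.1
  have : d * 1 ≤ d * m := Nat.mul_le_mul_left d h1
  omega

theorem selW_eq_zero {d : ℕ} (hd : Z < d) : selW s Z d = 0 := by
  unfold selW
  rw [selT_eq_zero s Z hd]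
  simp

/-- Möbius sum over `l ∣ d ∣ k`. -/
theorem sum_moebius_between {k l : ℕ} (hk : Squarefree k) (hl : l ∣ k) :
    ∑ d ∈ k.divisors with l ∣ d, (μ d : ℝ) = if k = l then (μ l : ℝ) else 0 := by
  have hk0 : k ≠ 0 := hk.ne_zero
  obtain ⟨m, rfl⟩ := hl
  have hl0 : l ≠ 0 := by rintro rfl; simp at hk0
  have hm0 : m ≠ 0 := by rintro rfl; simp at hk0
  have hcop : ∀ e ∈ m.divisors, (μ (l * e) : ℝ) = (μ l : ℝ) * (μ e : ℝ) := by
    intro e he
    have hc : l.Coprime m := Nat.coprime_of_squarefree_mul hk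
    have hc' : l.Coprime e := hc.coprime_dvd_right (Nat.dvd_of_mem_divisors he)
    rw [ArithmeticFunction.isMultiplicative_moebius.map_mul_of_coprime hc']
    push_cast
    ring
  have h1 : ∑ d ∈ (l * m).divisors with l ∣ d, (μ d : ℝ) = ∑ e ∈ m.divisors, (μ (l * e) : ℝ) := by
    symm
    refine Finset.sum_nbij (fun e => l * e) ?_ ?_ ?_ ?_
    · intro e he
      rw [Finset.mem_filter, Nat.mem_divisors]
      exact ⟨⟨Nat.mul_dvd_mul_left l (Nat.dvd_of_mem_divisors he), hk0⟩, Dvd.intro _ rfl⟩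
    · intro a _ b _ hab
      exact Nat.eq_of_mul_eq_mul_left (Nat.pos_of_ne_zero hl0) hab
    · intro d hd
      rw [Finset.mem_coe, Finset.mem_filter, Nat.mem_divisors] at hd
      obtain ⟨⟨h1, _⟩, e, rfl⟩ := hd
      refine ⟨e, ?_, rfl⟩
      rw [Finset.mem_coe, Nat.mem_divisors]
      exact ⟨Nat.dvd_of_mul_dvd_mul_left (Nat.pos_of_ne_zero hl0) h1, hm0⟩
    · intro e _; rfl
  rw [h1, Finset.sum_congr rfl hcop, ← Finset.mul_sum]
  have h2 : ∑ e ∈ m.divisors, (μ e : ℝ) = if m = 1 then 1 else 0 := by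
    have h := congrArg (fun f => f m) (coe_moebius_mul_coe_zeta (R := ℝ))
    simp only [coe_mul_zeta_apply, one_apply] at h
    rw [← h]
    rfl
  rw [h2]
  have h3 : (l * m = l) ↔ m = 1 := by
    constructor
    · intro h
      exact Nat.eq_of_mul_eq_mul_left (Nat.pos_of_ne_zero hl0) (by rw [h, mul_one])
    · rintro rfl; simp
  simp only [h3, mul_ite, mul_one, mul_zero]


/-- The key identity for the Selberg weights. -/
theorem sum_nu_mul_selW {l : ℕ} (hl : l ∣ s.prodPrimes) :
    (∑ d ∈ s.prodPrimes.divisors, if l ∣ d then s.nu d * selW s Z d else 0)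
      = if l ≤ Z then s.selbergTerms l * (μ l : ℝ) * (selS s Z)⁻¹ else 0 := by
  set P := s.prodPrimes with hP
  have hPsq : Squarefree P := s.prodPrimes_squarefree
  have hP0 : P ≠ 0 := hPsq.ne_zero
  have h1 : (∑ d ∈ P.divisors, if l ∣ d then s.nu d * selW s Z d else 0)
      = ∑ d ∈ P.divisors with l ∣ d, ∑ m ∈ P.divisors with (d * m ≤ Z ∧ m.Coprime d),
          (selS s Z)⁻¹ * (s.selbergTerms (d * m) * (μ d : ℝ)) := by
    rw [← Finset.sum_filter]
    refine Finset.sum_congr rfl fun d hd => ?_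
    have hdP : d ∣ P := Nat.dvd_of_mem_divisors (Finset.mem_filter.mp hd).1
    have hnu : s.nu d ≠ 0 := BoundingSieve.nu_ne_zero hdP
    unfold selW
    rw [if_pos hdP]
    have : s.nu d * ((s.nu d)⁻¹ * s.selbergTerms d * (μ d : ℝ) * (selS s Z)⁻¹ * selT s Z d)
        = (s.selbergTerms d * (μ d : ℝ) * (selS s Z)⁻¹) * selT s Z d := by
      field_simp
    rw [this]
    unfold selT
    rw [Finset.mul_sum]
    refine Finset.sum_congr rfl fun m hm => ?_
    have hc := (Finset.mem_filter.mp hm).2.2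
    rw [BoundingSieve.selbergTerms_isMultiplicative.map_mul_of_coprime hc.symm]
    ring
  rw [h1]
  -- reorganise
  have h2 : ∑ d ∈ P.divisors with l ∣ d, ∑ m ∈ P.divisors with (d * m ≤ Z ∧ m.Coprime d),
          (selS s Z)⁻¹ * (s.selbergTerms (d * m) * (μ d : ℝ))
      = ∑ k ∈ P.divisors with k ≤ Z, ∑ d ∈ k.divisors with l ∣ d,
          (selS s Z)⁻¹ * (s.selbergTerms k * (μ d : ℝ)) := by
    rw [Finset.sum_sigma', Finset.sum_sigma']
    refine Finset.sum_bij' (fun x _ => ⟨x.1 * x.2, x.1⟩) (fun y _ => ⟨y.2, y.1 / y.2⟩)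
      ?_ ?_ ?_ ?_ ?_
    · rintro ⟨d, m⟩ hx
      simp only [Finset.mem_sigma, Finset.mem_filter, Nat.mem_divisors] at hx ⊢
      obtain ⟨⟨⟨hd, _⟩, hld⟩, ⟨hm, _⟩, hZ, hc⟩ := hx
      have hdm : d * m ∣ P := Nat.Coprime.mul_dvd_of_dvd_of_dvd hc.symm hd hm
      exact ⟨⟨⟨hdm, hP0⟩, hZ⟩, ⟨Dvd.intro _ rfl, ne_zero_of_dvd_ne_zero hP0 hdm⟩, hld⟩
    · rintro ⟨k, d⟩ hx
      simp only [Finset.mem_sigma, Finset.mem_filter, Nat.mem_divisors] at hx ⊢
      obtain ⟨⟨⟨hk, _⟩, hkZ⟩, ⟨hdk, hk0⟩, hld⟩ := hx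
      obtain ⟨m, rfl⟩ := hdk
      have hd0 : 0 < d := Nat.pos_of_ne_zero (by rintro rfl; simp at hk0)
      have hm : d * m / d = m := Nat.mul_div_cancel_left m hd0
      rw [hm]
      refine ⟨⟨⟨(Dvd.intro _ rfl).trans hk, hP0⟩, hld⟩, ⟨(Dvd.intro_left _ rfl).trans hk, hP0⟩,
        hkZ, ?_⟩
      exact (Nat.coprime_of_squarefree_mul (hPsq.squarefree_of_dvd hk)).symm
    · rintro ⟨d, m⟩ hx
      simp only [Finset.mem_sigma, Finset.mem_filter, Nat.mem_divisors] at hx
      obtain ⟨⟨⟨hd, _⟩, hld⟩, ⟨hm, _⟩, hZ, hc⟩ := hx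
      have hd0 : 0 < d := Nat.pos_of_ne_zero (ne_zero_of_dvd_ne_zero hP0 hd)
      simp [Nat.mul_div_cancel_left m hd0]
    · rintro ⟨k, d⟩ hx
      simp only [Finset.mem_sigma, Finset.mem_filter, Nat.mem_divisors] at hx
      obtain ⟨⟨⟨hk, _⟩, hkZ⟩, ⟨hdk, hk0⟩, hld⟩ := hx
      simp [Nat.mul_div_cancel' hdk]
    · rintro ⟨d, m⟩ hx
      rfl
  rw [h2]
  have h3 : ∀ k ∈ P.divisors.filter (fun k => k ≤ Z), ∑ d ∈ k.divisors with l ∣ d,
          (selS s Z)⁻¹ * (s.selbergTerms k * (μ d : ℝ))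
      = if k = l then (selS s Z)⁻¹ * (s.selbergTerms l * (μ l : ℝ)) else 0 := by
    intro k hk
    have hkP : k ∣ P := Nat.dvd_of_mem_divisors (Finset.mem_filter.mp hk).1
    have : ∑ d ∈ k.divisors with l ∣ d, (selS s Z)⁻¹ * (s.selbergTerms k * (μ d : ℝ))
        = (selS s Z)⁻¹ * s.selbergTerms k * ∑ d ∈ k.divisors with l ∣ d, (μ d : ℝ) := by
      rw [Finset.mul_sum]
      refine Finset.sum_congr rfl fun d _ => by ring
    rw [this]
    by_cases hlk : l ∣ k
    · rw [sum_moebius_between (hPsq.squarefree_of_dvd hkP) hlk]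
      by_cases hkl : k = l
      · subst hkl; simp; ring
      · simp [hkl]
    · have hne : k ≠ l := by rintro rfl; exact hlk dvd_rfl
      rw [if_neg hne]
      have : k.divisors.filter (fun d => l ∣ d) = ∅ := by
        refine Finset.filter_eq_empty_iff.mpr fun d hd hld => hlk ?_
        exact hld.trans (Nat.dvd_of_mem_divisors hd)
      rw [this, Finset.sum_empty, mul_zero]
  rw [Finset.sum_congr rfl h3, Finset.sum_ite_eq']
  by_cases hlZ : l ≤ Z
  · rw [if_pos (Finset.mem_filter.mpr ⟨Nat.mem_divisors.mpr ⟨hl, hP0⟩, hlZ⟩), if_pos hlZ]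
    ring
  · have hnm : l ∉ P.divisors.filter (fun k => k ≤ Z) := fun h => hlZ (Finset.mem_filter.mp h).2
    rw [if_neg hnm, if_neg hlZ]

/-- The main sum with the Selberg weights is `1 / S`. -/
theorem mainSum_selW (hZ : 1 ≤ Z) :
    s.mainSum (BoundingSieve.lambdaSquared (selW s Z)) = (selS s Z)⁻¹ := by
  rw [BoundingSieve.mainSum_lambdaSquared_eq_sum_mul_sum_sq]
  have hS := (selS_pos s Z hZ).ne'
  have h1 : ∀ l ∈ s.prodPrimes.divisors, (s.selbergTerms l)⁻¹ *
        (∑ d ∈ s.prodPrimes.divisors, if l ∣ d then s.nu d * selW s Z d else 0) ^ 2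
      = if l ≤ Z then s.selbergTerms l * ((selS s Z)⁻¹) ^ 2 else 0 := by
    intro l hl
    have hlP := Nat.dvd_of_mem_divisors hl
    rw [sum_nu_mul_selW s Z hlP]
    have hg := (BoundingSieve.selbergTerms_pos hlP).ne'
    split_ifs with h
    · have hmu : ((μ l : ℤ) : ℝ) ^ 2 = 1 := by
        have := ArithmeticFunction.moebius_sq_eq_one_of_squarefree
          (s.prodPrimes_squarefree.squarefree_of_dvd hlP)
        exact_mod_cast this
      calc (s.selbergTerms l)⁻¹ * (s.selbergTerms l * (μ l : ℝ) * (selS s Z)⁻¹) ^ 2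
          = s.selbergTerms l * (((μ l : ℤ) : ℝ) ^ 2) * ((selS s Z)⁻¹) ^ 2 := by
            field_simp
        _ = s.selbergTerms l * ((selS s Z)⁻¹) ^ 2 := by rw [hmu, mul_one]
    · simp
  rw [Finset.sum_congr rfl h1, ← Finset.sum_filter, ← Finset.sum_mul]
  change selS s Z * ((selS s Z)⁻¹) ^ 2 = (selS s Z)⁻¹
  field_simp

/-- `|w d| ≤ 1`. -/
theorem abs_selW_le (hZ : 1 ≤ Z) (d : ℕ) : |selW s Z d| ≤ 1 := by
  unfold selW
  by_cases hd : d ∣ s.prodPrimes
  swap
  · rw [if_neg hd]; simp
  rw [if_pos hd]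
  set P := s.prodPrimes with hP
  have hPsq : Squarefree P := s.prodPrimes_squarefree
  have hP0 : P ≠ 0 := hPsq.ne_zero
  have hd0 : d ≠ 0 := ne_zero_of_dvd_ne_zero hP0 hd
  have hS := selS_pos s Z hZ
  have hnu := BoundingSieve.nu_pos_of_dvd_prodPrimes (s := s) hd
  have hg := BoundingSieve.selbergTerms_pos (s := s) hd
  have hT := selT_nonneg s Z d
  -- key inequality
  have key : s.selbergTerms d * (s.nu d)⁻¹ * selT s Z d ≤ selS s Z := by
    rw [← BoundingSieve.sum_divisors_selbergTerms_eq_selbergTerms_mul_nu_inv (s := s) hd,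
      ← Finset.sum_filter]
    change (∑ k ∈ P.divisors with k ∣ d, s.selbergTerms k) * selT s Z d ≤ selS s Z
    rw [Nat.divisors_filter_dvd_of_dvd hP0 hd]
    unfold selT
    rw [Finset.sum_mul_sum]
    -- map (k, m) -> k * m, injective
    rw [← Finset.sum_product']
    unfold selS
    calc ∑ x ∈ d.divisors ×ˢ (P.divisors.filter (fun m => d * m ≤ Z ∧ m.Coprime d)),
          s.selbergTerms x.1 * s.selbergTerms x.2
        = ∑ x ∈ d.divisors ×ˢ (P.divisors.filter (fun m => d * m ≤ Z ∧ m.Coprime d)),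
          s.selbergTerms (x.1 * x.2) := by
          refine Finset.sum_congr rfl fun x hx => ?_
          have hx := Finset.mem_product.mp hx
          have hc := (Finset.mem_filter.mp hx.2).2.2
          have : x.1.Coprime x.2 := (hc.coprime_dvd_right (Nat.dvd_of_mem_divisors hx.1)).symm
          rw [BoundingSieve.selbergTerms_isMultiplicative.map_mul_of_coprime this]
      _ = ∑ y ∈ (d.divisors ×ˢ (P.divisors.filter (fun m => d * m ≤ Z ∧ m.Coprime d))).image
            (fun x => x.1 * x.2), s.selbergTerms y := by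
          rw [Finset.sum_image]
          intro x hx y hy hxy
          have hx := Finset.mem_product.mp (Finset.mem_coe.mp hx)
          have hy := Finset.mem_product.mp (Finset.mem_coe.mp hy)
          have hxc := (Finset.mem_filter.mp hx.2).2.2
          have hyc := (Finset.mem_filter.mp hy.2).2.2
          have hx1 := Nat.dvd_of_mem_divisors hx.1
          have hy1 := Nat.dvd_of_mem_divisors hy.1
          have hxy : x.1 * x.2 = y.1 * y.2 := hxy
          have e1 : x.1 = y.1 := by
            apply Nat.dvd_antisymm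
            · have : x.1 ∣ y.1 * y.2 := hxy ▸ Dvd.intro _ rfl
              exact (Nat.Coprime.dvd_of_dvd_mul_right
                ((hyc.coprime_dvd_right hx1).symm) this)
            · have : y.1 ∣ x.1 * x.2 := hxy ▸ Dvd.intro _ rfl
              exact (Nat.Coprime.dvd_of_dvd_mul_right
                ((hxc.coprime_dvd_right hy1).symm) this)
          have hx0 : 0 < x.1 := Nat.pos_of_mem_divisors hx.1
          have e2 : x.2 = y.2 := by
            rw [← e1] at hxy
            exact Nat.eq_of_mul_eq_mul_left hx0 hxy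
          exact Prod.ext e1 e2
      _ ≤ ∑ l ∈ P.divisors with l ≤ Z, s.selbergTerms l := by
          apply Finset.sum_le_sum_of_subset_of_nonneg
          · intro y hy
            obtain ⟨x, hx, rfl⟩ := Finset.mem_image.mp hy
            have hx := Finset.mem_product.mp hx
            have hxm := Finset.mem_filter.mp hx.2
            have hx1 := Nat.dvd_of_mem_divisors hx.1
            have hx2 := Nat.dvd_of_mem_divisors hxm.1
            have hc : x.1.Coprime x.2 := (hxm.2.2.coprime_dvd_right hx1).symm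
            rw [Finset.mem_filter, Nat.mem_divisors]
            refine ⟨⟨Nat.Coprime.mul_dvd_of_dvd_of_dvd hc (hx1.trans hd) hx2, hP0⟩, ?_⟩
            have : x.1 * x.2 ≤ d * x.2 :=
              Nat.mul_le_mul_right _ (Nat.le_of_dvd (Nat.pos_of_ne_zero hd0) hx1)
            exact this.trans hxm.2.1
          · intro y hy _
            exact (BoundingSieve.selbergTerms_pos
              (Nat.dvd_of_mem_divisors (Finset.mem_filter.mp hy).1)).le
  have hmu : |((μ d : ℤ) : ℝ)| ≤ 1 := by
    have := ArithmeticFunction.abs_moebius_le_one (n := d)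
    exact_mod_cast this
  have e : (s.nu d)⁻¹ * s.selbergTerms d * (μ d : ℝ) * (selS s Z)⁻¹ * selT s Z d
      = ((μ d : ℤ) : ℝ) * ((s.selbergTerms d * (s.nu d)⁻¹ * selT s Z d) * (selS s Z)⁻¹) := by ring
  rw [e, abs_mul]
  have h0 : 0 ≤ (s.selbergTerms d * (s.nu d)⁻¹ * selT s Z d) * (selS s Z)⁻¹ := by positivity
  rw [abs_of_nonneg h0]
  have h1 : (s.selbergTerms d * (s.nu d)⁻¹ * selT s Z d) * (selS s Z)⁻¹ ≤ 1 := by
    rw [← div_eq_mul_inv, div_le_one hS]
    exact key
  calc |((μ d : ℤ) : ℝ)| * ((s.selbergTerms d * (s.nu d)⁻¹ * selT s Z d) * (selS s Z)⁻¹)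
      ≤ 1 * 1 := mul_le_mul hmu h1 h0 zero_le_one
    _ = 1 := by norm_num

/-- The error term with the Selberg weights. -/
theorem errSum_selW_le (hZ : 1 ≤ Z) :
    s.errSum (BoundingSieve.lambdaSquared (selW s Z)) ≤
      ∑ d1 ∈ s.prodPrimes.divisors with d1 ≤ Z, ∑ d2 ∈ s.prodPrimes.divisors with d2 ≤ Z,
        |s.rem (d1.lcm d2)| := by
  set P := s.prodPrimes with hP
  have hPsq : Squarefree P := s.prodPrimes_squarefree
  have hP0 : P ≠ 0 := hPsq.ne_zero
  unfold BoundingSieve.errSum BoundingSieve.lambdaSquared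
  calc ∑ d ∈ P.divisors, |∑ d1 ∈ d.divisors, ∑ d2 ∈ d.divisors,
          if d = d1.lcm d2 then selW s Z d1 * selW s Z d2 else 0| * |s.rem d|
      ≤ ∑ d ∈ P.divisors, (∑ d1 ∈ P.divisors with d1 ≤ Z, ∑ d2 ∈ P.divisors with d2 ≤ Z,
          if d = d1.lcm d2 then 1 else 0) * |s.rem d| := by
        refine Finset.sum_le_sum fun d hd => ?_
        refine mul_le_mul_of_nonneg_right ?_ (abs_nonneg _)
        have hdP := Nat.dvd_of_mem_divisors hd
        calc |∑ d1 ∈ d.divisors, ∑ d2 ∈ d.divisors,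
              if d = d1.lcm d2 then selW s Z d1 * selW s Z d2 else 0|
            ≤ ∑ d1 ∈ d.divisors, ∑ d2 ∈ d.divisors,
              if (d1 ≤ Z ∧ d2 ≤ Z) ∧ d = d1.lcm d2 then (1 : ℝ) else 0 := by
              refine (Finset.abs_sum_le_sum_abs _ _).trans (Finset.sum_le_sum fun d1 _ => ?_)
              refine (Finset.abs_sum_le_sum_abs _ _).trans (Finset.sum_le_sum fun d2 _ => ?_)
              by_cases h : d = d1.lcm d2
              · rw [if_pos h]
                by_cases h1 : d1 ≤ Z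
                · by_cases h2 : d2 ≤ Z
                  · rw [if_pos ⟨⟨h1, h2⟩, h⟩, abs_mul]
                    calc |selW s Z d1| * |selW s Z d2| ≤ 1 * 1 :=
                          mul_le_mul (abs_selW_le s Z hZ d1) (abs_selW_le s Z hZ d2)
                            (abs_nonneg _) zero_le_one
                      _ = 1 := by norm_num
                  · rw [selW_eq_zero s Z (not_le.mp h2), mul_zero, abs_zero]
                    split_ifs <;> norm_num
                · rw [selW_eq_zero s Z (not_le.mp h1), zero_mul, abs_zero]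
                  split_ifs <;> norm_num
              · rw [if_neg h, abs_zero]
                split_ifs <;> norm_num
          _ ≤ ∑ d1 ∈ P.divisors, ∑ d2 ∈ P.divisors,
              if (d1 ≤ Z ∧ d2 ≤ Z) ∧ d = d1.lcm d2 then (1 : ℝ) else 0 := by
              have hsub : d.divisors ⊆ P.divisors := Nat.divisors_subset_of_dvd hP0 hdP
              refine (Finset.sum_le_sum fun d1 _ =>
                Finset.sum_le_sum_of_subset_of_nonneg hsub ?_).trans
                (Finset.sum_le_sum_of_subset_of_nonneg hsub ?_)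
              · intro _ _ _; split_ifs <;> norm_num
              · intro _ _ _
                exact Finset.sum_nonneg fun _ _ => by split_ifs <;> norm_num
          _ = ∑ d1 ∈ P.divisors with d1 ≤ Z, ∑ d2 ∈ P.divisors with d2 ≤ Z,
              if d = d1.lcm d2 then (1 : ℝ) else 0 := by
              rw [Finset.sum_filter]
              refine Finset.sum_congr rfl fun d1 _ => ?_
              by_cases h1 : d1 ≤ Z
              · rw [if_pos h1, Finset.sum_filter]
                refine Finset.sum_congr rfl fun d2 _ => ?_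
                by_cases h2 : d2 ≤ Z
                · simp [h1, h2]
                · simp [h2]
              · simp [h1]
    _ = ∑ d1 ∈ P.divisors with d1 ≤ Z, ∑ d2 ∈ P.divisors with d2 ≤ Z,
          ∑ d ∈ P.divisors, (if d = d1.lcm d2 then |s.rem d| else 0) := by
        simp_rw [Finset.sum_mul]
        rw [Finset.sum_comm]
        refine Finset.sum_congr rfl fun d1 _ => ?_
        rw [Finset.sum_comm]
        refine Finset.sum_congr rfl fun d2 _ => ?_
        refine Finset.sum_congr rfl fun d _ => ?_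
        split_ifs <;> simp
    _ = ∑ d1 ∈ P.divisors with d1 ≤ Z, ∑ d2 ∈ P.divisors with d2 ≤ Z,
        |s.rem (d1.lcm d2)| := by
        refine Finset.sum_congr rfl fun d1 hd1 => ?_
        refine Finset.sum_congr rfl fun d2 hd2 => ?_
        have h1 := Nat.dvd_of_mem_divisors (Finset.mem_filter.mp hd1).1
        have h2 := Nat.dvd_of_mem_divisors (Finset.mem_filter.mp hd2).1
        have : d1.lcm d2 ∈ P.divisors := Nat.mem_divisors.mpr ⟨Nat.lcm_dvd h1 h2, hP0⟩
        rw [Finset.sum_ite_eq', if_pos this]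

/-- **Selberg's sieve.** -/
theorem selberg_bound (hZ : 1 ≤ Z) :
    s.siftedSum ≤ s.totalMass / selS s Z +
      ∑ d1 ∈ s.prodPrimes.divisors with d1 ≤ Z, ∑ d2 ∈ s.prodPrimes.divisors with d2 ≤ Z,
        |s.rem (d1.lcm d2)| := by
  refine (BoundingSieve.siftedSum_le_mainSum_errSum_of_upperMoebius _
    (BoundingSieve.upperMoebius_lambdaSquared (selW s Z) (selW_one s Z hZ))).trans ?_
  rw [mainSum_selW s Z hZ, div_eq_mul_inv]
  exact add_le_add le_rfl (errSum_selW_le s Z hZ)

end Pool.Agent.Lib.Sieve
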