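import Mathlib
import Pool.Agent.Lib.Sieve.Selberg

/-!
# Lower bounds for the Selberg sum
-/

open Finset ArithmeticFunction

namespace Pool.Agent.Lib.Sieve

/-- Sum of a completely multiplicative function over integers with a prescribed set of primes. -/
theorem sum_primeFactors_eq_le (f : ℕ → ℝ) (hf0 : ∀ n, 0 ≤ f n) (hf1 : f 1 ≤ 1)
    (hmul : ∀ m n, f (m * n) = f m * f n) (M : ℕ) (T : Finset ℕ) :
    (∀ p ∈ T, p.Prime) → (∀ p ∈ T, f p < 1) →
    ∑ m ∈ Finset.Icc 1 M with m.primeFactors = T, f m ≤ ∏ p ∈ T, f p / (1 - f p) := by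
  classical
  have hpow : ∀ p k, f (p ^ (k + 1)) = f p ^ (k + 1) := by
    intro p k
    induction k with
    | zero => simp
    | succ k ih => rw [pow_succ, hmul, ih, ← pow_succ]
  induction T using Finset.induction_on with
  | empty =>
    intro _ _
    rw [Finset.prod_empty]
    calc ∑ m ∈ Finset.Icc 1 M with m.primeFactors = ∅, f m ≤ ∑ m ∈ {1}, f m := by
          apply Finset.sum_le_sum_of_subset_of_nonneg
          · intro m hm
            have hm := Finset.mem_filter.mp hm
            have h1 := (Finset.mem_Icc.mp hm.1).1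
            rcases Nat.primeFactors_eq_empty.mp hm.2 with h | h
            · omega
            · simp [h]
          · intro _ _ _; exact hf0 _
      _ ≤ 1 := by simpa using hf1
  | insert p T hpT ih =>
    intro hprime hlt
    have hp : p.Prime := hprime p (Finset.mem_insert_self _ _)
    have hfp : f p < 1 := hlt p (Finset.mem_insert_self _ _)
    have ih' := ih (fun q hq => hprime q (Finset.mem_insert_of_mem hq))
      (fun q hq => hlt q (Finset.mem_insert_of_mem hq))
    rw [Finset.prod_insert hpT]
    have hgeom : ∑ k ∈ Finset.Ico 1 (M + 1), f p ^ k ≤ f p / (1 - f p) := by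
      have := geom_sum_Ico_le_of_lt_one (m := 1) (n := M + 1) (hf0 p) hfp
      simpa using this
    have hA : 0 ≤ ∑ m ∈ Finset.Icc 1 M with m.primeFactors = T, f m :=
      Finset.sum_nonneg fun _ _ => hf0 _
    calc ∑ m ∈ Finset.Icc 1 M with m.primeFactors = insert p T, f m
        ≤ ∑ x ∈ (Finset.Ico 1 (M + 1)) ×ˢ ((Finset.Icc 1 M).filter (fun m => m.primeFactors = T)),
            f p ^ x.1 * f x.2 := by
          -- injection m ↦ (v_p m, m / p^{v_p m})
          have hinj : Set.InjOn (fun m : ℕ => (m.factorization p, m / p ^ m.factorization p))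
              ((Finset.Icc 1 M).filter (fun m => m.primeFactors = insert p T) : Finset ℕ) := by
            intro a ha b hb hab
            simp only [Prod.mk.injEq] at hab
            have e1 := Nat.ordProj_mul_ordCompl_eq_self a p
            have e2 := Nat.ordProj_mul_ordCompl_eq_self b p
            rw [← e1, ← e2, hab.1, ← hab.1, hab.2, hab.1]
          have hval : ∀ m ∈ (Finset.Icc 1 M).filter (fun m => m.primeFactors = insert p T),
              f m = f p ^ (m.factorization p) * f (m / p ^ m.factorization p) := by
            intro m hm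
            have hm := Finset.mem_filter.mp hm
            have hm1 := (Finset.mem_Icc.mp hm.1).1
            have hpm : p ∈ m.primeFactors := by rw [hm.2]; exact Finset.mem_insert_self _ _
            have hk : 0 < m.factorization p :=
              hp.factorization_pos_of_dvd (by omega) (Nat.dvd_of_mem_primeFactors hpm)
            obtain ⟨k, hk'⟩ : ∃ k, m.factorization p = k + 1 := ⟨_, (Nat.succ_pred_eq_of_pos hk).symm⟩
            have e := Nat.ordProj_mul_ordCompl_eq_self m p
            conv_lhs => rw [← e]
            rw [hmul, hk', hpow]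
          rw [Finset.sum_congr rfl hval]
          rw [← Finset.sum_image (f := fun x : ℕ × ℕ => f p ^ x.1 * f x.2) hinj]
          apply Finset.sum_le_sum_of_subset_of_nonneg
          · intro x hx
            obtain ⟨m, hm, rfl⟩ := Finset.mem_image.mp hx
            have hm := Finset.mem_filter.mp hm
            have hm1 := (Finset.mem_Icc.mp hm.1).1
            have hm2 := (Finset.mem_Icc.mp hm.1).2
            have hm0 : m ≠ 0 := by omega
            have hpm : p ∈ m.primeFactors := by rw [hm.2]; exact Finset.mem_insert_self _ _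
            have hk : 0 < m.factorization p :=
              hp.factorization_pos_of_dvd (by omega) (Nat.dvd_of_mem_primeFactors hpm)
            have hkle : p ^ m.factorization p ≤ m := Nat.ordProj_le p hm0
            have hklt : m.factorization p < p ^ m.factorization p := Nat.lt_pow_self hp.one_lt
            have hcpos : 0 < m / p ^ m.factorization p := Nat.ordCompl_pos p hm0
            have hcle : m / p ^ m.factorization p ≤ m := Nat.div_le_self _ _
            simp only [Finset.mem_product, Finset.mem_Ico, Finset.mem_filter, Finset.mem_Icc]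
            refine ⟨⟨hk, by omega⟩, ⟨hcpos, by omega⟩, ?_⟩
            have : (m / p ^ m.factorization p).primeFactors = m.primeFactors.erase p := by
              have := Nat.factorization_ordCompl m p
              rw [← Nat.support_factorization, this, Finsupp.support_erase,
                Nat.support_factorization]
            rw [this, hm.2, Finset.erase_insert hpT]
          · intro x _ _
            exact mul_nonneg (pow_nonneg (hf0 p) _) (hf0 _)
      _ = (∑ k ∈ Finset.Ico 1 (M + 1), f p ^ k)
            * ∑ m ∈ Finset.Icc 1 M with m.primeFactors = T, f m := by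
          rw [Finset.sum_mul_sum, Finset.sum_product]
      _ ≤ f p / (1 - f p) * ∏ x ∈ T, f x / (1 - f x) := by
          refine mul_le_mul hgeom ih' hA ?_
          exact div_nonneg (hf0 p) (by linarith)

theorem selbergTerms_eq_prod (s : BoundingSieve) {l : ℕ} (hl : l ∣ s.prodPrimes) :
    s.selbergTerms l = ∏ p ∈ l.primeFactors, s.nu p / (1 - s.nu p) := by
  rw [BoundingSieve.selbergTerms_apply, ← BoundingSieve.prod_primeFactors_nu hl,
    ← Finset.prod_mul_distrib]
  refine Finset.prod_congr rfl fun p _ => by rw [div_eq_mul_inv]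

/-- The Selberg sum dominates the corresponding sum of a completely multiplicative function. -/
theorem sum_le_selS (s : BoundingSieve) (Z : ℕ) (f : ℕ → ℝ) (hf0 : ∀ n, 0 ≤ f n) (hf1 : f 1 ≤ 1)
    (hmul : ∀ m n, f (m * n) = f m * f n)
    (hP : ∀ p : ℕ, p.Prime → p ≤ Z → p ∣ s.prodPrimes)
    (hfnu : ∀ p : ℕ, p.Prime → p ∣ s.prodPrimes → f p = s.nu p) :
    ∑ m ∈ Finset.Icc 1 Z, f m ≤ selS s Z := by
  classical
  unfold selS
  set P := s.prodPrimes with hPdef
  have hPsq : Squarefree P := s.prodPrimes_squarefree
  have hP0 : P ≠ 0 := hPsq.ne_zero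
  have hmaps : ∀ m ∈ Finset.Icc 1 Z, (∏ p ∈ m.primeFactors, p) ∈ P.divisors.filter (fun l => l ≤ Z) := by
    intro m hm
    have hm1 := (Finset.mem_Icc.mp hm).1
    have hm2 := (Finset.mem_Icc.mp hm).2
    rw [Finset.mem_filter, Nat.mem_divisors]
    refine ⟨⟨?_, hP0⟩, (Nat.le_of_dvd hm1 (Nat.prod_primeFactors_dvd m)).trans hm2⟩
    apply Finset.prod_primes_dvd
    · intro p hp
      exact (Nat.prime_of_mem_primeFactors hp).prime
    · intro p hp
      exact hP p (Nat.prime_of_mem_primeFactors hp) ((Nat.le_of_mem_primeFactors hp).trans hm2)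
  rw [← Finset.sum_fiberwise_of_maps_to hmaps]
  refine Finset.sum_le_sum fun l hl => ?_
  have hl' := Finset.mem_filter.mp hl
  have hlP : l ∣ P := Nat.dvd_of_mem_divisors hl'.1
  have hlsq : Squarefree l := hPsq.squarefree_of_dvd hlP
  rw [selbergTerms_eq_prod s hlP]
  have h1 : ∑ m ∈ Finset.Icc 1 Z with (∏ p ∈ m.primeFactors, p) = l, f m
      ≤ ∑ m ∈ Finset.Icc 1 Z with m.primeFactors = l.primeFactors, f m := by
    apply Finset.sum_le_sum_of_subset_of_nonneg
    · intro m hm
      have hm := Finset.mem_filter.mp hm
      refine Finset.mem_filter.mpr ⟨hm.1, ?_⟩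
      rw [← hm.2, Nat.primeFactors_prod]
      intro p hp; exact Nat.prime_of_mem_primeFactors hp
    · intro _ _ _; exact hf0 _
  refine h1.trans ?_
  have hpd : ∀ p ∈ l.primeFactors, p.Prime ∧ p ∣ P := fun p hp =>
    ⟨Nat.prime_of_mem_primeFactors hp, (Nat.dvd_of_mem_primeFactors hp).trans hlP⟩
  refine (sum_primeFactors_eq_le f hf0 hf1 hmul Z l.primeFactors (fun p hp => (hpd p hp).1) ?_).trans ?_
  · intro p hp
    rw [hfnu p (hpd p hp).1 (hpd p hp).2]
    exact s.nu_lt_one_of_prime p (hpd p hp).1 (hpd p hp).2
  · apply le_of_eq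
    refine Finset.prod_congr rfl fun p hp => ?_
    rw [hfnu p (hpd p hp).1 (hpd p hp).2]

end Pool.Agent.Lib.Sieve
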