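import Mathlib
import Pool.Agent.Lib.Sieve.Lower

/-!
# The upper bound sieve for prime pairs, uniform in the shift
-/

open Finset ArithmeticFunction

namespace Pool.Agent.Lib.Sieve

/-! ### A completely multiplicative weight -/

/-- `h_a(m) = 2^{number of prime factors of m not dividing a}`. -/
noncomputable def hfun (a m : ℕ) : ℝ :=
  (m.primeFactorsList.map (fun p => if p ∣ a then (1 : ℝ) else 2)).prod

theorem hfun_one (a : ℕ) : hfun a 1 = 1 := by simp [hfun]

theorem hfun_mul (a : ℕ) {m n : ℕ} (hm : m ≠ 0) (hn : n ≠ 0) :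
    hfun a (m * n) = hfun a m * hfun a n := by
  unfold hfun
  rw [((Nat.perm_primeFactorsList_mul hm hn).map _).prod_eq, List.map_append, List.prod_append]

theorem hfun_prime (a : ℕ) {p : ℕ} (hp : p.Prime) : hfun a p = if p ∣ a then 1 else 2 := by
  unfold hfun
  rw [Nat.primeFactorsList_prime hp]
  simp

theorem hfun_nonneg (a m : ℕ) : 0 ≤ hfun a m := by
  unfold hfun
  apply List.prod_nonneg
  intro x hx
  obtain ⟨p, _, rfl⟩ := List.mem_map.mp hx
  split_ifs <;> norm_num

/-- number of divisors of `m` coprime to `a` is at most `h_a(m)` -/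
theorem card_coprime_divisors_le (a m : ℕ) (hm : m ≠ 0) :
    ((m.divisors.filter (fun v => v.Coprime a)).card : ℝ) ≤ hfun a m := by
  induction m using induction_on_primes with
  | zero => exact absurd rfl hm
  | one =>
    rw [hfun_one, Nat.divisors_one]
    exact_mod_cast (Finset.card_filter_le _ _).trans (by simp)
  | prime_mul p m hp ih =>
    have hm0 : m ≠ 0 := by rintro rfl; simp at hm
    have ih := ih hm0
    rw [hfun_mul a hp.ne_zero hm0, hfun_prime a hp]
    have hsub : ((p * m).divisors.filter (fun v => v.Coprime a)) ⊆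
        (m.divisors.filter (fun v => v.Coprime a)) ∪
        ((if p ∣ a then ∅ else m.divisors.filter (fun v => v.Coprime a)).image (fun v => p * v)) := by
      intro v hv
      have hv := Finset.mem_filter.mp hv
      have hvd := Nat.dvd_of_mem_divisors hv.1
      rw [Finset.mem_union]
      by_cases hvm : v ∣ m
      · exact Or.inl (Finset.mem_filter.mpr ⟨Nat.mem_divisors.mpr ⟨hvm, hm0⟩, hv.2⟩)
      · right
        have hpv : p ∣ v := by
          by_contra h
          have hc : v.Coprime p := ((Nat.Prime.coprime_iff_not_dvd hp).mpr h).symm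
          exact hvm (hc.dvd_of_dvd_mul_left hvd)
        have hpa : ¬ p ∣ a := fun h => by
          have h1 : p = 1 := Nat.Coprime.eq_one_of_dvd (hv.2.coprime_dvd_left hpv) h
          exact hp.one_lt.ne' h1
        rw [if_neg hpa]
        obtain ⟨w, rfl⟩ := hpv
        refine Finset.mem_image.mpr ⟨w, Finset.mem_filter.mpr ⟨Nat.mem_divisors.mpr
          ⟨Nat.dvd_of_mul_dvd_mul_left hp.pos hvd, hm0⟩, ?_⟩, rfl⟩
        exact hv.2.coprime_dvd_left (Dvd.intro_left _ rfl)
    have hcard := (Finset.card_le_card hsub).trans (Finset.card_union_le _ _)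
    by_cases hpa : p ∣ a
    · simp only [hpa, if_true, Finset.image_empty, Finset.card_empty, add_zero] at hcard ⊢
      have : (((p * m).divisors.filter (fun v => v.Coprime a)).card : ℝ)
          ≤ ((m.divisors.filter (fun v => v.Coprime a)).card : ℝ) := by exact_mod_cast hcard
      linarith
    · simp only [hpa, if_false] at hcard ⊢
      have h2 := hcard.trans (Nat.add_le_add_left Finset.card_image_le _)
      have : (((p * m).divisors.filter (fun v => v.Coprime a)).card : ℝ)
          ≤ ((m.divisors.filter (fun v => v.Coprime a)).card : ℝ)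
            + ((m.divisors.filter (fun v => v.Coprime a)).card : ℝ) := by exact_mod_cast h2
      linarith

/-- every positive integer splits into an `a`-smooth part and a part coprime to `a` -/
theorem exists_split (a w : ℕ) (hw : w ≠ 0) :
    ∃ e v : ℕ, w = e * v ∧ e.primeFactors ⊆ a.primeFactors ∧ (a ≠ 0 → v.Coprime a) := by
  induction w using induction_on_primes with
  | zero => exact absurd rfl hw
  | one => exact ⟨1, 1, by simp, by simp, by simp⟩
  | prime_mul p m hp ih =>
    have hm0 : m ≠ 0 := by rintro rfl; simp at hw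
    obtain ⟨e, v, rfl, he, hv⟩ := ih hm0
    have he0 : e ≠ 0 := by rintro rfl; simp at hm0
    by_cases ha0 : a = 0
    · subst ha0
      refine ⟨1, p * (e * v), by simp, by simp, by simp⟩
    by_cases hpa : p ∣ a
    · refine ⟨p * e, v, by ring, ?_, hv⟩
      rw [Nat.primeFactors_mul hp.ne_zero he0, hp.primeFactors]
      apply Finset.union_subset _ he
      intro q hq
      rw [Finset.mem_singleton] at hq
      subst hq
      exact Nat.mem_primeFactors.mpr ⟨hp, hpa, ha0⟩
    · refine ⟨e, p * v, by ring, he, fun h => ?_⟩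
      exact Nat.Coprime.mul_left ((Nat.Prime.coprime_iff_not_dvd hp).mpr hpa) (hv h)

/-- `a / φ(a)` as a product. -/
theorem div_totient_eq_prod (a : ℕ) (ha : a ≠ 0) :
    (a : ℝ) / (Nat.totient a : ℝ)
        = ∏ p ∈ a.primeFactors, (1 + (1 / (p : ℝ)) / (1 - 1 / (p : ℝ))) := by
  have h := Nat.totient_eq_mul_prod_factors a
  have h' : (Nat.totient a : ℝ) = a * ∏ p ∈ a.primeFactors, (1 - (p : ℝ)⁻¹) := by
    have := congrArg (fun x : ℚ => (x : ℝ)) h
    simpa using this
  rw [h']
  have ha' : (a : ℝ) ≠ 0 := by exact_mod_cast ha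
  have hne : ∀ p ∈ a.primeFactors, (1 - (p : ℝ)⁻¹) ≠ 0 := by
    intro p hp
    have := (Nat.prime_of_mem_primeFactors hp).one_lt
    have h1 : (1 : ℝ) < p := by exact_mod_cast this
    have : (p : ℝ)⁻¹ < 1 := inv_lt_one_of_one_lt₀ h1
    linarith
  rw [div_mul_cancel_left₀ ha', ← Finset.prod_inv_distrib]
  refine Finset.prod_congr rfl fun p hp => ?_
  have h1 := hne p hp
  have h0 : (p : ℝ) ≠ 0 := by
    exact_mod_cast (Nat.prime_of_mem_primeFactors hp).ne_zero
  have h2 : (p : ℝ) - 1 ≠ 0 := by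
    intro h
    apply h1
    have : (p : ℝ) = 1 := by linarith
    rw [this]; norm_num
  have e1 : 1 - (p : ℝ)⁻¹ = ((p : ℝ) - 1) / p := by field_simp
  rw [one_div, e1, inv_div]
  field_simp
  ring

theorem sum_smooth_le (a W : ℕ) (ha : a ≠ 0) :
    ∑ e ∈ Finset.Icc 1 W with e.primeFactors ⊆ a.primeFactors, (1 : ℝ) / e
      ≤ (a : ℝ) / (Nat.totient a : ℝ) := by
  classical
  have hmaps : ∀ e ∈ (Finset.Icc 1 W).filter (fun e => e.primeFactors ⊆ a.primeFactors),
      e.primeFactors ∈ a.primeFactors.powerset := by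
    intro e he
    exact Finset.mem_powerset.mpr (Finset.mem_filter.mp he).2
  rw [← Finset.sum_fiberwise_of_maps_to hmaps, div_totient_eq_prod a ha, Finset.prod_one_add]
  refine Finset.sum_le_sum fun T hT => ?_
  have hT' := Finset.mem_powerset.mp hT
  have h := sum_primeFactors_eq_le (fun n : ℕ => (1 : ℝ) / n) (fun n => by positivity) (by simp)
    (fun m n => by push_cast; rw [one_div_mul_one_div]) W T
    (fun p hp => Nat.prime_of_mem_primeFactors (hT' hp))
    (fun p hp => by
      have := (Nat.prime_of_mem_primeFactors (hT' hp)).one_lt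
      have h1 : (1 : ℝ) < p := by exact_mod_cast this
      rw [div_lt_one (by linarith)]
      exact h1)
  refine le_trans ?_ h
  apply Finset.sum_le_sum_of_subset_of_nonneg
  · intro e he
    have he := Finset.mem_filter.mp he
    exact Finset.mem_filter.mpr ⟨(Finset.mem_filter.mp he.1).1, he.2⟩
  · intro _ _ _; positivity

/-- `∑_{w ≤ W} 1/w ≤ (a/φ(a)) ∑_{v ≤ W, (v,a)=1} 1/v`. -/
theorem harmonic_le_coprime (a W : ℕ) (ha : a ≠ 0) :
    ∑ w ∈ Finset.Icc 1 W, (1 : ℝ) / w ≤
      ((a : ℝ) / (Nat.totient a : ℝ)) * ∑ v ∈ Finset.Icc 1 W with v.Coprime a, (1 : ℝ) / v := by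
  classical
  have hsmooth := sum_smooth_le a W ha
  have hsplit : ∀ w : ℕ, ∃ x : ℕ × ℕ, w ≠ 0 → (w = x.1 * x.2 ∧ x.1.primeFactors ⊆ a.primeFactors ∧
      x.2.Coprime a) := by
    intro w
    by_cases hw : w = 0
    · exact ⟨(0, 0), fun h => absurd hw h⟩
    · obtain ⟨e, v, h1, h2, h3⟩ := exists_split a w hw
      exact ⟨(e, v), fun _ => ⟨h1, h2, h3 ha⟩⟩
  choose g hg using hsplit
  have hne : ∀ w ∈ Finset.Icc 1 W, w ≠ 0 := fun w hw => by
    have := (Finset.mem_Icc.mp hw).1
    omega
  have hinj : Set.InjOn g (Finset.Icc 1 W : Finset ℕ) := by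
    intro x hx y hy hxy
    rw [(hg x (hne x hx)).1, (hg y (hne y hy)).1, hxy]
  calc ∑ w ∈ Finset.Icc 1 W, (1 : ℝ) / w
      = ∑ w ∈ Finset.Icc 1 W, (1 : ℝ) / ((g w).1 : ℝ) * (1 / ((g w).2 : ℝ)) := by
        refine Finset.sum_congr rfl fun w hw => ?_
        have := (hg w (hne w hw)).1
        conv_lhs => rw [this]
        push_cast
        rw [one_div_mul_one_div]
    _ = ∑ x ∈ (Finset.Icc 1 W).image g, (1 : ℝ) / (x.1 : ℝ) * (1 / (x.2 : ℝ)) := by
        rw [Finset.sum_image hinj]
    _ ≤ ∑ x ∈ ((Finset.Icc 1 W).filter (fun e => e.primeFactors ⊆ a.primeFactors)) ×ˢ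
          ((Finset.Icc 1 W).filter (fun v => v.Coprime a)),
          (1 : ℝ) / (x.1 : ℝ) * (1 / (x.2 : ℝ)) := by
        apply Finset.sum_le_sum_of_subset_of_nonneg
        · intro x hx
          obtain ⟨w, hw, rfl⟩ := Finset.mem_image.mp hx
          have hw0 := hne w hw
          obtain ⟨h1, h2, h3⟩ := hg w hw0
          have hwW := (Finset.mem_Icc.mp hw).2
          have h10 : (g w).1 ≠ 0 := by intro h; rw [h, zero_mul] at h1; exact hw0 h1
          have h20 : (g w).2 ≠ 0 := by intro h; rw [h, mul_zero] at h1; exact hw0 h1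
          have h1w : (g w).1 ≤ w := Nat.le_of_dvd (Nat.pos_of_ne_zero hw0) (Dvd.intro _ h1.symm)
          have h2w : (g w).2 ≤ w :=
            Nat.le_of_dvd (Nat.pos_of_ne_zero hw0) (Dvd.intro_left _ h1.symm)
          simp only [Finset.mem_product, Finset.mem_filter, Finset.mem_Icc]
          exact ⟨⟨⟨by omega, by omega⟩, h2⟩, ⟨by omega, by omega⟩, h3⟩
        · intro _ _ _; positivity
    _ = (∑ e ∈ Finset.Icc 1 W with e.primeFactors ⊆ a.primeFactors, (1 : ℝ) / e)
          * ∑ v ∈ Finset.Icc 1 W with v.Coprime a, (1 : ℝ) / v := by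
        rw [Finset.sum_mul_sum, Finset.sum_product]
    _ ≤ _ := by
        refine mul_le_mul_of_nonneg_right hsmooth ?_
        exact Finset.sum_nonneg fun _ _ => by positivity

/-- Lower bound for the sum of `h_a(m)/m`. -/
theorem sum_hfun_ge (a W : ℕ) (ha : a ≠ 0) :
    (∑ w ∈ Finset.Icc 1 W, (1 : ℝ) / w) ^ 2 ≤
      ((a : ℝ) / (Nat.totient a : ℝ)) * ∑ m ∈ Finset.Icc 1 (W ^ 2), hfun a m / m := by
  classical
  have h1 := harmonic_le_coprime a W ha
  have h0 : 0 ≤ ∑ w ∈ Finset.Icc 1 W, (1 : ℝ) / w := Finset.sum_nonneg fun _ _ => by positivity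
  have hphi : 0 ≤ (a : ℝ) / (Nat.totient a : ℝ) := by positivity
  have h2 : (∑ w ∈ Finset.Icc 1 W, (1 : ℝ) / w) * (∑ v ∈ Finset.Icc 1 W with v.Coprime a, (1 : ℝ) / v)
      ≤ ∑ m ∈ Finset.Icc 1 (W ^ 2), hfun a m / m := by
    rw [Finset.sum_mul_sum, ← Finset.sum_product']
    have hmaps : ∀ x ∈ (Finset.Icc 1 W) ×ˢ ((Finset.Icc 1 W).filter (fun v => v.Coprime a)),
        x.1 * x.2 ∈ Finset.Icc 1 (W ^ 2) := by
      intro x hx
      simp only [Finset.mem_product, Finset.mem_filter, Finset.mem_Icc] at hx ⊢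
      constructor
      · exact Nat.mul_pos (by omega) (by omega)
      · rw [sq]; exact Nat.mul_le_mul hx.1.2 hx.2.1.2
    rw [← Finset.sum_fiberwise_of_maps_to hmaps]
    refine Finset.sum_le_sum fun m hm => ?_
    have hm1 := (Finset.mem_Icc.mp hm).1
    have hm0 : m ≠ 0 := by omega
    have hmr : (0 : ℝ) < m := by exact_mod_cast hm1
    calc ∑ x ∈ ((Finset.Icc 1 W) ×ˢ ((Finset.Icc 1 W).filter (fun v => v.Coprime a))) with
            x.1 * x.2 = m, (1 : ℝ) / (x.1 : ℝ) * (1 / (x.2 : ℝ))
        = ∑ x ∈ ((Finset.Icc 1 W) ×ˢ ((Finset.Icc 1 W).filter (fun v => v.Coprime a))) with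
            x.1 * x.2 = m, (1 : ℝ) / m := by
          refine Finset.sum_congr rfl fun x hx => ?_
          have := (Finset.mem_filter.mp hx).2
          rw [one_div_mul_one_div, ← this]
          push_cast
          rfl
      _ = ((((Finset.Icc 1 W) ×ˢ ((Finset.Icc 1 W).filter (fun v => v.Coprime a))).filter
            (fun x => x.1 * x.2 = m)).card : ℝ) * (1 / m) := by
          rw [Finset.sum_const, nsmul_eq_mul]
      _ ≤ hfun a m * (1 / m) := by
          refine mul_le_mul_of_nonneg_right ?_ (by positivity)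
          refine le_trans ?_ (card_coprime_divisors_le a m hm0)
          have : (((Finset.Icc 1 W) ×ˢ ((Finset.Icc 1 W).filter (fun v => v.Coprime a))).filter
            (fun x => x.1 * x.2 = m)).card ≤ (m.divisors.filter (fun v => v.Coprime a)).card := by
            refine Finset.card_le_card_of_injOn (fun x => x.2) ?_ ?_
            · intro x hx
              have hx := Finset.mem_filter.mp (Finset.mem_coe.mp hx)
              have hx1 := Finset.mem_product.mp hx.1
              rw [Finset.mem_coe, Finset.mem_filter, Nat.mem_divisors]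
              exact ⟨⟨Dvd.intro_left _ hx.2, hm0⟩, (Finset.mem_filter.mp hx1.2).2⟩
            · intro x hx y hy hxy
              have hx := Finset.mem_filter.mp (Finset.mem_coe.mp hx)
              have hy := Finset.mem_filter.mp (Finset.mem_coe.mp hy)
              have hxy : x.2 = y.2 := hxy
              have hx1 := Finset.mem_product.mp hx.1
              have hpos : 0 < x.2 := (Finset.mem_Icc.mp (Finset.mem_filter.mp hx1.2).1).1
              have e := hx.2.trans hy.2.symm
              rw [← hxy] at e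
              exact Prod.ext (Nat.eq_of_mul_eq_mul_right hpos e) hxy
          exact_mod_cast this
      _ = hfun a m / m := by ring
  calc (∑ w ∈ Finset.Icc 1 W, (1 : ℝ) / w) ^ 2
      = (∑ w ∈ Finset.Icc 1 W, (1 : ℝ) / w) * (∑ w ∈ Finset.Icc 1 W, (1 : ℝ) / w) := by ring
    _ ≤ (∑ w ∈ Finset.Icc 1 W, (1 : ℝ) / w) * (((a : ℝ) / (Nat.totient a : ℝ)) *
          ∑ v ∈ Finset.Icc 1 W with v.Coprime a, (1 : ℝ) / v) := by gcongr
    _ = ((a : ℝ) / (Nat.totient a : ℝ)) * ((∑ w ∈ Finset.Icc 1 W, (1 : ℝ) / w) *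
          (∑ v ∈ Finset.Icc 1 W with v.Coprime a, (1 : ℝ) / v)) := by ring
    _ ≤ _ := by gcongr

end Pool.Agent.Lib.Sieve
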