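import Mathlib
import Pool.Agent.Lib.Sieve.Pair
import Pool.Agent.Lib.Sieve.Roots

/-!
# The upper bound sieve for prime pairs `p, p + a`, uniform in `a`
-/

open Finset ArithmeticFunction

namespace Pool.Agent.Lib.Sieve

/-- local densities -/
noncomputable def pairNu (a : ℕ) : ArithmeticFunction ℝ :=
  ArithmeticFunction.prodPrimeFactors (fun p => if p ∣ a then (1 : ℝ) / p else 2 / p)

theorem pairNu_prime (a : ℕ) {p : ℕ} (hp : p.Prime) :
    pairNu a p = if p ∣ a then (1 : ℝ) / p else 2 / p := by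
  unfold pairNu
  rw [ArithmeticFunction.prodPrimeFactors_apply hp.ne_zero, hp.primeFactors, Finset.prod_singleton]

theorem pairNu_squarefree (a : ℕ) {d : ℕ} (hd : Squarefree d) :
    pairNu a d = (rootCount a d : ℝ) / d := by
  unfold pairNu
  rw [ArithmeticFunction.prodPrimeFactors_apply hd.ne_zero, rootCount_squarefree a hd]
  have h : (d : ℝ) = ∏ p ∈ d.primeFactors, (p : ℝ) := by
    conv_lhs => rw [← Nat.prod_primeFactors_of_squarefree hd]
    push_cast
    rfl
  rw [h, ← Finset.prod_div_distrib]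
  refine Finset.prod_congr rfl fun p _ => ?_
  split_ifs <;> rfl

/-- the sieve -/
noncomputable def pairSieve (a N Z : ℕ) (ha : 2 ∣ a) : BoundingSieve where
  support := (Finset.Icc 1 N).image (fun n => n * (n + a))
  prodPrimes := ∏ p ∈ (Finset.Icc 1 Z).filter Nat.Prime, p
  prodPrimes_squarefree := by
    apply Finset.squarefree_prod_of_pairwise_isCoprime
    · intro p hp q hq hpq
      have hp' := (Finset.mem_filter.mp (Finset.mem_coe.mp hp)).2
      have hq' := (Finset.mem_filter.mp (Finset.mem_coe.mp hq)).2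
      exact Nat.coprime_iff_isRelPrime.mp ((Nat.coprime_primes hp' hq').mpr hpq)
    · intro p hp
      exact (Finset.mem_filter.mp hp).2.prime.squarefree
  weights := fun _ => 1
  weights_nonneg := fun _ => zero_le_one
  totalMass := N
  nu := pairNu a
  nu_mult := by
    unfold pairNu
    exact ArithmeticFunction.IsMultiplicative.prodPrimeFactors _
  nu_pos_of_prime := by
    intro p hp _
    rw [pairNu_prime a hp]
    have := hp.pos
    split_ifs <;> positivity
  nu_lt_one_of_prime := by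
    intro p hp _
    rw [pairNu_prime a hp]
    have h2 := hp.two_le
    have hp0 : (0 : ℝ) < p := by exact_mod_cast hp.pos
    split_ifs with h
    · rw [div_lt_one hp0]
      exact_mod_cast hp.one_lt
    · rw [div_lt_one hp0]
      have : p ≠ 2 := by rintro rfl; exact h ha
      have : 2 < p := by omega
      exact_mod_cast this

theorem pair_inj (a : ℕ) : Function.Injective (fun n : ℕ => n * (n + a)) := by
  intro x y hxy
  have hxy : x * (x + a) = y * (y + a) := hxy
  rcases lt_trichotomy x y with h | h | h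
  · exfalso
    have : x * (x + a) < y * (y + a) := by
      rcases Nat.eq_zero_or_pos x with h0 | h0
      · subst h0
        simp only [Nat.zero_mul]
        positivity
      · exact Nat.mul_lt_mul_of_lt_of_le h (by omega) (by omega)
    omega
  · exact h
  · exfalso
    have : y * (y + a) < x * (x + a) := by
      rcases Nat.eq_zero_or_pos y with h0 | h0
      · subst h0
        simp only [Nat.zero_mul]
        positivity
      · exact Nat.mul_lt_mul_of_lt_of_le h (by omega) (by omega)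
    omega

theorem dvd_prodPrimes {a N Z : ℕ} (ha : 2 ∣ a) {p : ℕ} (hp : p.Prime) (hpZ : p ≤ Z) :
    p ∣ (pairSieve a N Z ha).prodPrimes := by
  have : p ∣ ∏ p ∈ (Finset.Icc 1 Z).filter Nat.Prime, p :=
    Finset.dvd_prod_of_mem (fun p => p)
      (Finset.mem_filter.mpr ⟨Finset.mem_Icc.mpr ⟨hp.one_lt.le, hpZ⟩, hp⟩)
  exact this

theorem prime_dvd_prodPrimes {a N Z : ℕ} (ha : 2 ∣ a) {p : ℕ} (hp : p.Prime)
    (h : p ∣ (pairSieve a N Z ha).prodPrimes) : p ≤ Z := by
  have h' : p ∣ ∏ p ∈ (Finset.Icc 1 Z).filter Nat.Prime, p := h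
  obtain ⟨q, hq, hpq⟩ := (Prime.dvd_finsetProd_iff hp.prime _).mp h'
  have hq' := Finset.mem_filter.mp hq
  have : p = q := (Nat.prime_dvd_prime_iff_eq hp hq'.2).mp hpq
  rw [this]
  exact (Finset.mem_Icc.mp hq'.1).2

theorem siftedSum_pair (a N Z : ℕ) (ha : 2 ∣ a) :
    (pairSieve a N Z ha).siftedSum =
      (((Finset.Icc 1 N).filter (fun n =>
        (pairSieve a N Z ha).prodPrimes.Coprime (n * (n + a)))).card : ℝ) := by
  unfold BoundingSieve.siftedSum
  change ∑ d ∈ (Finset.Icc 1 N).image (fun n => n * (n + a)),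
    (if (pairSieve a N Z ha).prodPrimes.Coprime d then (1 : ℝ) else 0) = _
  rw [Finset.sum_image (fun x _ y _ h => pair_inj a h), Finset.card_filter]
  push_cast
  rfl

theorem multSum_pair (a N Z : ℕ) (ha : 2 ∣ a) (d : ℕ) :
    (pairSieve a N Z ha).multSum d =
      (((Finset.Icc 1 N).filter (fun n => d ∣ n * (n + a))).card : ℝ) := by
  unfold BoundingSieve.multSum
  change ∑ n ∈ (Finset.Icc 1 N).image (fun n => n * (n + a)),
    (if d ∣ n then (1 : ℝ) else 0) = _
  rw [Finset.sum_image (fun x _ y _ h => pair_inj a h), Finset.card_filter]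
  push_cast
  rfl

theorem abs_rem_pair_le (a N Z : ℕ) (ha : 2 ∣ a) {d : ℕ}
    (hd : d ∣ (pairSieve a N Z ha).prodPrimes) :
    |(pairSieve a N Z ha).rem d| ≤ d := by
  have hsq : Squarefree d :=
    (pairSieve a N Z ha).prodPrimes_squarefree.squarefree_of_dvd hd
  unfold BoundingSieve.rem
  rw [multSum_pair]
  change |_ - pairNu a d * (N : ℝ)| ≤ _
  rw [pairNu_squarefree a hsq]
  refine (abs_count_sub_le a d N (Nat.pos_of_ne_zero hsq.ne_zero)).trans ?_
  exact_mod_cast rootCount_le a d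

theorem selS_pair_ge (a N W : ℕ) (ha : 2 ∣ a) (ha0 : a ≠ 0) :
    (∑ w ∈ Finset.Icc 1 W, (1 : ℝ) / w) ^ 2 ≤
      ((a : ℝ) / (Nat.totient a : ℝ)) * selS (pairSieve a N (W ^ 2) ha) (W ^ 2) := by
  refine (sum_hfun_ge a W ha0).trans ?_
  refine mul_le_mul_of_nonneg_left ?_ (by positivity)
  refine sum_le_selS (pairSieve a N (W ^ 2) ha) (W ^ 2) (fun m => hfun a m / m)
    (fun n => div_nonneg (hfun_nonneg a n) (Nat.cast_nonneg n)) (by simp [hfun_one]) ?_
    (fun p hp hpZ => dvd_prodPrimes ha hp hpZ) ?_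
  · intro m n
    by_cases hm : m = 0
    · subst hm; simp
    by_cases hn : n = 0
    · subst hn; simp
    rw [hfun_mul a hm hn]
    push_cast
    rw [mul_div_mul_comm]
  · intro p hp _
    change hfun a p / p = pairNu a p
    rw [pairNu_prime a hp, hfun_prime a hp]
    split_ifs <;> rfl

/-- The sieve bound in terms of the parameter `W`. -/
theorem pair_count_le (a N W : ℕ) (ha : 2 ∣ a) (ha0 : a ≠ 0) (hW : 1 ≤ W) :
    (((Finset.Icc 1 N).filter (fun p => p.Prime ∧ (p + a).Prime)).card : ℝ) ≤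
      (W : ℝ) ^ 2 + ((a : ℝ) / (Nat.totient a : ℝ)) * N / (Real.log (W + 1)) ^ 2 + (W : ℝ) ^ 8 := by
  set s := pairSieve a N (W ^ 2) ha with hs
  have hZ : 1 ≤ W ^ 2 := Nat.one_le_pow _ _ hW
  have hsel := selberg_bound s (W ^ 2) hZ
  -- the sifted sum controls prime pairs
  have h1 : (((Finset.Icc 1 N).filter (fun p => p.Prime ∧ (p + a).Prime)).card : ℝ)
      ≤ (W : ℝ) ^ 2 + s.siftedSum := by
    rw [siftedSum_pair]
    have hsub : (Finset.Icc 1 N).filter (fun p => p.Prime ∧ (p + a).Prime) ⊆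
        (Finset.Icc 1 (W ^ 2)) ∪ ((Finset.Icc 1 N).filter (fun n =>
          (pairSieve a N (W ^ 2) ha).prodPrimes.Coprime (n * (n + a)))) := by
      intro p hp
      have hp' := Finset.mem_filter.mp hp
      have hpI := Finset.mem_Icc.mp hp'.1
      rw [Finset.mem_union]
      by_cases hpW : p ≤ W ^ 2
      · exact Or.inl (Finset.mem_Icc.mpr ⟨hpI.1, hpW⟩)
      · right
        refine Finset.mem_filter.mpr ⟨hp'.1, ?_⟩
        apply Nat.Coprime.mul_right
        · refine ((Nat.Prime.coprime_iff_not_dvd hp'.2.1).mpr fun h => hpW ?_).symm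
          exact prime_dvd_prodPrimes ha hp'.2.1 h
        · refine ((Nat.Prime.coprime_iff_not_dvd hp'.2.2).mpr fun h => hpW ?_).symm
          have := prime_dvd_prodPrimes ha hp'.2.2 h
          omega
    have := (Finset.card_le_card hsub).trans (Finset.card_union_le _ _)
    rw [Nat.card_Icc, Nat.add_sub_cancel] at this
    exact_mod_cast this
  -- main term
  have hharm : Real.log ((W : ℝ) + 1) ≤ ∑ w ∈ Finset.Icc 1 W, (1 : ℝ) / w := by
    have h := log_add_one_le_harmonic W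
    rw [harmonic_eq_sum_Icc] at h
    push_cast at h
    simpa [one_div] using h
  have hWr : (1 : ℝ) ≤ W := by exact_mod_cast hW
  have hlog : 0 < Real.log ((W : ℝ) + 1) := Real.log_pos (by linarith)
  have hS := selS_pos s (W ^ 2) hZ
  have hSge := selS_pair_ge a N W ha ha0
  rw [← hs] at hSge
  have hmain : s.totalMass / selS s (W ^ 2)
      ≤ ((a : ℝ) / (Nat.totient a : ℝ)) * N / (Real.log (W + 1)) ^ 2 := by
    change (N : ℝ) / selS s (W ^ 2) ≤ _
    rw [div_le_div_iff₀ hS (by positivity)]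
    have h3 : (Real.log ((W : ℝ) + 1)) ^ 2
        ≤ ((a : ℝ) / (Nat.totient a : ℝ)) * selS s (W ^ 2) :=
      (pow_le_pow_left₀ hlog.le hharm 2).trans hSge
    calc (N : ℝ) * (Real.log ((W : ℝ) + 1)) ^ 2
        ≤ (N : ℝ) * (((a : ℝ) / (Nat.totient a : ℝ)) * selS s (W ^ 2)) := by gcongr
      _ = ((a : ℝ) / (Nat.totient a : ℝ)) * N * selS s (W ^ 2) := by ring
  -- error term
  have herr : ∑ d1 ∈ s.prodPrimes.divisors with d1 ≤ W ^ 2,
      ∑ d2 ∈ s.prodPrimes.divisors with d2 ≤ W ^ 2, |s.rem (d1.lcm d2)| ≤ (W : ℝ) ^ 8 := by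
    have hterm : ∀ d1 ∈ s.prodPrimes.divisors.filter (fun d => d ≤ W ^ 2),
        ∀ d2 ∈ s.prodPrimes.divisors.filter (fun d => d ≤ W ^ 2),
        |s.rem (d1.lcm d2)| ≤ (W : ℝ) ^ 4 := by
      intro d1 h1 d2 h2
      have h1' := Finset.mem_filter.mp h1
      have h2' := Finset.mem_filter.mp h2
      have hd1 := Nat.dvd_of_mem_divisors h1'.1
      have hd2 := Nat.dvd_of_mem_divisors h2'.1
      have h10 := Nat.pos_of_mem_divisors h1'.1
      have h20 := Nat.pos_of_mem_divisors h2'.1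
      refine (abs_rem_pair_le a N (W ^ 2) ha (Nat.lcm_dvd hd1 hd2)).trans ?_
      have : d1.lcm d2 ≤ W ^ 4 := by
        calc d1.lcm d2 ≤ d1 * d2 := Nat.le_of_dvd (Nat.mul_pos h10 h20) (Nat.lcm_dvd_mul d1 d2)
          _ ≤ W ^ 2 * W ^ 2 := Nat.mul_le_mul h1'.2 h2'.2
          _ = W ^ 4 := by ring
      exact_mod_cast this
    have hcard : ((s.prodPrimes.divisors.filter (fun d => d ≤ W ^ 2)).card : ℝ) ≤ (W : ℝ) ^ 2 := by
      have : (s.prodPrimes.divisors.filter (fun d => d ≤ W ^ 2)).card ≤ W ^ 2 := by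
        have hsub : s.prodPrimes.divisors.filter (fun d => d ≤ W ^ 2) ⊆ Finset.Icc 1 (W ^ 2) := by
          intro d hd
          have hd' := Finset.mem_filter.mp hd
          exact Finset.mem_Icc.mpr ⟨Nat.pos_of_mem_divisors hd'.1, hd'.2⟩
        exact (Finset.card_le_card hsub).trans (by simp)
      exact_mod_cast this
    calc ∑ d1 ∈ s.prodPrimes.divisors with d1 ≤ W ^ 2,
          ∑ d2 ∈ s.prodPrimes.divisors with d2 ≤ W ^ 2, |s.rem (d1.lcm d2)|
        ≤ ∑ d1 ∈ s.prodPrimes.divisors with d1 ≤ W ^ 2,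
          ∑ d2 ∈ s.prodPrimes.divisors with d2 ≤ W ^ 2, (W : ℝ) ^ 4 :=
          Finset.sum_le_sum fun d1 h1 => Finset.sum_le_sum fun d2 h2 => hterm d1 h1 d2 h2
      _ = ((s.prodPrimes.divisors.filter (fun d => d ≤ W ^ 2)).card : ℝ)
          * (((s.prodPrimes.divisors.filter (fun d => d ≤ W ^ 2)).card : ℝ) * (W : ℝ) ^ 4) := by
          simp only [Finset.sum_const, nsmul_eq_mul]
      _ ≤ (W : ℝ) ^ 2 * ((W : ℝ) ^ 2 * (W : ℝ) ^ 4) := by gcongr
      _ = (W : ℝ) ^ 8 := by ring
  linarith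

/-- `(log x)^2 ≤ 16 √x` -/
theorem log_sq_le (y : ℝ) (hy : 1 ≤ y) : (Real.log y) ^ 2 ≤ 16 * Real.sqrt y := by
  have hy0 : 0 < y := by linarith
  set t := Real.sqrt (Real.sqrt y) with ht
  have ht0 : 0 < t := Real.sqrt_pos.mpr (Real.sqrt_pos.mpr hy0)
  have h4 : Real.log y = 4 * Real.log t := by
    rw [ht, Real.log_sqrt (Real.sqrt_nonneg y), Real.log_sqrt hy0.le]; ring
  have ht1 : Real.log t ≤ t := by
    have := Real.log_le_sub_one_of_pos ht0
    linarith
  have hlt0 : 0 ≤ Real.log t := by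
    have : 0 ≤ Real.log y := Real.log_nonneg hy
    linarith
  have hsq : t ^ 2 = Real.sqrt y := Real.sq_sqrt (Real.sqrt_nonneg y)
  rw [h4, ← hsq]
  nlinarith

theorem one_le_div_totient (d : ℕ) (hd : 1 ≤ d) : 1 ≤ (d : ℝ) / (Nat.totient d : ℝ) := by
  have h1 : 0 < Nat.totient d := Nat.totient_pos.mpr hd
  rw [one_le_div (by exact_mod_cast h1)]
  exact_mod_cast Nat.totient_le d

/-- **Upper bound sieve for prime pairs**, uniform in the shift. -/
theorem pair_sieve : ∃ C : ℝ, 0 < C ∧ ∀ N d : ℕ, 2 ≤ N → 1 ≤ d →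
    (((Finset.Icc 1 N).filter (fun p => p.Prime ∧ (p + d).Prime)).card : ℝ) ≤
      C * ((d : ℝ) / (Nat.totient d : ℝ)) * (N : ℝ) / (Real.log N) ^ 2 := by
  refine ⟨300, by norm_num, fun N d hN hd => ?_⟩
  have hNr : (2 : ℝ) ≤ N := by exact_mod_cast hN
  have hN0 : (0 : ℝ) < N := by linarith
  have hlogN : 0 < Real.log N := Real.log_pos (by linarith)
  have hphi := one_le_div_totient d hd
  have hsqrt0 : 0 < Real.sqrt N := Real.sqrt_pos.mpr hN0
  have hlog2 := log_sq_le N (by linarith)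
  -- √N ≤ 16 N / log² N
  have hsq : Real.sqrt N ≤ 16 * N / (Real.log N) ^ 2 := by
    rw [le_div_iff₀ (by positivity)]
    calc Real.sqrt N * (Real.log N) ^ 2 ≤ Real.sqrt N * (16 * Real.sqrt N) := by gcongr
      _ = 16 * (Real.sqrt N * Real.sqrt N) := by ring
      _ = 16 * N := by rw [Real.mul_self_sqrt hN0.le]
  have hone : 1 ≤ Real.sqrt N := by
    rw [Real.one_le_sqrt]; linarith
  by_cases hpar : 2 ∣ d
  · -- even shift
    set W := ⌊(N : ℝ) ^ (1 / 16 : ℝ)⌋₊ with hW
    have hpow1 : (1 : ℝ) ≤ (N : ℝ) ^ (1 / 16 : ℝ) := Real.one_le_rpow (by linarith) (by norm_num)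
    have hW1 : 1 ≤ W := Nat.one_le_floor_iff _ |>.mpr hpow1
    have hWle : (W : ℝ) ≤ (N : ℝ) ^ (1 / 16 : ℝ) := Nat.floor_le (by positivity)
    have hWlt : (N : ℝ) ^ (1 / 16 : ℝ) < W + 1 := Nat.lt_floor_add_one _
    have hW8 : (W : ℝ) ^ 8 ≤ Real.sqrt N := by
      calc (W : ℝ) ^ 8 ≤ ((N : ℝ) ^ (1 / 16 : ℝ)) ^ 8 := by gcongr
        _ = Real.sqrt N := by
          rw [← Real.rpow_natCast, ← Real.rpow_mul hN0.le, Real.sqrt_eq_rpow]
          norm_num
    have hWr : (1 : ℝ) ≤ W := by exact_mod_cast hW1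
    have hW2 : (W : ℝ) ^ 2 ≤ (W : ℝ) ^ 8 := pow_le_pow_right₀ hWr (by norm_num)
    have hlogW : Real.log N / 16 ≤ Real.log ((W : ℝ) + 1) := by
      have : Real.log ((N : ℝ) ^ (1 / 16 : ℝ)) ≤ Real.log ((W : ℝ) + 1) :=
        Real.log_le_log (by positivity) hWlt.le
      rw [Real.log_rpow hN0] at this
      linarith
    have h := pair_count_le d N W hpar (by omega) hW1
    have hm : ((d : ℝ) / (Nat.totient d : ℝ)) * N / (Real.log ((W : ℝ) + 1)) ^ 2
        ≤ 256 * ((d : ℝ) / (Nat.totient d : ℝ)) * N / (Real.log N) ^ 2 := by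
      have hl : (Real.log N / 16) ^ 2 ≤ (Real.log ((W : ℝ) + 1)) ^ 2 :=
        pow_le_pow_left₀ (by positivity) hlogW 2
      calc ((d : ℝ) / (Nat.totient d : ℝ)) * N / (Real.log ((W : ℝ) + 1)) ^ 2
          ≤ ((d : ℝ) / (Nat.totient d : ℝ)) * N / (Real.log N / 16) ^ 2 := by gcongr
        _ = 256 * ((d : ℝ) / (Nat.totient d : ℝ)) * N / (Real.log N) ^ 2 := by
          field_simp
          ring
    have herr : 2 * Real.sqrt N ≤ 32 * ((d : ℝ) / (Nat.totient d : ℝ)) * N / (Real.log N) ^ 2 := by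
      calc 2 * Real.sqrt N ≤ 2 * (16 * N / (Real.log N) ^ 2) := by gcongr
        _ = 32 * 1 * N / (Real.log N) ^ 2 := by ring
        _ ≤ 32 * ((d : ℝ) / (Nat.totient d : ℝ)) * N / (Real.log N) ^ 2 := by gcongr
    have hfin : 256 * ((d : ℝ) / (Nat.totient d : ℝ)) * N / (Real.log N) ^ 2
        + 32 * ((d : ℝ) / (Nat.totient d : ℝ)) * N / (Real.log N) ^ 2
        ≤ 300 * ((d : ℝ) / (Nat.totient d : ℝ)) * N / (Real.log N) ^ 2 := by
      rw [← add_div, ← add_mul, ← add_mul]
      gcongr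
      norm_num
    linarith
  · -- odd shift: only p = 2 can occur
    have hcard : ((Finset.Icc 1 N).filter (fun p => p.Prime ∧ (p + d).Prime)).card ≤ 1 := by
      refine Finset.card_le_one.mpr fun x hx y hy => ?_
      have key : ∀ p ∈ (Finset.Icc 1 N).filter (fun p => p.Prime ∧ (p + d).Prime), p = 2 := by
        intro p hp
        have hp' := (Finset.mem_filter.mp hp).2
        rcases hp'.1.eq_two_or_odd with h | h
        · exact h
        · exfalso
          rcases hp'.2.eq_two_or_odd with h2 | h2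
          · have := hp'.1.two_le
            omega
          · omega
      rw [key x hx, key y hy]
    calc (((Finset.Icc 1 N).filter (fun p => p.Prime ∧ (p + d).Prime)).card : ℝ) ≤ 1 := by
          exact_mod_cast hcard
      _ ≤ Real.sqrt N := hone
      _ ≤ 16 * N / (Real.log N) ^ 2 := hsq
      _ = 16 * 1 * N / (Real.log N) ^ 2 := by ring
      _ ≤ 300 * ((d : ℝ) / (Nat.totient d : ℝ)) * (N : ℝ) / (Real.log N) ^ 2 := by
          gcongr
          norm_num

end Pool.Agent.Lib.Sieve
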