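import Mathlib

/-!
# Upper bounds in Mertens' theorems
-/

open Finset ArithmeticFunction Filter Topology

namespace Pool.Agent.Lib.Sieve

/-- `∑_{p ≤ n} log p / p ≤ log n + log 4` -/
theorem sum_log_div_le (n : ℕ) (hn : 1 ≤ n) :
    ∑ p ∈ (Finset.Icc 1 n).filter Nat.Prime, Real.log p / p ≤ Real.log n + Real.log 4 := by
  have hnr : (1 : ℝ) ≤ n := by exact_mod_cast hn
  have hn0 : (0 : ℝ) < n := by linarith
  -- `∑_{m ≤ n} log m ≤ n log n`
  have h1 : ∑ m ∈ Finset.Icc 1 n, Real.log m ≤ n * Real.log n := by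
    calc ∑ m ∈ Finset.Icc 1 n, Real.log m ≤ ∑ m ∈ Finset.Icc 1 n, Real.log n := by
          refine Finset.sum_le_sum fun m hm => ?_
          have h1 := (Finset.mem_Icc.mp hm).1
          have h2 := (Finset.mem_Icc.mp hm).2
          exact Real.log_le_log (by exact_mod_cast h1) (by exact_mod_cast h2)
      _ = n * Real.log n := by simp
  -- lower bound through prime divisors
  have h2 : ∑ p ∈ (Finset.Icc 1 n).filter Nat.Prime, Real.log p * ((n / p : ℕ) : ℝ)
      ≤ ∑ m ∈ Finset.Icc 1 n, Real.log m := by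
    have hm : ∀ m ∈ Finset.Icc 1 n,
        ∑ p ∈ (Finset.Icc 1 n).filter Nat.Prime, (if p ∣ m then Real.log p else 0) ≤ Real.log m := by
      intro m hm
      have h1 := (Finset.mem_Icc.mp hm).1
      have h2 := (Finset.mem_Icc.mp hm).2
      rw [← Finset.sum_filter]
      have hprod : (∏ p ∈ ((Finset.Icc 1 n).filter Nat.Prime).filter (fun p => p ∣ m), p) ∣ m := by
        apply Finset.prod_primes_dvd
        · intro p hp
          exact (Finset.mem_filter.mp (Finset.mem_filter.mp hp).1).2.prime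
        · intro p hp
          exact (Finset.mem_filter.mp hp).2
      have hle := Nat.le_of_dvd h1 hprod
      have hlog : Real.log ((∏ p ∈ ((Finset.Icc 1 n).filter Nat.Prime).filter (fun p => p ∣ m), p : ℕ) : ℝ)
          ≤ Real.log m := by
        apply Real.log_le_log
        · have : 0 < ∏ p ∈ ((Finset.Icc 1 n).filter Nat.Prime).filter (fun p => p ∣ m), p :=
            Finset.prod_pos fun p hp =>
              (Finset.mem_filter.mp (Finset.mem_filter.mp hp).1).2.pos
          exact_mod_cast this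
        · exact_mod_cast hle
      push_cast at hlog
      rw [Real.log_prod] at hlog
      · exact hlog
      · intro p hp
        have := (Finset.mem_filter.mp (Finset.mem_filter.mp hp).1).2.ne_zero
        exact_mod_cast this
    calc ∑ p ∈ (Finset.Icc 1 n).filter Nat.Prime, Real.log p * ((n / p : ℕ) : ℝ)
        = ∑ p ∈ (Finset.Icc 1 n).filter Nat.Prime, ∑ m ∈ Finset.Icc 1 n,
            (if p ∣ m then Real.log p else 0) := by
          refine Finset.sum_congr rfl fun p _ => ?_
          rw [← Finset.sum_filter, Finset.sum_const, nsmul_eq_mul]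
          have : (Finset.Icc 1 n).filter (fun m => p ∣ m) = (Finset.Ioc 0 n).filter (fun m => p ∣ m) := by
            ext m; simp only [Finset.mem_filter, Finset.mem_Icc, Finset.mem_Ioc]; omega
          rw [this, Nat.Ioc_filter_dvd_card_eq_div]
          ring
      _ = ∑ m ∈ Finset.Icc 1 n, ∑ p ∈ (Finset.Icc 1 n).filter Nat.Prime,
            (if p ∣ m then Real.log p else 0) := Finset.sum_comm
      _ ≤ ∑ m ∈ Finset.Icc 1 n, Real.log m := Finset.sum_le_sum hm
  -- theta bound
  have htheta : ∑ p ∈ (Finset.Icc 1 n).filter Nat.Prime, Real.log p ≤ Real.log 4 * n := by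
    have := Chebyshev.theta_le_log4_mul_x (x := (n : ℝ)) hn0.le
    rw [Chebyshev.theta_eq_sum_primesLE_log, Nat.primesLE_eq_filter_Icc_one] at this
    exact this
  have h3 : ∑ p ∈ (Finset.Icc 1 n).filter Nat.Prime, (Real.log p * (n / p) - Real.log p)
      ≤ ∑ p ∈ (Finset.Icc 1 n).filter Nat.Prime, Real.log p * ((n / p : ℕ) : ℝ) := by
    refine Finset.sum_le_sum fun p hp => ?_
    have hp' := (Finset.mem_filter.mp hp).2
    have hlogp : 0 ≤ Real.log p := Real.log_nonneg (by exact_mod_cast hp'.one_lt.le)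
    have : (n : ℝ) / p ≤ ((n / p : ℕ) : ℝ) + 1 := by
      have h := Nat.lt_floor_add_one ((n : ℝ) / p)
      rw [Nat.floor_div_eq_div] at h
      exact h.le
    nlinarith
  rw [Finset.sum_sub_distrib] at h3
  have h4 : ∑ p ∈ (Finset.Icc 1 n).filter Nat.Prime, Real.log p * (n / p)
      = n * ∑ p ∈ (Finset.Icc 1 n).filter Nat.Prime, Real.log p / p := by
    rw [Finset.mul_sum]
    refine Finset.sum_congr rfl fun p _ => by ring
  rw [h4] at h3
  have h5 : (n : ℝ) * ∑ p ∈ (Finset.Icc 1 n).filter Nat.Prime, Real.log p / p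
      ≤ n * (Real.log n + Real.log 4) := by nlinarith
  exact le_of_mul_le_mul_left h5 hn0

/-- the Euler product over primes `≤ n` is at most the zeta sum -/
theorem prod_le_zeta (s : ℝ) (hs : 1 < s) (n : ℕ) :
    ∏ p ∈ (Finset.Icc 1 n).filter Nat.Prime, (1 - 1 / (p : ℝ) ^ s)⁻¹
      ≤ ∑' m : ℕ, 1 / (m : ℝ) ^ s := by
  set f : ℕ →* ℝ :=
    { toFun := fun m => 1 / (m : ℝ) ^ s
      map_one' := by simp
      map_mul' := fun a b => by
        push_cast
        rw [Real.mul_rpow (Nat.cast_nonneg a) (Nat.cast_nonneg b), one_div_mul_one_div] } with hf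
  have hsum : Summable f := Real.summable_one_div_nat_rpow.mpr hs
  have h := EulerProduct.prod_primesBelow_geometric_eq_tsum_smoothNumbers hsum (n + 1)
  have hset : Nat.primesBelow (n + 1) = (Finset.Icc 1 n).filter Nat.Prime := by
    ext p
    rw [Nat.mem_primesBelow, Finset.mem_filter, Finset.mem_Icc]
    constructor
    · rintro ⟨h1, h2⟩; exact ⟨⟨h2.one_lt.le, by omega⟩, h2⟩
    · rintro ⟨⟨_, h1⟩, h2⟩; exact ⟨by omega, h2⟩
  rw [hset] at h
  have h' : ∏ p ∈ (Finset.Icc 1 n).filter Nat.Prime, (1 - 1 / (p : ℝ) ^ s)⁻¹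
      = ∏ p ∈ (Finset.Icc 1 n).filter Nat.Prime, (1 - f p)⁻¹ := rfl
  rw [h', h]
  have hnn : ∀ m : ℕ, 0 ≤ f m := fun m => by
    change 0 ≤ 1 / (m : ℝ) ^ s
    positivity
  exact hsum.tsum_subtype_le _ _ hnn

/-- **Mertens' product theorem, upper bound.** -/
theorem mertens_product_upper : ∃ C : ℝ, 0 < C ∧ ∀ z : ℕ, 2 ≤ z →
    ∏ p ∈ (Finset.Icc 1 z).filter Nat.Prime, (1 - (1 : ℝ) / p)⁻¹ ≤ C * Real.log z := by
  have hlim := tendsto_sub_mul_tsum_nat_rpow
  have hev : ∀ᶠ s : ℝ in 𝓝[>] 1, (s - 1) * ∑' (n : ℕ), 1 / (n : ℝ) ^ s ≤ 2 :=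
    hlim.eventually (Iic_mem_nhds (by norm_num))
  rw [eventually_nhdsWithin_iff, Metric.eventually_nhds_iff] at hev
  obtain ⟨δ, hδ, hball⟩ := hev
  -- threshold
  set z0 : ℕ := ⌈Real.exp (1 / δ)⌉₊ + 2 with hz0
  set K : ℝ := ∏ p ∈ (Finset.Icc 1 z0).filter Nat.Prime, (1 - (1 : ℝ) / p)⁻¹ with hK
  have hfac : ∀ p : ℕ, p.Prime → 1 ≤ (1 - (1 : ℝ) / p)⁻¹ := by
    intro p hp
    have h2 : (2 : ℝ) ≤ p := by exact_mod_cast hp.two_le
    have h3 : 0 < 1 - (1 : ℝ) / p := by
      rw [sub_pos, div_lt_one (by linarith)]; linarith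
    rw [one_le_inv₀ h3]
    have : 0 < (1 : ℝ) / p := by positivity
    linarith
  have hK1 : 1 ≤ K := by
    rw [hK]
    have := Finset.prod_le_prod (s := (Finset.Icc 1 z0).filter Nat.Prime)
      (f := fun _ => (1 : ℝ)) (g := fun p : ℕ => (1 - (1 : ℝ) / p)⁻¹)
      (fun _ _ => zero_le_one) (fun p hp => hfac p (Finset.mem_filter.mp hp).2)
    simpa using this
  set E : ℝ := Real.exp (2 * (1 + Real.log 4 / Real.log 2)) with hE
  have hE0 : 0 < E := Real.exp_pos _
  refine ⟨K / Real.log 2 + 2 * E, by positivity, fun z hz => ?_⟩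
  have hzr : (2 : ℝ) ≤ z := by exact_mod_cast hz
  have hlogz : Real.log 2 ≤ Real.log z := Real.log_le_log (by norm_num) hzr
  have hlog2 : 0 < Real.log 2 := Real.log_pos (by norm_num)
  have hlogz0 : 0 < Real.log z := by linarith
  by_cases hcase : z ≤ z0
  · have hmono : ∏ p ∈ (Finset.Icc 1 z).filter Nat.Prime, (1 - (1 : ℝ) / p)⁻¹ ≤ K := by
      rw [hK]
      apply Finset.prod_le_prod_of_subset_of_one_le
      · apply Finset.filter_subset_filter
        exact Finset.Icc_subset_Icc le_rfl hcase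
      · intro p hp
        exact zero_le_one.trans (hfac p (Finset.mem_filter.mp hp).2)
      · intro p hp _
        exact hfac p (Finset.mem_filter.mp hp).2
    calc ∏ p ∈ (Finset.Icc 1 z).filter Nat.Prime, (1 - (1 : ℝ) / p)⁻¹ ≤ K := hmono
      _ = K / Real.log 2 * Real.log 2 := by field_simp
      _ ≤ K / Real.log 2 * Real.log z := by gcongr
      _ ≤ (K / Real.log 2 + 2 * E) * Real.log z := by
          have : 0 ≤ 2 * E * Real.log z := by positivity
          nlinarith
  · push Not at hcase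
    -- σ = 1 / log z < δ
    set σ : ℝ := 1 / Real.log z with hσ
    have hσ0 : 0 < σ := by positivity
    have hσδ : σ < δ := by
      have h1 : Real.exp (1 / δ) < z := by
        have h2 : Real.exp (1 / δ) ≤ (⌈Real.exp (1 / δ)⌉₊ : ℝ) := Nat.le_ceil _
        have h3 : ((⌈Real.exp (1 / δ)⌉₊ + 2 : ℕ) : ℝ) < z := by exact_mod_cast hcase
        push_cast at h3
        linarith
      have h2 : 1 / δ < Real.log z := by
        rw [Real.lt_log_iff_exp_lt (by linarith)]; exact h1
      rw [hσ, div_lt_iff₀ hlogz0]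
      rw [div_lt_iff₀ hδ] at h2
      linarith
    have hz' := hball (y := 1 + σ) (by
      rw [Real.dist_eq]
      simp only [add_sub_cancel_left]
      rw [abs_of_pos hσ0]; exact hσδ) (by simp [hσ0])
    have hzeta : ∑' (n : ℕ), 1 / (n : ℝ) ^ (1 + σ) ≤ 2 * Real.log z := by
      have : (1 + σ - 1) = σ := by ring
      rw [this] at hz'
      have h3 : σ * Real.log z = 1 := by rw [hσ]; field_simp
      have h4 : σ * ∑' (n : ℕ), 1 / (n : ℝ) ^ (1 + σ) ≤ σ * (2 * Real.log z) := by
        calc σ * ∑' (n : ℕ), 1 / (n : ℝ) ^ (1 + σ) ≤ 2 := hz'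
          _ = 2 * (σ * Real.log z) := by rw [h3]; ring
          _ = σ * (2 * Real.log z) := by ring
      exact le_of_mul_le_mul_left h4 hσ0
    have hP := prod_le_zeta (1 + σ) (by linarith) z
    -- compare factors
    have hcmp : ∀ p ∈ (Finset.Icc 1 z).filter Nat.Prime,
        (1 - (1 : ℝ) / p)⁻¹ ≤ Real.exp (2 * σ * (Real.log p / p)) * (1 - 1 / (p : ℝ) ^ (1 + σ))⁻¹ := by
      intro p hp
      have hp' := (Finset.mem_filter.mp hp).2
      have h2 : (2 : ℝ) ≤ p := by exact_mod_cast hp'.two_le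
      have hp0 : (0 : ℝ) < p := by linarith
      have hx : 0 < 1 - (1 : ℝ) / p := by
        rw [sub_pos, div_lt_one hp0]; linarith
      have hxhalf : (1 : ℝ) / 2 ≤ 1 - (1 : ℝ) / p := by
        have : (1 : ℝ) / p ≤ 1 / 2 := one_div_le_one_div_of_le (by norm_num) h2
        linarith
      have hpow : (p : ℝ) ^ (1 + σ) = p * (p : ℝ) ^ σ := by
        rw [Real.rpow_add hp0, Real.rpow_one]
      have hpσ : (1 : ℝ) ≤ (p : ℝ) ^ σ := Real.one_le_rpow (by linarith) hσ0.le
      have hy : 0 < 1 - 1 / (p : ℝ) ^ (1 + σ) := by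
        have : 1 / (p : ℝ) ^ (1 + σ) ≤ 1 / p := by
          apply one_div_le_one_div_of_le hp0
          rw [hpow]; nlinarith
        linarith
      rw [inv_le_iff_one_le_mul₀ hx]
      have hlogp : 0 ≤ Real.log p := Real.log_nonneg (by linarith)
      -- 1 - p^{-1-σ} ≤ (1 - 1/p) exp(2 σ log p / p)
      have hkey : 1 - 1 / (p : ℝ) ^ (1 + σ) ≤ (1 - (1 : ℝ) / p) * Real.exp (2 * σ * (Real.log p / p)) := by
        have e1 : 1 - 1 / (p : ℝ) ^ (1 + σ) = (1 - (1 : ℝ) / p) + (1 / p) * (1 - 1 / (p : ℝ) ^ σ) := by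
          rw [hpow]; field_simp; ring
        have e2 : 1 - 1 / (p : ℝ) ^ σ ≤ σ * Real.log p := by
          have : (1 : ℝ) / (p : ℝ) ^ σ = Real.exp (-(σ * Real.log p)) := by
            rw [Real.rpow_def_of_pos hp0, Real.exp_neg, one_div, mul_comm]
          rw [this]
          have := Real.add_one_le_exp (-(σ * Real.log p))
          linarith
        have e3 : 1 + 2 * σ * (Real.log p / p) ≤ Real.exp (2 * σ * (Real.log p / p)) := by
          have := Real.add_one_le_exp (2 * σ * (Real.log p / p))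
          linarith
        have hq : 0 ≤ σ * (Real.log p / p) := by positivity
        calc 1 - 1 / (p : ℝ) ^ (1 + σ) = (1 - (1 : ℝ) / p) + (1 / p) * (1 - 1 / (p : ℝ) ^ σ) := e1
          _ ≤ (1 - (1 : ℝ) / p) + (1 / p) * (σ * Real.log p) := by gcongr
          _ = (1 - (1 : ℝ) / p) + σ * (Real.log p / p) := by ring
          _ ≤ (1 - (1 : ℝ) / p) * (1 + 2 * σ * (Real.log p / p)) := by nlinarith
          _ ≤ (1 - (1 : ℝ) / p) * Real.exp (2 * σ * (Real.log p / p)) := by gcongr
      calc (1 : ℝ) = (1 - 1 / (p : ℝ) ^ (1 + σ)) * (1 - 1 / (p : ℝ) ^ (1 + σ))⁻¹ :=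
            (mul_inv_cancel₀ hy.ne').symm
        _ ≤ ((1 - (1 : ℝ) / p) * Real.exp (2 * σ * (Real.log p / p))) *
              (1 - 1 / (p : ℝ) ^ (1 + σ))⁻¹ := by
            gcongr
        _ = Real.exp (2 * σ * (Real.log p / p)) * (1 - 1 / (p : ℝ) ^ (1 + σ))⁻¹ *
              (1 - (1 : ℝ) / p) := by ring
    have hsumlog := sum_log_div_le z (by omega)
    calc ∏ p ∈ (Finset.Icc 1 z).filter Nat.Prime, (1 - (1 : ℝ) / p)⁻¹
        ≤ ∏ p ∈ (Finset.Icc 1 z).filter Nat.Prime,
          (Real.exp (2 * σ * (Real.log p / p)) * (1 - 1 / (p : ℝ) ^ (1 + σ))⁻¹) := by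
          apply Finset.prod_le_prod
          · intro p hp
            exact zero_le_one.trans (hfac p (Finset.mem_filter.mp hp).2)
          · exact hcmp
      _ = Real.exp (2 * σ * ∑ p ∈ (Finset.Icc 1 z).filter Nat.Prime, Real.log p / p) *
          ∏ p ∈ (Finset.Icc 1 z).filter Nat.Prime, (1 - 1 / (p : ℝ) ^ (1 + σ))⁻¹ := by
          rw [Finset.prod_mul_distrib, ← Real.exp_sum, Finset.mul_sum]
      _ ≤ E * (2 * Real.log z) := by
          have hexp : Real.exp (2 * σ * ∑ p ∈ (Finset.Icc 1 z).filter Nat.Prime, Real.log p / p) ≤ E := by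
            rw [hE]
            apply Real.exp_le_exp.mpr
            have h1 : 2 * σ * ∑ p ∈ (Finset.Icc 1 z).filter Nat.Prime, Real.log p / p
                ≤ 2 * σ * (Real.log z + Real.log 4) := by gcongr
            have h2 : 2 * σ * (Real.log z + Real.log 4) = 2 * (1 + Real.log 4 / Real.log z) := by
              rw [hσ]; field_simp
            have h3 : Real.log 4 / Real.log z ≤ Real.log 4 / Real.log 2 := by
              have : 0 < Real.log 4 := Real.log_pos (by norm_num)
              gcongr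
            linarith
          have hprod0 : 0 ≤ ∏ p ∈ (Finset.Icc 1 z).filter Nat.Prime, (1 - 1 / (p : ℝ) ^ (1 + σ))⁻¹ := by
            apply Finset.prod_nonneg
            intro p hp
            have hp' := (Finset.mem_filter.mp hp).2
            have h2 : (2 : ℝ) ≤ p := by exact_mod_cast hp'.two_le
            have : 1 ≤ (p : ℝ) ^ (1 + σ) := Real.one_le_rpow (by linarith) (by linarith)
            rw [inv_nonneg, sub_nonneg, div_le_one (by linarith)]
            exact this
          exact mul_le_mul hexp (hP.trans hzeta) hprod0 hE0.le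
      _ = 2 * E * Real.log z := by ring
      _ ≤ (K / Real.log 2 + 2 * E) * Real.log z := by
          have : 0 ≤ K / Real.log 2 * Real.log z := by positivity
          nlinarith

end Pool.Agent.Lib.Sieve
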