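import Mathlib
import Pool.Agent.Lib.Sieve.Mertens

/-!
# Mertens' third theorem with the exact constant

`log z * ∏_{p ≤ z} (1 - 1/p) → exp (-γ)`.
-/

open Finset Filter Topology

namespace Pool.Agent.Lib.Sieve.Mertens3

/-- primes `< e ^ j` -/
noncomputable def PB (j : ℕ) : Finset ℕ := (range ⌈Real.exp j⌉₊).filter Nat.Prime

lemma mem_PB {j p : ℕ} : p ∈ PB j ↔ (p : ℝ) < Real.exp j ∧ p.Prime := by
  unfold PB
  rw [Finset.mem_filter, Finset.mem_range, Nat.lt_ceil]

lemma PB_mono {i j : ℕ} (h : i ≤ j) : PB i ⊆ PB j := by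
  intro p hp
  rw [mem_PB] at hp ⊢
  exact ⟨hp.1.trans_le (Real.exp_le_exp.mpr (by exact_mod_cast h)), hp.2⟩

/-- weighted sum of `log p / p` over primes `< e ^ j` -/
noncomputable def S (j : ℕ) : ℝ := ∑ p ∈ PB j, Real.log p / p

lemma log_factorial_ge (n : ℕ) (hn : 1 ≤ n) :
    n * Real.log n - n ≤ ∑ m ∈ Finset.Icc 1 n, Real.log m := by
  induction n, hn using Nat.le_induction with
  | base => simp
  | succ n hn ih =>
    rw [Finset.sum_Icc_succ_top (by omega)]
    have hnR : (1 : ℝ) ≤ n := by exact_mod_cast hn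
    have h1 : Real.log (1 + 1 / (n : ℝ)) ≤ 1 / n := by
      have := Real.log_le_sub_one_of_pos (show (0 : ℝ) < 1 + 1 / n by positivity)
      linarith
    have h2 : Real.log ((n + 1 : ℕ) : ℝ) = Real.log n + Real.log (1 + 1 / (n : ℝ)) := by
      rw [← Real.log_mul (by linarith) (by positivity)]
      congr 1
      push_cast
      field_simp
    have h3 : n * Real.log (1 + 1 / (n : ℝ)) ≤ 1 := by
      calc n * Real.log (1 + 1 / (n : ℝ)) ≤ n * (1 / n) :=
            mul_le_mul_of_nonneg_left h1 (by linarith)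
        _ = 1 := by field_simp
    rw [h2]
    push_cast
    nlinarith

open ArithmeticFunction in
lemma sum_log_le_vonMangoldt (n : ℕ) :
    ∑ m ∈ Finset.Icc 1 n, Real.log m ≤ n * ∑ d ∈ Finset.Icc 1 n, vonMangoldt d / d := by
  have h1 : ∀ m ∈ Finset.Icc 1 n, Real.log m = ∑ d ∈ Finset.Icc 1 n, if d ∣ m then vonMangoldt d else 0 := by
    intro m hm
    rw [Finset.mem_Icc] at hm
    rw [← vonMangoldt_sum, ← Finset.sum_filter]
    refine Finset.sum_congr ?_ fun _ _ => rfl
    ext d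
    rw [Nat.mem_divisors, Finset.mem_filter, Finset.mem_Icc]
    constructor
    · rintro ⟨h2, _⟩
      exact ⟨⟨Nat.pos_of_dvd_of_pos h2 hm.1, (Nat.le_of_dvd hm.1 h2).trans hm.2⟩, h2⟩
    · rintro ⟨_, h2⟩
      exact ⟨h2, by omega⟩
  rw [Finset.sum_congr rfl h1, Finset.sum_comm, Finset.mul_sum]
  refine Finset.sum_le_sum fun d hd => ?_
  rw [Finset.mem_Icc] at hd
  rw [← Finset.sum_filter, Finset.sum_const, nsmul_eq_mul]
  have h2 : ((Finset.Icc 1 n).filter (fun m => d ∣ m)).card = n / d := by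
    have h := Nat.Ioc_filter_dvd_card_eq_div n d
    have e : Finset.Icc 1 n = Finset.Ioc 0 n := by
      ext x; simp only [Finset.mem_Icc, Finset.mem_Ioc]; omega
    rw [e]; exact h
  rw [h2]
  have h3 : ((n / d : ℕ) : ℝ) ≤ (n : ℝ) / d := Nat.cast_div_le
  calc ((n / d : ℕ) : ℝ) * vonMangoldt d ≤ (n : ℝ) / d * vonMangoldt d :=
        mul_le_mul_of_nonneg_right h3 vonMangoldt_nonneg
    _ = _ := by ring

open ArithmeticFunction in
/-- Mertens' first theorem, lower bound -/
lemma mertens_one_lower : ∃ C : ℝ, ∀ n : ℕ, 1 ≤ n →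
    Real.log n - C ≤ ∑ p ∈ (Finset.Icc 1 n).filter Nat.Prime, Real.log p / p := by
  have hs := vonMangoldt.summable_residueClass_non_primes_div (q := 1) (0 : ZMod 1)
  set C₀ : ℝ := ∑' n : ℕ, (if n.Prime then 0 else vonMangoldt.residueClass (0 : ZMod 1) n) / n
  refine ⟨C₀ + 1, fun n hn => ?_⟩
  have hnR : (1 : ℝ) ≤ n := by exact_mod_cast hn
  have hres : ∀ n : ℕ, vonMangoldt.residueClass (0 : ZMod 1) n = vonMangoldt n := by
    intro n
    unfold vonMangoldt.residueClass
    rw [Set.indicator_apply, if_pos]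
    exact Subsingleton.elim _ _
  have h1 : ∑ d ∈ Finset.Icc 1 n, vonMangoldt d / d =
      ∑ p ∈ (Finset.Icc 1 n).filter Nat.Prime, Real.log p / p +
        ∑ d ∈ Finset.Icc 1 n, (if d.Prime then 0 else vonMangoldt.residueClass (0 : ZMod 1) d) / d := by
    rw [Finset.sum_filter, ← Finset.sum_add_distrib]
    refine Finset.sum_congr rfl fun d _ => ?_
    rw [hres]
    split_ifs with h
    · rw [vonMangoldt_apply_prime h]; ring
    · ring
  have h2 : ∑ d ∈ Finset.Icc 1 n, (if d.Prime then 0 else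
      vonMangoldt.residueClass (0 : ZMod 1) d) / (d : ℝ) ≤ C₀ := by
    refine hs.sum_le_tsum _ fun d _ => ?_
    apply div_nonneg _ (Nat.cast_nonneg d)
    split_ifs
    · exact le_rfl
    · exact vonMangoldt.residueClass_nonneg _ d
  have h3 := (log_factorial_ge n hn).trans (sum_log_le_vonMangoldt n)
  have h4 : (n : ℝ) * (Real.log n - 1) ≤ n * ∑ d ∈ Finset.Icc 1 n, vonMangoldt d / d := by
    calc (n : ℝ) * (Real.log n - 1) = n * Real.log n - n := by ring
      _ ≤ _ := h3
  have h5 := le_of_mul_le_mul_left h4 (by linarith)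
  linarith

lemma S_bound : ∃ C : ℝ, 0 < C ∧ ∀ j : ℕ, |S j - j| ≤ C := by
  obtain ⟨C, hC⟩ := mertens_one_lower
  refine ⟨|C| + 2, by positivity, fun j => ?_⟩
  rcases Nat.eq_zero_or_pos j with rfl | hj
  · have h0 : S 0 = 0 := by
      unfold S
      refine Finset.sum_eq_zero fun p hp => ?_
      rw [mem_PB] at hp
      exfalso
      have h1 : (2 : ℝ) ≤ p := by exact_mod_cast hp.2.two_le
      have h2 := hp.1
      rw [Nat.cast_zero, Real.exp_zero] at h2
      linarith
    rw [h0]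
    norm_num
    positivity
  · have hjR : (1 : ℝ) ≤ j := by exact_mod_cast hj
    set n : ℕ := ⌈Real.exp j⌉₊ - 1 with hn
    have hexp : (2 : ℝ) < Real.exp j := by
      have h1 := Real.exp_one_gt_d9
      have h2 : Real.exp 1 ≤ Real.exp j := Real.exp_le_exp.mpr hjR
      linarith
    have hceil : Real.exp j ≤ ⌈Real.exp j⌉₊ := Nat.le_ceil _
    have hceil2 : (⌈Real.exp j⌉₊ : ℝ) < Real.exp j + 1 := Nat.ceil_lt_add_one (Real.exp_pos _).le
    have hc3 : 3 ≤ ⌈Real.exp j⌉₊ := by
      have : (2 : ℝ) < ⌈Real.exp j⌉₊ := by linarith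
      exact_mod_cast this
    have hnR : (n : ℝ) = ⌈Real.exp j⌉₊ - 1 := by
      rw [hn, Nat.cast_sub (by omega)]
      simp
    have hn1 : 1 ≤ n := by omega
    have hset : PB j = (Finset.Icc 1 n).filter Nat.Prime := by
      ext p
      unfold PB
      rw [Finset.mem_filter, Finset.mem_filter, Finset.mem_range, Finset.mem_Icc]
      constructor
      · rintro ⟨h1, h2⟩
        exact ⟨⟨h2.one_le, by omega⟩, h2⟩
      · rintro ⟨⟨_, h1⟩, h2⟩
        exact ⟨by omega, h2⟩
    have hup := Pool.Agent.Lib.Sieve.sum_log_div_le n hn1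
    have hlo := hC n hn1
    unfold S
    rw [hset]
    have hlog4 : Real.log 4 ≤ 2 := by
      rw [show (4 : ℝ) = 2 ^ 2 by norm_num, Real.log_pow]
      have := Real.log_two_lt_d9
      push_cast
      linarith
    have hlogn1 : Real.log n ≤ j := by
      rw [Real.log_le_iff_le_exp (by exact_mod_cast hn1)]
      rw [hnR]
      linarith
    have hlogn2 : (j : ℝ) - 1 ≤ Real.log n := by
      rw [Real.le_log_iff_exp_le (by exact_mod_cast hn1), hnR]
      have h1 : Real.exp j = Real.exp (j - 1) * Real.exp 1 := by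
        rw [← Real.exp_add]; ring_nf
      have h2 := Real.exp_one_gt_d9
      have h3 : (1 : ℝ) ≤ Real.exp (j - 1) := Real.one_le_exp (by linarith)
      nlinarith
    rw [abs_le]
    have := neg_abs_le C
    have := le_abs_self C
    constructor <;> linarith

/-- comparison of a sum over primes with a sum over integers -/
lemma comp {C : ℝ} (hC : ∀ j : ℕ, |S j - j| ≤ C) {h : ℕ → ℝ} (hanti : Antitone h)
    (h0 : ∀ j, 0 ≤ h j) {g : ℕ → ℝ} {a b : ℕ} (hab : a ≤ b)
    (hg : ∀ j, a ≤ j → j < b → ∀ p ∈ PB (j + 1) \ PB j, h (j + 1) ≤ g p ∧ g p ≤ h j) :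
    |∑ p ∈ PB b \ PB a, Real.log p / p * g p - ∑ j ∈ Finset.Ico a b, h (j + 1)| ≤
      (2 * C + 1) * h a := by
  have hC0 : 0 ≤ C := (abs_nonneg _).trans (hC 0)
  have hw : ∀ p : ℕ, 0 ≤ Real.log p / p := fun p =>
    div_nonneg (Real.log_natCast_nonneg p) (Nat.cast_nonneg p)
  -- the two-sided bound by block sums
  have key : ∀ b, a ≤ b → (∀ j, a ≤ j → j < b → ∀ p ∈ PB (j + 1) \ PB j,
      h (j + 1) ≤ g p ∧ g p ≤ h j) →
      ∑ j ∈ Finset.Ico a b, (S (j + 1) - S j) * h (j + 1) ≤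
        ∑ p ∈ PB b \ PB a, Real.log p / p * g p ∧
      ∑ p ∈ PB b \ PB a, Real.log p / p * g p ≤
        ∑ j ∈ Finset.Ico a b, (S (j + 1) - S j) * h j ∧
      |∑ j ∈ Finset.Ico a b, ((S (j + 1) - S j) * h j - h j) -
        ((S b - b) * h b - (S a - a) * h a)| ≤ C * (h a - h b) ∧
      |∑ j ∈ Finset.Ico a b, ((S (j + 1) - S j) * h (j + 1) - h (j + 1)) -
        ((S b - b) * h (b + 1) - (S a - a) * h (a + 1))| ≤ C * (h (a + 1) - h (b + 1)) ∧
      ∑ j ∈ Finset.Ico a b, h j - ∑ j ∈ Finset.Ico a b, h (j + 1) = h a - h b := by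
    intro b hb
    induction b, hb using Nat.le_induction with
    | base =>
      intro _
      simp
    | succ b hb ih =>
      intro hg
      obtain ⟨i1, i2, i3, i4, i5⟩ := ih (fun j h1 h2 => hg j h1 (by omega))
      have hgb := hg b hb (by omega)
      have hsplit : ∑ p ∈ PB (b + 1) \ PB a, Real.log p / p * g p =
          ∑ p ∈ PB b \ PB a, Real.log p / p * g p +
            ∑ p ∈ PB (b + 1) \ PB b, Real.log p / p * g p := by
        rw [← Finset.sum_union]
        · congr 1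
          ext p
          simp only [Finset.mem_union, Finset.mem_sdiff]
          have h1 := @PB_mono a b hb p
          have h2 := @PB_mono b (b + 1) (by omega) p
          tauto
        · rw [Finset.disjoint_left]
          intro p hp hp'
          rw [Finset.mem_sdiff] at hp hp'
          exact hp'.2 hp.1
      have hS : S (b + 1) - S b = ∑ p ∈ PB (b + 1) \ PB b, Real.log p / p := by
        unfold S
        rw [← Finset.sum_sdiff (PB_mono (show b ≤ b + 1 by omega))]
        ring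
      have hlow : (S (b + 1) - S b) * h (b + 1) ≤
          ∑ p ∈ PB (b + 1) \ PB b, Real.log p / p * g p := by
        rw [hS, Finset.sum_mul]
        exact Finset.sum_le_sum fun p hp => mul_le_mul_of_nonneg_left (hgb p hp).1 (hw p)
      have hupp : ∑ p ∈ PB (b + 1) \ PB b, Real.log p / p * g p ≤ (S (b + 1) - S b) * h b := by
        rw [hS, Finset.sum_mul]
        exact Finset.sum_le_sum fun p hp => mul_le_mul_of_nonneg_left (hgb p hp).2 (hw p)
      have hb1 := hC (b + 1)
      have hmono1 : 0 ≤ h b - h (b + 1) := sub_nonneg.mpr (hanti (by omega))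
      have hmono2 : 0 ≤ h (b + 1) - h (b + 1 + 1) := sub_nonneg.mpr (hanti (by omega))
      refine ⟨?_, ?_, ?_, ?_, ?_⟩
      · rw [Finset.sum_Ico_succ_top hb, hsplit]
        linarith
      · rw [Finset.sum_Ico_succ_top hb, hsplit]
        linarith
      · rw [Finset.sum_Ico_succ_top hb]
        have e1 : ∑ j ∈ Finset.Ico a b, ((S (j + 1) - S j) * h j - h j) +
            ((S (b + 1) - S b) * h b - h b) -
            ((S (b + 1) - (b + 1 : ℕ)) * h (b + 1) - (S a - a) * h a) =
            (∑ j ∈ Finset.Ico a b, ((S (j + 1) - S j) * h j - h j) -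
              ((S b - b) * h b - (S a - a) * h a)) +
            (S (b + 1) - (b + 1 : ℕ)) * (h b - h (b + 1)) := by
          push_cast
          ring
        rw [e1]
        refine (abs_add_le _ _).trans ?_
        rw [abs_mul, abs_of_nonneg hmono1]
        have := mul_le_mul_of_nonneg_right hb1 hmono1
        linarith
      · rw [Finset.sum_Ico_succ_top hb]
        have e1 : ∑ j ∈ Finset.Ico a b, ((S (j + 1) - S j) * h (j + 1) - h (j + 1)) +
            ((S (b + 1) - S b) * h (b + 1) - h (b + 1)) -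
            ((S (b + 1) - (b + 1 : ℕ)) * h (b + 1 + 1) - (S a - a) * h (a + 1)) =
            (∑ j ∈ Finset.Ico a b, ((S (j + 1) - S j) * h (j + 1) - h (j + 1)) -
              ((S b - b) * h (b + 1) - (S a - a) * h (a + 1))) +
            (S (b + 1) - (b + 1 : ℕ)) * (h (b + 1) - h (b + 1 + 1)) := by
          push_cast
          ring
        rw [e1]
        refine (abs_add_le _ _).trans ?_
        rw [abs_mul, abs_of_nonneg hmono2]
        have := mul_le_mul_of_nonneg_right hb1 hmono2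
        linarith
      · rw [Finset.sum_Ico_succ_top hb, Finset.sum_Ico_succ_top hb]
        linarith
  obtain ⟨k1, k2, k3, k4, k5⟩ := key b hab hg
  rw [Finset.sum_sub_distrib] at k3 k4
  have hCa := abs_le.mp (hC a)
  have hCb := abs_le.mp (hC b)
  have ha0 := h0 a
  have hb0 := h0 b
  have ha1 := h0 (a + 1)
  have hb1 := h0 (b + 1)
  have hba : h b ≤ h a := hanti hab
  have haa : h (a + 1) ≤ h a := hanti (by omega)
  have hbb : h (b + 1) ≤ h (a + 1) := hanti (by omega)
  rw [abs_le] at k3 k4 ⊢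
  have e1 : |(S b - b) * h b| ≤ C * h b := by
    rw [abs_mul, abs_of_nonneg hb0]; exact mul_le_mul_of_nonneg_right (hC b) hb0
  have e2 : |(S a - a) * h a| ≤ C * h a := by
    rw [abs_mul, abs_of_nonneg ha0]; exact mul_le_mul_of_nonneg_right (hC a) ha0
  have e3 : |(S b - b) * h (b + 1)| ≤ C * h (b + 1) := by
    rw [abs_mul, abs_of_nonneg hb1]; exact mul_le_mul_of_nonneg_right (hC b) hb1
  have e4 : |(S a - a) * h (a + 1)| ≤ C * h (a + 1) := by
    rw [abs_mul, abs_of_nonneg ha1]; exact mul_le_mul_of_nonneg_right (hC a) ha1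
  rw [abs_le] at e1 e2 e3 e4
  have m1 : C * h b ≤ C * h a := mul_le_mul_of_nonneg_left hba hC0
  have m2 : C * h (a + 1) ≤ C * h a := mul_le_mul_of_nonneg_left haa hC0
  have m3 : C * h (b + 1) ≤ C * h (a + 1) := mul_le_mul_of_nonneg_left hbb hC0
  have m4 : 0 ≤ C * h b := mul_nonneg hC0 hb0
  have m5 : 0 ≤ C * h (b + 1) := mul_nonneg hC0 hb1
  constructor <;> linarith

/-! ### the two comparison functions -/

lemma phi_anti {m : ℕ} (hm : 0 < m) {u v : ℝ} (hu : 0 < u) (huv : u ≤ v) :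
    (1 - Real.exp (-v / m)) / v ≤ (1 - Real.exp (-u / m)) / u := by
  have hv : 0 < v := hu.trans_le huv
  have hmR : (0 : ℝ) < m := by exact_mod_cast hm
  rw [div_le_div_iff₀ hv hu]
  have hc := convexOn_exp.2 (Set.mem_univ (0 : ℝ)) (Set.mem_univ (-v / m))
    (show 0 ≤ 1 - u / v by rw [sub_nonneg, div_le_one hv]; exact huv)
    (show 0 ≤ u / v by positivity) (by ring)
  simp only [smul_eq_mul, mul_zero, zero_add, Real.exp_zero, mul_one] at hc
  have h1 : u / v * (-v / m) = -u / m := by field_simp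
  rw [h1] at hc
  have h2 : v * Real.exp (-u / m) ≤ v * (1 - u / v + u / v * Real.exp (-v / m)) :=
    mul_le_mul_of_nonneg_left hc hv.le
  have h3 : v * (1 - u / v + u / v * Real.exp (-v / m)) = v - u + u * Real.exp (-v / m) := by
    field_simp
  rw [h3] at h2
  linarith

lemma phi_le {m : ℕ} (hm : 0 < m) {u : ℝ} (hu : 0 < u) :
    (1 - Real.exp (-u / m)) / u ≤ 1 / m := by
  have hmR : (0 : ℝ) < m := by exact_mod_cast hm
  rw [div_le_iff₀ hu]
  have := Real.add_one_le_exp (-u / m)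
  have h2 : 1 / (m : ℝ) * u = -(-u / m) := by ring
  rw [h2]
  linarith

noncomputable def h1 (m j : ℕ) : ℝ := if j = 0 then 1 / m else (1 - Real.exp (-(j : ℝ) / m)) / j

noncomputable def h2 (m j : ℕ) : ℝ := Real.exp (-(j : ℝ) / m) / (max j 1 : ℕ)

lemma h1_nonneg (m j : ℕ) : 0 ≤ h1 m j := by
  unfold h1
  split_ifs
  · positivity
  · apply div_nonneg _ (Nat.cast_nonneg j)
    rw [sub_nonneg, Real.exp_le_one_iff]
    have : 0 ≤ (j : ℝ) / m := by positivity
    rw [neg_div]
    linarith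

lemma h1_anti {m : ℕ} (hm : 0 < m) : Antitone (h1 m) := by
  intro i j hij
  unfold h1
  rcases Nat.eq_zero_or_pos i with rfl | hi
  · rcases Nat.eq_zero_or_pos j with rfl | hj
    · exact le_rfl
    · rw [if_pos rfl, if_neg (by omega)]
      exact phi_le hm (by exact_mod_cast hj)
  · rw [if_neg (by omega), if_neg (by omega)]
    exact phi_anti hm (by exact_mod_cast hi) (by exact_mod_cast hij)

lemma h2_nonneg (m j : ℕ) : 0 ≤ h2 m j := by
  unfold h2
  positivity

lemma h2_anti (m : ℕ) : Antitone (h2 m) := by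
  intro i j hij
  unfold h2
  have h3 : (1 : ℝ) ≤ (max i 1 : ℕ) := by exact_mod_cast le_max_right _ _
  have h4 : ((max i 1 : ℕ) : ℝ) ≤ (max j 1 : ℕ) := by
    exact_mod_cast max_le_max hij le_rfl
  have h5 : Real.exp (-(j : ℝ) / m) ≤ Real.exp (-(i : ℝ) / m) := by
    apply Real.exp_le_exp.mpr
    apply div_le_div_of_nonneg_right _ (Nat.cast_nonneg m)
    have : (i : ℝ) ≤ j := by exact_mod_cast hij
    linarith
  exact div_le_div₀ (Real.exp_pos _).le h5 (by linarith) h4

lemma mem_diff {j p : ℕ} (hp : p ∈ PB (j + 1) \ PB j) :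
    p.Prime ∧ (j : ℝ) ≤ Real.log p ∧ Real.log p < j + 1 := by
  rw [Finset.mem_sdiff, mem_PB, mem_PB] at hp
  obtain ⟨⟨h1, h2⟩, h3⟩ := hp
  have hp0 : (0 : ℝ) < p := by exact_mod_cast h2.pos
  refine ⟨h2, ?_, ?_⟩
  · rw [Real.le_log_iff_exp_le hp0]
    by_contra h
    push Not at h
    exact h3 ⟨h, h2⟩
  · rw [Real.log_lt_iff_lt_exp hp0]
    push_cast at h1
    exact h1

/-- the truncated difference -/
noncomputable def T (m J : ℕ) : ℝ :=
  ∑ p ∈ PB m, (1 / (p : ℝ)) * (1 - (p : ℝ) ^ (-(1 / m) : ℝ)) -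
    ∑ p ∈ PB J \ PB m, (1 / (p : ℝ)) * (p : ℝ) ^ (-(1 / m) : ℝ)

lemma T_approx {C : ℝ} (hC : ∀ j : ℕ, |S j - j| ≤ C) {m J : ℕ} (hm : 0 < m) (hJ : m ≤ J) :
    |T m J - (∑ j ∈ range m, 1 / ((j : ℝ) + 1) -
      ∑ j ∈ range J, (Real.exp (-(1 : ℝ) / m)) ^ (j + 1) / ((j : ℝ) + 1))| ≤
      2 * (2 * C + 1) / m := by
  have hmR : (0 : ℝ) < m := by exact_mod_cast hm
  have hC0 : 0 ≤ C := (abs_nonneg _).trans (hC 0)
  have hrpow : ∀ p : ℕ, 0 < p → (p : ℝ) ^ (-(1 / m) : ℝ) = Real.exp (-Real.log p / m) := by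
    intro p hp
    rw [Real.rpow_def_of_pos (by exact_mod_cast hp)]
    congr 1
    ring
  have c1 := comp hC (h1_anti hm) (h1_nonneg m)
    (g := fun p => (1 - Real.exp (-Real.log p / m)) / Real.log p) (Nat.zero_le m) (by
      intro j _ _ p hp
      obtain ⟨hpp, hl1, hl2⟩ := mem_diff hp
      have hlog : 0 < Real.log p := Real.log_pos (by exact_mod_cast hpp.one_lt)
      constructor
      · unfold h1
        rw [if_neg (by omega)]
        exact phi_anti hm hlog (by push_cast; exact hl2.le)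
      · unfold h1
        rcases Nat.eq_zero_or_pos j with rfl | hj
        · rw [if_pos rfl]
          exact phi_le hm hlog
        · rw [if_neg (by omega)]
          exact phi_anti hm (by exact_mod_cast hj) hl1)
  have c2 := comp hC (h2_anti m) (h2_nonneg m)
    (g := fun p => Real.exp (-Real.log p / m) / Real.log p) hJ (by
      intro j hj _ p hp
      obtain ⟨hpp, hl1, hl2⟩ := mem_diff hp
      have hlog : 0 < Real.log p := Real.log_pos (by exact_mod_cast hpp.one_lt)
      have hj1 : 1 ≤ j := by omega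
      have hjR : (1 : ℝ) ≤ j := by exact_mod_cast hj1
      constructor
      · unfold h2
        rw [Nat.max_eq_left (by omega)]
        apply div_le_div₀ (Real.exp_pos _).le _ hlog
        · push_cast; exact hl2.le
        · apply Real.exp_le_exp.mpr
          apply div_le_div_of_nonneg_right _ hmR.le
          push_cast
          linarith
      · unfold h2
        rw [Nat.max_eq_left hj1]
        apply div_le_div₀ (Real.exp_pos _).le _ (by linarith) hl1
        apply Real.exp_le_exp.mpr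
        apply div_le_div_of_nonneg_right _ hmR.le
        linarith)
  have hPB0 : PB 0 = ∅ := by
    rw [Finset.eq_empty_iff_forall_notMem]
    intro p hp
    rw [mem_PB] at hp
    have h1 : (2 : ℝ) ≤ p := by exact_mod_cast hp.2.two_le
    have h2 := hp.1
    rw [Nat.cast_zero, Real.exp_zero] at h2
    linarith
  rw [hPB0, Finset.sdiff_empty] at c1
  have e1 : ∑ p ∈ PB m, Real.log p / p * ((1 - Real.exp (-Real.log p / m)) / Real.log p) =
      ∑ p ∈ PB m, (1 / (p : ℝ)) * (1 - (p : ℝ) ^ (-(1 / m) : ℝ)) := by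
    refine Finset.sum_congr rfl fun p hp => ?_
    have hpp := (mem_PB.mp hp).2
    have hlog : 0 < Real.log p := Real.log_pos (by exact_mod_cast hpp.one_lt)
    have hp0 : (0 : ℝ) < p := by exact_mod_cast hpp.pos
    rw [hrpow p hpp.pos]
    field_simp
  have e2 : ∑ p ∈ PB J \ PB m, Real.log p / p * (Real.exp (-Real.log p / m) / Real.log p) =
      ∑ p ∈ PB J \ PB m, (1 / (p : ℝ)) * (p : ℝ) ^ (-(1 / m) : ℝ) := by
    refine Finset.sum_congr rfl fun p hp => ?_
    have hpp := (mem_PB.mp (Finset.mem_sdiff.mp hp).1).2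
    have hlog : 0 < Real.log p := Real.log_pos (by exact_mod_cast hpp.one_lt)
    have hp0 : (0 : ℝ) < p := by exact_mod_cast hpp.pos
    rw [hrpow p hpp.pos]
    field_simp
  rw [e1] at c1
  rw [e2] at c2
  have e3 : ∑ j ∈ Finset.Ico 0 m, h1 m (j + 1) - ∑ j ∈ Finset.Ico m J, h2 m (j + 1) =
      ∑ j ∈ range m, 1 / ((j : ℝ) + 1) -
      ∑ j ∈ range J, (Real.exp (-(1 : ℝ) / m)) ^ (j + 1) / ((j : ℝ) + 1) := by
    have e4 : ∀ j : ℕ, Real.exp (-((j + 1 : ℕ) : ℝ) / m) = (Real.exp (-(1 : ℝ) / m)) ^ (j + 1) := by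
      intro j
      rw [← Real.exp_nat_mul]
      congr 1
      ring
    have e5 : ∑ j ∈ range J, (Real.exp (-(1 : ℝ) / m)) ^ (j + 1) / ((j : ℝ) + 1) =
        ∑ j ∈ range m, (Real.exp (-(1 : ℝ) / m)) ^ (j + 1) / ((j : ℝ) + 1) +
        ∑ j ∈ Finset.Ico m J, (Real.exp (-(1 : ℝ) / m)) ^ (j + 1) / ((j : ℝ) + 1) :=
      (Finset.sum_range_add_sum_Ico _ hJ).symm
    have e6 : ∑ j ∈ Finset.Ico 0 m, h1 m (j + 1) = ∑ j ∈ range m, 1 / ((j : ℝ) + 1) -
        ∑ j ∈ range m, (Real.exp (-(1 : ℝ) / m)) ^ (j + 1) / ((j : ℝ) + 1) := by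
      rw [← Finset.range_eq_Ico, ← Finset.sum_sub_distrib]
      refine Finset.sum_congr rfl fun j _ => ?_
      unfold h1
      rw [if_neg (by omega), e4]
      push_cast
      ring
    have e7 : ∑ j ∈ Finset.Ico m J, h2 m (j + 1) =
        ∑ j ∈ Finset.Ico m J, (Real.exp (-(1 : ℝ) / m)) ^ (j + 1) / ((j : ℝ) + 1) := by
      refine Finset.sum_congr rfl fun j _ => ?_
      unfold h2
      rw [Nat.max_eq_left (by omega), e4]
      push_cast
      ring
    rw [e5, e6, e7]
    ring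
  rw [← e3]
  have hh1 : h1 m 0 = 1 / m := by unfold h1; rw [if_pos rfl]
  have hh2 : h2 m m ≤ 1 / m := by
    unfold h2
    rw [Nat.max_eq_left hm]
    apply div_le_div_of_nonneg_right _ hmR.le
    rw [Real.exp_le_one_iff]
    have : (0 : ℝ) ≤ (m : ℝ) / m := by positivity
    rw [neg_div]
    linarith
  rw [hh1] at c1
  have c2' := c2.trans (mul_le_mul_of_nonneg_left hh2 (by linarith))
  unfold T
  rw [abs_le] at c1 c2' ⊢
  have e8 : 2 * (2 * C + 1) / (m : ℝ) = (2 * C + 1) * (1 / m) + (2 * C + 1) * (1 / m) := by ring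
  rw [e8]
  constructor <;> linarith

/-! ### the zeta side -/

noncomputable def rho (x : ℝ) : ℝ := -Real.log (1 - x) - x

lemma rho_nonneg {x : ℝ} (h0 : 0 ≤ x) (h1 : x ≤ 1 / 2) : 0 ≤ rho x := by
  unfold rho
  have := Real.log_le_sub_one_of_pos (show (0 : ℝ) < 1 - x by linarith)
  linarith

lemma rho_le {x : ℝ} (h0 : 0 ≤ x) (h1 : x ≤ 1 / 2) : rho x ≤ 2 * x ^ 2 := by
  have h := Real.abs_log_sub_add_sum_range_le (x := x) (by rw [abs_of_nonneg h0]; linarith) 1
  rw [abs_of_nonneg h0] at h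
  simp only [Finset.sum_range_one, Nat.cast_zero, zero_add, div_one, pow_one, Nat.reduceAdd] at h
  have h2 := (abs_le.mp h).1
  have h3 : x ^ 2 / (1 - x) ≤ 2 * x ^ 2 := by
    rw [div_le_iff₀ (by linarith)]
    nlinarith [sq_nonneg x]
  unfold rho
  linarith

/-- `rho (p ^ (-s))` on primes -/
noncomputable def r (s : ℝ) (n : ℕ) : ℝ := if n.Prime then rho ((n : ℝ) ^ (-s)) else 0

lemma rpow_le_inv {s : ℝ} (hs : 1 ≤ s) {n : ℕ} (hn : 1 ≤ n) : (n : ℝ) ^ (-s) ≤ 1 / n := by
  have h1 : (1 : ℝ) ≤ n := by exact_mod_cast hn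
  rw [one_div, ← Real.rpow_neg_one]
  exact Real.rpow_le_rpow_of_exponent_le h1 (by linarith)

lemma r_nonneg {s : ℝ} (hs : 1 ≤ s) (n : ℕ) : 0 ≤ r s n := by
  unfold r
  split_ifs with h
  · apply rho_nonneg (Real.rpow_nonneg (Nat.cast_nonneg n) _)
    refine (rpow_le_inv hs h.one_le).trans ?_
    apply one_div_le_one_div_of_le (by norm_num)
    exact_mod_cast h.two_le
  · exact le_rfl

lemma r_le {s : ℝ} (hs : 1 ≤ s) (n : ℕ) : r s n ≤ 2 * (1 / (n : ℝ) ^ 2) := by
  unfold r
  split_ifs with h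
  · have h1 := rpow_le_inv hs h.one_le
    have h0 := Real.rpow_nonneg (Nat.cast_nonneg (α := ℝ) n) (-s)
    have h2 : (1 : ℝ) / n ≤ 1 / 2 := by
      apply one_div_le_one_div_of_le (by norm_num)
      exact_mod_cast h.two_le
    refine (rho_le h0 (h1.trans h2)).trans ?_
    have h3 : ((n : ℝ) ^ (-s)) ^ 2 ≤ (1 / (n : ℝ)) ^ 2 := pow_le_pow_left₀ h0 h1 2
    rw [one_div_pow] at h3
    linarith
  · positivity

lemma summable_bound : Summable fun n : ℕ => 2 * (1 / (n : ℝ) ^ 2) :=
  (Real.summable_one_div_nat_pow.mpr (by norm_num)).mul_left 2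

lemma summable_r {s : ℝ} (hs : 1 ≤ s) : Summable (r s) :=
  Summable.of_nonneg_of_le (r_nonneg hs) (r_le hs) summable_bound

lemma tendsto_ceil_exp : Tendsto (fun J : ℕ => ⌈Real.exp (J : ℝ)⌉₊) atTop atTop :=
  tendsto_nat_ceil_atTop.comp (Real.tendsto_exp_atTop.comp tendsto_natCast_atTop_atTop)

lemma sum_r_PB {s : ℝ} (hs : 1 ≤ s) :
    Tendsto (fun J : ℕ => ∑ p ∈ PB J, r s p) atTop (𝓝 (∑' n, r s n)) := by
  have h1 := (summable_r hs).hasSum.tendsto_sum_nat
  have h2 := h1.comp tendsto_ceil_exp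
  refine h2.congr fun J => ?_
  simp only [Function.comp]
  unfold PB
  rw [Finset.sum_filter]
  refine Finset.sum_congr rfl fun n _ => ?_
  unfold r
  split_ifs <;> rfl

lemma zeta_PB {s : ℝ} (hs : 1 < s) :
    Tendsto (fun J : ℕ => ∑ p ∈ PB J, -Real.log (1 - (p : ℝ) ^ (-s))) atTop
      (𝓝 (Real.log (∑' n : ℕ, 1 / (n : ℝ) ^ s))) := by
  set f : ℕ →*₀ ℝ :=
    { toFun := fun m => 1 / (m : ℝ) ^ s
      map_zero' := by simp [Real.zero_rpow (by linarith : s ≠ 0)]
      map_one' := by simp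
      map_mul' := fun a b => by
        push_cast
        rw [Real.mul_rpow (Nat.cast_nonneg a) (Nat.cast_nonneg b), one_div_mul_one_div] } with hf
  have hsum : Summable (fun n => ‖f n‖) := by
    have h1 := Real.summable_one_div_nat_rpow.mpr hs
    refine h1.congr fun n => ?_
    change 1 / (n : ℝ) ^ s = ‖1 / (n : ℝ) ^ s‖
    rw [Real.norm_of_nonneg (by positivity)]
  have h1 := (EulerProduct.eulerProduct_completely_multiplicative hsum).comp tendsto_ceil_exp
  have hpos : (0 : ℝ) < ∑' n : ℕ, 1 / (n : ℝ) ^ s := by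
    have h2 := Real.summable_one_div_nat_rpow.mpr hs
    refine h2.tsum_pos (fun n => by positivity) 1 ?_
    simp
  have h2 := (Real.continuousAt_log hpos.ne').tendsto.comp h1
  refine h2.congr fun J => ?_
  simp only [Function.comp]
  have hset : Nat.primesBelow ⌈Real.exp (J : ℝ)⌉₊ = PB J := rfl
  rw [hset, Real.log_prod]
  · refine Finset.sum_congr rfl fun p hp => ?_
    have hpp := (mem_PB.mp hp).2
    change Real.log (1 - 1 / (p : ℝ) ^ s)⁻¹ = _
    rw [Real.log_inv, Real.rpow_neg (Nat.cast_nonneg p), one_div]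
  · intro p hp
    have hpp := (mem_PB.mp hp).2
    change (1 - 1 / (p : ℝ) ^ s)⁻¹ ≠ 0
    apply inv_ne_zero
    have h3 : (1 : ℝ) < (p : ℝ) ^ s :=
      Real.one_lt_rpow (by exact_mod_cast hpp.one_lt) (by linarith)
    have h4 : 1 / (p : ℝ) ^ s < 1 := by
      rw [div_lt_one (by linarith)]; exact h3
    linarith

/-- `-log` of the Mertens product over primes `< e ^ m` -/
noncomputable def A (m : ℕ) : ℝ := ∑ p ∈ PB m, -Real.log (1 - 1 / (p : ℝ))

lemma A_mono : Monotone A := by
  intro i j hij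
  unfold A
  refine Finset.sum_le_sum_of_subset_of_nonneg (PB_mono hij) fun p hp _ => ?_
  have hpp := (mem_PB.mp hp).2
  have h2 : (1 : ℝ) / p ≤ 1 / 2 := by
    apply one_div_le_one_div_of_le (by norm_num)
    exact_mod_cast hpp.two_le
  have h3 : (0 : ℝ) ≤ 1 / p := by positivity
  have := Real.log_nonpos (show (0 : ℝ) ≤ 1 - 1 / p by linarith) (by linarith)
  linarith

lemma split_identity {m J : ℕ} (hm : 0 < m) (hJ : m ≤ J) :
    A m - ∑ p ∈ PB J, -Real.log (1 - (p : ℝ) ^ (-(1 + 1 / m) : ℝ)) =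
      T m J + ∑ p ∈ PB m, r 1 p - ∑ p ∈ PB J, r (1 + 1 / m) p := by
  have hr1 : ∑ p ∈ PB m, r 1 p = ∑ p ∈ PB m, (-Real.log (1 - 1 / (p : ℝ)) - 1 / p) := by
    refine Finset.sum_congr rfl fun p hp => ?_
    have hpp := (mem_PB.mp hp).2
    unfold r rho
    rw [if_pos hpp, Real.rpow_neg_one, one_div]
  have hr2 : ∑ p ∈ PB J, r (1 + 1 / m) p = ∑ p ∈ PB J,
      (-Real.log (1 - (p : ℝ) ^ (-(1 + 1 / m) : ℝ)) - (1 / p) * (p : ℝ) ^ (-(1 / m) : ℝ)) := by
    refine Finset.sum_congr rfl fun p hp => ?_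
    have hpp := (mem_PB.mp hp).2
    have hp0 : (0 : ℝ) < p := by exact_mod_cast hpp.pos
    unfold r rho
    rw [if_pos hpp]
    congr 1
    rw [neg_add, Real.rpow_add hp0, Real.rpow_neg_one, one_div (p : ℝ)]
  have hsplit : ∑ p ∈ PB J, (1 / (p : ℝ)) * (p : ℝ) ^ (-(1 / m) : ℝ) =
      ∑ p ∈ PB J \ PB m, (1 / (p : ℝ)) * (p : ℝ) ^ (-(1 / m) : ℝ) +
      ∑ p ∈ PB m, (1 / (p : ℝ)) * (p : ℝ) ^ (-(1 / m) : ℝ) :=
    (Finset.sum_sdiff (PB_mono hJ)).symm
  have hT : ∑ p ∈ PB m, (1 / (p : ℝ)) * (1 - (p : ℝ) ^ (-(1 / m) : ℝ)) =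
      ∑ p ∈ PB m, 1 / (p : ℝ) - ∑ p ∈ PB m, (1 / (p : ℝ)) * (p : ℝ) ^ (-(1 / m) : ℝ) := by
    rw [← Finset.sum_sub_distrib]
    exact Finset.sum_congr rfl fun p _ => by ring
  rw [hr1, hr2]
  unfold A T
  rw [hT, Finset.sum_sub_distrib, Finset.sum_sub_distrib, hsplit]
  ring

lemma approx {C : ℝ} (hC : ∀ j : ℕ, |S j - j| ≤ C) {m : ℕ} (hm : 0 < m) :
    |A m - Real.log (∑' n : ℕ, 1 / (n : ℝ) ^ (1 + 1 / m : ℝ)) -
      (∑ j ∈ range m, 1 / ((j : ℝ) + 1) + Real.log (1 - Real.exp (-(1 : ℝ) / m))) -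
      ∑ p ∈ PB m, r 1 p + ∑' n, r (1 + 1 / m) n| ≤ 2 * (2 * C + 1) / m := by
  have hmR : (0 : ℝ) < m := by exact_mod_cast hm
  have hs : (1 : ℝ) < 1 + 1 / m := by
    have : (0 : ℝ) < 1 / m := by positivity
    linarith
  have hx : |Real.exp (-(1 : ℝ) / m)| < 1 := by
    rw [abs_of_pos (Real.exp_pos _), Real.exp_lt_one_iff]
    rw [neg_div]
    have : (0 : ℝ) < 1 / m := by positivity
    linarith
  have l1 := zeta_PB hs
  have l2 := sum_r_PB hs.le
  have l3 := (Real.hasSum_pow_div_log_of_abs_lt_one hx).tendsto_sum_nat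
  have hlim : Tendsto (fun J : ℕ => |(A m - ∑ p ∈ PB J,
        -Real.log (1 - (p : ℝ) ^ (-(1 + 1 / m) : ℝ))) - ∑ p ∈ PB m, r 1 p +
        ∑ p ∈ PB J, r (1 + 1 / m) p - (∑ j ∈ range m, 1 / ((j : ℝ) + 1) -
        ∑ j ∈ range J, (Real.exp (-(1 : ℝ) / m)) ^ (j + 1) / ((j : ℝ) + 1))|) atTop
      (𝓝 |(A m - Real.log (∑' n : ℕ, 1 / (n : ℝ) ^ (1 + 1 / m : ℝ))) - ∑ p ∈ PB m, r 1 p +
        ∑' n, r (1 + 1 / m) n - (∑ j ∈ range m, 1 / ((j : ℝ) + 1) -
        -Real.log (1 - Real.exp (-(1 : ℝ) / m)))|) := by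
    apply Tendsto.abs
    apply Tendsto.sub
    · exact ((tendsto_const_nhds.sub l1).sub tendsto_const_nhds).add l2
    · exact tendsto_const_nhds.sub l3
  have hle : |(A m - Real.log (∑' n : ℕ, 1 / (n : ℝ) ^ (1 + 1 / m : ℝ))) - ∑ p ∈ PB m, r 1 p +
        ∑' n, r (1 + 1 / m) n - (∑ j ∈ range m, 1 / ((j : ℝ) + 1) -
        -Real.log (1 - Real.exp (-(1 : ℝ) / m)))| ≤ 2 * (2 * C + 1) / m := by
    refine le_of_tendsto hlim ?_
    filter_upwards [eventually_ge_atTop m] with J hJ
    have h1 := T_approx hC hm hJ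
    have h2 := split_identity hm hJ
    rw [h2]
    have h3 : T m J + ∑ p ∈ PB m, r 1 p - ∑ p ∈ PB J, r (1 + 1 / m) p - ∑ p ∈ PB m, r 1 p +
        ∑ p ∈ PB J, r (1 + 1 / m) p - (∑ j ∈ range m, 1 / ((j : ℝ) + 1) -
        ∑ j ∈ range J, (Real.exp (-(1 : ℝ) / m)) ^ (j + 1) / ((j : ℝ) + 1)) =
        T m J - (∑ j ∈ range m, 1 / ((j : ℝ) + 1) -
        ∑ j ∈ range J, (Real.exp (-(1 : ℝ) / m)) ^ (j + 1) / ((j : ℝ) + 1)) := by ring
    rw [h3]
    exact h1
  refine le_trans (le_of_eq ?_) hle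
  congr 1
  ring

lemma tendsto_inv_nat : Tendsto (fun m : ℕ => (1 : ℝ) / m) atTop (𝓝 0) :=
  tendsto_one_div_atTop_nhds_zero_nat

/-- `A m - log m → γ` -/
theorem tendsto_A : Tendsto (fun m : ℕ => A m - Real.log m) atTop
    (𝓝 Real.eulerMascheroniConstant) := by
  obtain ⟨C, _, hC⟩ := S_bound
  -- the pieces
  have p1 : Tendsto (fun m : ℕ => ∑ j ∈ range m, 1 / ((j : ℝ) + 1) - Real.log m) atTop
      (𝓝 Real.eulerMascheroniConstant) := by
    have := Real.tendsto_harmonic_sub_log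
    refine this.congr fun m => ?_
    unfold harmonic
    push_cast
    simp [one_div]
  have p2 : Tendsto (fun m : ℕ => Real.log (m * (1 - Real.exp (-(1 : ℝ) / m)))) atTop (𝓝 0) := by
    have h1 : Tendsto (fun m : ℕ => (m : ℝ) * (1 - Real.exp (-(1 : ℝ) / m))) atTop (𝓝 1) := by
      have hd : HasDerivAt (fun x : ℝ => 1 - Real.exp (-x)) 1 0 := by
        have h2 := ((hasDerivAt_neg (0 : ℝ)).exp).const_sub 1
        simpa using h2
      have h3 := hd.tendsto_slope_zero_right
      have h4 : Tendsto (fun m : ℕ => (1 : ℝ) / m) atTop (𝓝[>] 0) := by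
        rw [tendsto_nhdsWithin_iff]
        refine ⟨tendsto_inv_nat, ?_⟩
        filter_upwards [eventually_gt_atTop 0] with m hm
        have : (0 : ℝ) < m := by exact_mod_cast hm
        exact Set.mem_Ioi.mpr (by positivity)
      have h5 := h3.comp h4
      refine h5.congr' ?_
      filter_upwards [eventually_gt_atTop 0] with m hm
      simp only [Function.comp, smul_eq_mul, zero_add, neg_zero, Real.exp_zero, sub_self, sub_zero,
        one_div, inv_inv]
      congr 3
      rw [neg_div, one_div]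
    have h2 := (Real.continuousAt_log (one_ne_zero)).tendsto.comp h1
    rw [Real.log_one] at h2
    exact h2
  have p3 : Tendsto (fun m : ℕ => Real.log ((1 / (m : ℝ)) *
      ∑' n : ℕ, 1 / (n : ℝ) ^ (1 + 1 / m : ℝ))) atTop (𝓝 0) := by
    have h1 := tendsto_sub_mul_tsum_nat_rpow
    have h4 : Tendsto (fun m : ℕ => 1 + (1 : ℝ) / m) atTop (𝓝[>] 1) := by
      rw [tendsto_nhdsWithin_iff]
      refine ⟨by simpa using tendsto_inv_nat.const_add 1, ?_⟩
      filter_upwards [eventually_gt_atTop 0] with m hm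
      have : (0 : ℝ) < m := by exact_mod_cast hm
      have h5 : (0 : ℝ) < 1 / m := by positivity
      exact Set.mem_Ioi.mpr (by linarith)
    have h5 := (Real.continuousAt_log (one_ne_zero)).tendsto.comp (h1.comp h4)
    rw [Real.log_one] at h5
    refine h5.congr fun m => ?_
    simp only [Function.comp, add_sub_cancel_left]
  have p4 : Tendsto (fun m : ℕ => ∑ p ∈ PB m, r 1 p) atTop (𝓝 (∑' n, r 1 n)) := sum_r_PB le_rfl
  have p5 : Tendsto (fun m : ℕ => ∑' n, r (1 + 1 / m) n) atTop (𝓝 (∑' n, r 1 n)) := by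
    refine tendsto_tsum_of_dominated_convergence (bound := fun n : ℕ => 2 * (1 / (n : ℝ) ^ 2))
      summable_bound ?_ ?_
    · intro n
      unfold r
      split_ifs with h
      · have hn0 : (0 : ℝ) < n := by exact_mod_cast h.pos
        have h1 : Tendsto (fun m : ℕ => (n : ℝ) ^ (-(1 + 1 / m) : ℝ)) atTop (𝓝 ((n : ℝ) ^ (-1 : ℝ))) := by
          have h2 : Tendsto (fun m : ℕ => -(1 + (1 : ℝ) / m)) atTop (𝓝 (-1)) := by
            have := (tendsto_inv_nat.const_add 1).neg
            simpa using this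
          exact (Real.continuousAt_const_rpow hn0.ne').tendsto.comp h2
        have h3 : ContinuousAt rho ((n : ℝ) ^ (-1 : ℝ)) := by
          unfold rho
          apply ContinuousAt.sub _ continuousAt_id
          apply ContinuousAt.neg
          apply ContinuousAt.log
          · exact (continuous_const.sub continuous_id).continuousAt
          · rw [Real.rpow_neg_one]
            have h4 : (2 : ℝ) ≤ n := by exact_mod_cast h.two_le
            have h5 : ((n : ℝ))⁻¹ ≤ 1 / 2 := by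
              rw [← one_div]; exact one_div_le_one_div_of_le (by norm_num) h4
            have h6 : (1 : ℝ) - (n : ℝ)⁻¹ > 0 := by linarith
            exact h6.ne'
        exact h3.tendsto.comp h1
      · exact tendsto_const_nhds
    · filter_upwards [eventually_gt_atTop 0] with m hm
      intro n
      have hmR : (0 : ℝ) < m := by exact_mod_cast hm
      have hs : (1 : ℝ) ≤ 1 + 1 / m := by
        have : (0 : ℝ) < 1 / m := by positivity
        linarith
      rw [Real.norm_of_nonneg (r_nonneg hs n)]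
      exact r_le hs n
  -- assemble
  have e1 : Tendsto (fun m : ℕ => A m - Real.log (∑' n : ℕ, 1 / (n : ℝ) ^ (1 + 1 / m : ℝ)) -
      (∑ j ∈ range m, 1 / ((j : ℝ) + 1) + Real.log (1 - Real.exp (-(1 : ℝ) / m))) -
      ∑ p ∈ PB m, r 1 p + ∑' n, r (1 + 1 / m) n) atTop (𝓝 0) := by
    have h1 : Tendsto (fun m : ℕ => 2 * (2 * C + 1) / (m : ℝ)) atTop (𝓝 0) :=
      tendsto_const_div_atTop_nhds_zero_nat _
    refine squeeze_zero_norm' ?_ h1
    filter_upwards [eventually_gt_atTop 0] with m hm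
    rw [Real.norm_eq_abs]
    exact approx hC hm
  have e2 := ((((e1.add p1).add p2).add p3).add p4).sub p5
  have e3 : (0 + Real.eulerMascheroniConstant + 0 + 0 + ∑' n, r 1 n - ∑' n, r 1 n) =
      Real.eulerMascheroniConstant := by ring
  rw [e3] at e2
  refine e2.congr' ?_
  filter_upwards [eventually_gt_atTop 0] with m hm
  have hmR : (0 : ℝ) < m := by exact_mod_cast hm
  have hx : 0 < 1 - Real.exp (-(1 : ℝ) / m) := by
    rw [sub_pos, Real.exp_lt_one_iff, neg_div]
    have : (0 : ℝ) < 1 / m := by positivity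
    linarith
  have hs : (1 : ℝ) < 1 + 1 / m := by
    have : (0 : ℝ) < 1 / m := by positivity
    linarith
  have hpos : (0 : ℝ) < ∑' n : ℕ, 1 / (n : ℝ) ^ (1 + 1 / m : ℝ) := by
    have h2 := Real.summable_one_div_nat_rpow.mpr hs
    refine h2.tsum_pos (fun n => by positivity) 1 ?_
    simp
  rw [Real.log_mul hmR.ne' hx.ne', Real.log_mul (by positivity) hpos.ne', Real.log_div one_ne_zero
    hmR.ne', Real.log_one]
  ring

/-- **Mertens' third theorem** -/
theorem mertens_three : Tendsto (fun z : ℕ => Real.log z *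
    ∏ p ∈ (range (z + 1)).filter Nat.Prime, (1 - 1 / (p : ℝ))) atTop
    (𝓝 (Real.exp (-Real.eulerMascheroniConstant))) := by
  set V : ℕ → ℝ := fun z => ∏ p ∈ (range (z + 1)).filter Nat.Prime, (1 - 1 / (p : ℝ)) with hV
  set m : ℕ → ℕ := fun z => ⌊Real.log z⌋₊ with hm
  have hfac : ∀ p : ℕ, p.Prime → 0 < 1 - 1 / (p : ℝ) := by
    intro p hp
    have h2 : (1 : ℝ) / p ≤ 1 / 2 := by
      apply one_div_le_one_div_of_le (by norm_num)
      exact_mod_cast hp.two_le
    linarith
  have hVpos : ∀ z, 0 < V z := fun z =>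
    Finset.prod_pos fun p hp => hfac p (Finset.mem_filter.mp hp).2
  have hlogV : ∀ z, -Real.log (V z) =
      ∑ p ∈ (range (z + 1)).filter Nat.Prime, -Real.log (1 - 1 / (p : ℝ)) := by
    intro z
    rw [hV]
    simp only
    rw [Real.log_prod (fun p hp => (hfac p (Finset.mem_filter.mp hp).2).ne'),
      Finset.sum_neg_distrib]
  have hnn : ∀ p : ℕ, p.Prime → 0 ≤ -Real.log (1 - 1 / (p : ℝ)) := by
    intro p hp
    have h3 : (0 : ℝ) ≤ 1 / p := by positivity
    have := Real.log_nonpos (hfac p hp).le (by linarith)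
    linarith
  have hlow : ∀ z, 2 ≤ z → A (m z) ≤ -Real.log (V z) := by
    intro z hz
    rw [hlogV]
    unfold A
    refine Finset.sum_le_sum_of_subset_of_nonneg ?_
      fun p hp _ => hnn p (Finset.mem_filter.mp hp).2
    intro p hp
    rw [mem_PB] at hp
    rw [Finset.mem_filter, Finset.mem_range]
    refine ⟨?_, hp.2⟩
    have hzR : (2 : ℝ) ≤ z := by exact_mod_cast hz
    have h1 : (m z : ℝ) ≤ Real.log z := Nat.floor_le (Real.log_nonneg (by linarith))
    have h2 : Real.exp (m z) ≤ z := by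
      rw [← Real.le_log_iff_exp_le (by linarith)]
      exact h1
    have h3 : (p : ℝ) < z := hp.1.trans_le h2
    have h4 : p < z := by exact_mod_cast h3
    omega
  have hupp : ∀ z, 2 ≤ z → -Real.log (V z) ≤ A (m z + 1) := by
    intro z hz
    rw [hlogV]
    unfold A
    refine Finset.sum_le_sum_of_subset_of_nonneg ?_ fun p hp _ => hnn p (mem_PB.mp hp).2
    intro p hp
    rw [Finset.mem_filter, Finset.mem_range] at hp
    rw [mem_PB]
    refine ⟨?_, hp.2⟩
    have hzR : (2 : ℝ) ≤ z := by exact_mod_cast hz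
    have h1 : Real.log z < (m z : ℝ) + 1 := Nat.lt_floor_add_one _
    have h2 : (z : ℝ) < Real.exp ((m z + 1 : ℕ) : ℝ) := by
      rw [← Real.log_lt_iff_lt_exp (by linarith)]
      push_cast
      exact h1
    have h3 : (p : ℝ) ≤ z := by exact_mod_cast (by omega : p ≤ z)
    exact h3.trans_lt h2
  have hmt : Tendsto m atTop atTop :=
    tendsto_nat_floor_atTop.comp (Real.tendsto_log_atTop.comp tendsto_natCast_atTop_atTop)
  -- `log (m+1) - log m → 0`
  have hstep : Tendsto (fun k : ℕ => Real.log ((k + 1 : ℕ) : ℝ) - Real.log k) atTop (𝓝 0) := by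
    have h1 : Tendsto (fun k : ℕ => Real.log (1 + 1 / (k : ℝ))) atTop (𝓝 0) := by
      have h2 : Tendsto (fun k : ℕ => 1 + 1 / (k : ℝ)) atTop (𝓝 1) := by
        simpa using tendsto_inv_nat.const_add 1
      have h3 := (Real.continuousAt_log (one_ne_zero)).tendsto.comp h2
      rw [Real.log_one] at h3
      exact h3
    refine h1.congr' ?_
    filter_upwards [eventually_gt_atTop 0] with k hk
    have hkR : (0 : ℝ) < k := by exact_mod_cast hk
    rw [← Real.log_div (by positivity) hkR.ne']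
    congr 1
    push_cast
    field_simp
  have hA := tendsto_A
  have l1 : Tendsto (fun z : ℕ => A (m z) - Real.log (m z) -
      (Real.log ((m z + 1 : ℕ) : ℝ) - Real.log (m z))) atTop (𝓝 Real.eulerMascheroniConstant) := by
    have h1 := (hA.comp hmt).sub (hstep.comp hmt)
    rw [sub_zero] at h1
    exact h1
  have l2 : Tendsto (fun z : ℕ => A (m z + 1) - Real.log ((m z + 1 : ℕ) : ℝ) +
      (Real.log ((m z + 1 : ℕ) : ℝ) - Real.log (m z))) atTop (𝓝 Real.eulerMascheroniConstant) := by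
    have h1 := (hA.comp ((tendsto_add_atTop_nat 1).comp hmt)).add (hstep.comp hmt)
    rw [add_zero] at h1
    exact h1
  have l3 : Tendsto (fun z : ℕ => -Real.log (V z) - Real.log (Real.log z)) atTop
      (𝓝 Real.eulerMascheroniConstant) := by
    refine tendsto_of_tendsto_of_tendsto_of_le_of_le' l1 l2 ?_ ?_
    · filter_upwards [eventually_ge_atTop 3] with z hz
      have hzR : (3 : ℝ) ≤ z := by exact_mod_cast hz
      have hlog : 0 < Real.log z := Real.log_pos (by linarith)
      have h1 : Real.log z < (m z : ℝ) + 1 := Nat.lt_floor_add_one _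
      have h2 : Real.log (Real.log z) ≤ Real.log ((m z + 1 : ℕ) : ℝ) := by
        apply Real.log_le_log hlog
        push_cast
        exact h1.le
      have h3 := hlow z (by omega)
      linarith
    · filter_upwards [eventually_ge_atTop 3] with z hz
      have hzR : (3 : ℝ) ≤ z := by exact_mod_cast hz
      have h0 : (1 : ℝ) ≤ Real.log z := by
        rw [Real.le_log_iff_exp_le (by linarith)]
        have := Real.exp_one_lt_d9
        linarith
      have h1 : (m z : ℝ) ≤ Real.log z := Nat.floor_le (by linarith)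
      have hm1 : 1 ≤ m z := Nat.le_floor (by push_cast; exact h0)
      have h2 : Real.log (m z) ≤ Real.log (Real.log z) :=
        Real.log_le_log (by exact_mod_cast hm1) h1
      have h3 := hupp z (by omega)
      linarith
  have l4 := (Real.continuous_exp.tendsto _).comp l3.neg
  refine l4.congr' ?_
  filter_upwards [eventually_ge_atTop 3] with z hz
  have hzR : (3 : ℝ) ≤ z := by exact_mod_cast hz
  have hlog : 0 < Real.log z := Real.log_pos (by linarith)
  simp only [Function.comp]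
  rw [show -(-Real.log (V z) - Real.log (Real.log z)) = Real.log (Real.log z) + Real.log (V z) by ring,
    Real.exp_add, Real.exp_log hlog, Real.exp_log (hVpos z)]

end Pool.Agent.Lib.Sieve.Mertens3
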