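import Mathlib
import Pool.Agent.Lib.Sieve.Pair
import Pool.Agent.Lib.Sieve.Mertens

/-!
# Average of `d / φ(d)` over differences of a set of density `≫ 1/(log Y)^2`
-/

open Finset Filter

namespace Pool.Agent.Lib.Sieve

/-- `d/φ(d) = ∏_{p ∣ d} (1 - 1/p)⁻¹` -/
theorem div_totient_eq_prod_inv (d : ℕ) (hd : d ≠ 0) :
    (d : ℝ) / (Nat.totient d : ℝ) = ∏ p ∈ d.primeFactors, (1 - (1 : ℝ) / p)⁻¹ := by
  rw [div_totient_eq_prod d hd]
  refine Finset.prod_congr rfl fun p hp => ?_
  have h2 : (2 : ℝ) ≤ p := by exact_mod_cast (Nat.prime_of_mem_primeFactors hp).two_le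
  have h1 : (p : ℝ) - 1 ≠ 0 := by linarith
  have h0 : (p : ℝ) ≠ 0 := by linarith
  have e1 : 1 - (1 : ℝ) / p = ((p : ℝ) - 1) / p := by field_simp
  rw [e1, inv_div]
  field_simp
  ring

theorem inv_one_sub_le_exp {x : ℝ} (hx0 : 0 ≤ x) (hx : x ≤ 1 / 2) :
    (1 - x)⁻¹ ≤ Real.exp (2 * x) := by
  have h1 : 0 < 1 - x := by linarith
  rw [inv_le_iff_one_le_mul₀ h1]
  have := Real.add_one_le_exp (2 * x)
  nlinarith

theorem one_le_fac {p : ℕ} (hp : p.Prime) : 1 ≤ (1 - (1 : ℝ) / p)⁻¹ := by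
  have h2 : (2 : ℝ) ≤ p := by exact_mod_cast hp.two_le
  have h3 : 0 < 1 - (1 : ℝ) / p := by
    rw [sub_pos, div_lt_one (by linarith)]; linarith
  rw [one_le_inv₀ h3]
  have : 0 < (1 : ℝ) / p := by positivity
  linarith

/-- product over a set of primes all exceeding `z`. -/
theorem prod_fac_le_exp (S : Finset ℕ) (hS : ∀ p ∈ S, p.Prime) (z : ℝ) (hz : 0 < z)
    (hSz : ∀ p ∈ S, z ≤ p) :
    ∏ p ∈ S, (1 - (1 : ℝ) / p)⁻¹ ≤ Real.exp (2 * S.card / z) := by
  calc ∏ p ∈ S, (1 - (1 : ℝ) / p)⁻¹ ≤ ∏ p ∈ S, Real.exp (2 / z) := by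
        apply Finset.prod_le_prod
        · intro p hp
          exact zero_le_one.trans (one_le_fac (hS p hp))
        · intro p hp
          have h2 : (2 : ℝ) ≤ p := by exact_mod_cast (hS p hp).two_le
          have h3 := hSz p hp
          refine (inv_one_sub_le_exp (by positivity)
            (one_div_le_one_div_of_le (by norm_num) h2)).trans ?_
          apply Real.exp_le_exp.mpr
          calc 2 * (1 / (p : ℝ)) = 2 / p := by ring
            _ ≤ 2 / z := by gcongr
    _ = Real.exp (2 * S.card / z) := by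
        rw [Finset.prod_const, ← Real.exp_nat_mul]
        congr 1
        ring

/-- number of prime factors bound -/
theorem two_pow_card_primeFactors_le (d : ℕ) (hd : d ≠ 0) : 2 ^ d.primeFactors.card ≤ d := by
  calc 2 ^ d.primeFactors.card = ∏ p ∈ d.primeFactors, 2 := by simp
    _ ≤ ∏ p ∈ d.primeFactors, p :=
        Finset.prod_le_prod' fun p hp => (Nat.prime_of_mem_primeFactors hp).two_le
    _ ≤ d := Nat.le_of_dvd (Nat.pos_of_ne_zero hd) (Nat.prod_primeFactors_dvd d)

theorem card_primeFactors_le_log (d : ℕ) (hd : d ≠ 0) :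
    (d.primeFactors.card : ℝ) ≤ 2 * Real.log d := by
  have h : ((2 : ℝ) ^ d.primeFactors.card) ≤ d := by
    exact_mod_cast two_pow_card_primeFactors_le d hd
  have h2 := Real.log_le_log (by positivity) h
  rw [Real.log_pow] at h2
  have h3 : (0.6931471803 : ℝ) < Real.log 2 := Real.log_two_gt_d9
  have h4 : (0 : ℝ) ≤ d.primeFactors.card := Nat.cast_nonneg _
  nlinarith

/-- For each `e`, few pairs of a subset of `[1,Y]` differ by a multiple of `e`. -/
theorem pairs_dvd_le (Y : ℕ) (Q : Finset ℕ) (hQ : Q ⊆ Finset.Icc 1 Y) (e : ℕ) :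
    ∑ q ∈ Q, ∑ q' ∈ Q.filter (fun q' => q < q'), (if e ∣ q' - q then (1 : ℝ) else 0)
      ≤ (Q.card : ℝ) * (Y / e) := by
  have h1 : ∀ q ∈ Q, ∑ q' ∈ Q.filter (fun q' => q < q'), (if e ∣ q' - q then (1 : ℝ) else 0)
      ≤ (Y : ℝ) / e := by
    intro q hq
    rw [← Finset.sum_filter, Finset.sum_const, nsmul_eq_mul, mul_one]
    have h2 : ((Q.filter (fun q' => q < q')).filter (fun q' => e ∣ q' - q)).card ≤ Y / e := by
      rw [← Nat.Ioc_filter_dvd_card_eq_div]
      refine Finset.card_le_card_of_injOn (fun q' => q' - q) ?_ ?_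
      · intro q' hq'
        have hq' := Finset.mem_filter.mp (Finset.mem_coe.mp hq')
        have hq'' := Finset.mem_filter.mp hq'.1
        have := Finset.mem_Icc.mp (hQ hq''.1)
        rw [Finset.mem_coe, Finset.mem_filter, Finset.mem_Ioc]
        have h5 := hq''.2
        refine ⟨⟨?_, ?_⟩, hq'.2⟩
        · show 0 < q' - q
          omega
        · show q' - q ≤ Y
          omega
      · intro x hx y hy hxy
        have hx' := Finset.mem_filter.mp (Finset.mem_filter.mp (Finset.mem_coe.mp hx)).1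
        have hy' := Finset.mem_filter.mp (Finset.mem_filter.mp (Finset.mem_coe.mp hy)).1
        have hxy : x - q = y - q := hxy
        have := hx'.2
        have := hy'.2
        omega
    calc (((Q.filter (fun q' => q < q')).filter (fun q' => e ∣ q' - q)).card : ℝ)
        ≤ ((Y / e : ℕ) : ℝ) := by exact_mod_cast h2
      _ ≤ (Y : ℝ) / e := Nat.cast_div_le
  calc ∑ q ∈ Q, ∑ q' ∈ Q.filter (fun q' => q < q'), (if e ∣ q' - q then (1 : ℝ) else 0)
      ≤ ∑ q ∈ Q, (Y : ℝ) / e := Finset.sum_le_sum h1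
    _ = (Q.card : ℝ) * (Y / e) := by rw [Finset.sum_const, nsmul_eq_mul]

/-- the primes in `(z, L]` -/
def midPrimes (z L : ℕ) : Finset ℕ := (Finset.Ioc z L).filter Nat.Prime

/-- exponential moment of the number of mid-size prime factors of the differences -/
theorem sum_three_pow_le (Y : ℕ) (Q : Finset ℕ) (hQ : Q ⊆ Finset.Icc 1 Y) (z L : ℕ) :
    ∑ q ∈ Q, ∑ q' ∈ Q.filter (fun q' => q < q'),
        (3 : ℝ) ^ ((q' - q).primeFactors ∩ midPrimes z L).card
      ≤ (Q.card : ℝ) * Y * Real.exp (2 * ∑ p ∈ midPrimes z L, (1 : ℝ) / p) := by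
  classical
  have h3 : ∀ d : ℕ, (3 : ℝ) ^ (d.primeFactors ∩ midPrimes z L).card
      ≤ ∑ T ∈ (midPrimes z L).powerset, (2 : ℝ) ^ T.card * (if (∏ p ∈ T, p) ∣ d then 1 else 0) := by
    intro d
    have e1 : (3 : ℝ) ^ (d.primeFactors ∩ midPrimes z L).card
        = ∑ T ∈ (d.primeFactors ∩ midPrimes z L).powerset, (2 : ℝ) ^ T.card := by
      have := Finset.prod_one_add (R := ℝ) (s := d.primeFactors ∩ midPrimes z L) (f := fun _ => (2 : ℝ))
      simp only [Finset.prod_const] at this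
      rw [← this]; norm_num
    rw [e1]
    calc ∑ T ∈ (d.primeFactors ∩ midPrimes z L).powerset, (2 : ℝ) ^ T.card
        = ∑ T ∈ (d.primeFactors ∩ midPrimes z L).powerset,
            (2 : ℝ) ^ T.card * (if (∏ p ∈ T, p) ∣ d then 1 else 0) := by
          refine Finset.sum_congr rfl fun T hT => ?_
          have hT' := Finset.mem_powerset.mp hT
          have hdvd : (∏ p ∈ T, p) ∣ d := by
            apply Finset.prod_primes_dvd
            · intro p hp
              exact (Nat.prime_of_mem_primeFactors (Finset.mem_inter.mp (hT' hp)).1).prime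
            · intro p hp
              exact Nat.dvd_of_mem_primeFactors (Finset.mem_inter.mp (hT' hp)).1
          rw [if_pos hdvd, mul_one]
      _ ≤ _ := by
          apply Finset.sum_le_sum_of_subset_of_nonneg
          · exact Finset.powerset_mono.mpr Finset.inter_subset_right
          · intro T _ _
            split_ifs <;> positivity
  calc ∑ q ∈ Q, ∑ q' ∈ Q.filter (fun q' => q < q'),
        (3 : ℝ) ^ ((q' - q).primeFactors ∩ midPrimes z L).card
      ≤ ∑ q ∈ Q, ∑ q' ∈ Q.filter (fun q' => q < q'),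
          ∑ T ∈ (midPrimes z L).powerset,
            (2 : ℝ) ^ T.card * (if (∏ p ∈ T, p) ∣ (q' - q) then 1 else 0) :=
        Finset.sum_le_sum fun q _ => Finset.sum_le_sum fun q' _ => h3 _
    _ = ∑ T ∈ (midPrimes z L).powerset, (2 : ℝ) ^ T.card *
          ∑ q ∈ Q, ∑ q' ∈ Q.filter (fun q' => q < q'),
            (if (∏ p ∈ T, p) ∣ (q' - q) then (1 : ℝ) else 0) := by
        simp_rw [Finset.mul_sum]
        rw [Finset.sum_comm]
        rw [Finset.sum_comm]
        have : ∀ q ∈ Q, ∑ q' ∈ Q.filter (fun q' => q < q'),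
          ∑ T ∈ (midPrimes z L).powerset,
            (2 : ℝ) ^ T.card * (if (∏ p ∈ T, p) ∣ (q' - q) then 1 else 0)
            = ∑ T ∈ (midPrimes z L).powerset, ∑ q' ∈ Q.filter (fun q' => q < q'),
            (2 : ℝ) ^ T.card * (if (∏ p ∈ T, p) ∣ (q' - q) then 1 else 0) := fun q _ =>
          Finset.sum_comm
        rw [Finset.sum_congr rfl this, Finset.sum_comm]
    _ ≤ ∑ T ∈ (midPrimes z L).powerset, (2 : ℝ) ^ T.card *
          ((Q.card : ℝ) * (Y / ((∏ p ∈ T, p : ℕ) : ℝ))) := by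
        refine Finset.sum_le_sum fun T _ => ?_
        exact mul_le_mul_of_nonneg_left (pairs_dvd_le Y Q hQ _) (by positivity)
    _ = (Q.card : ℝ) * Y * ∏ p ∈ midPrimes z L, (1 + 2 / (p : ℝ)) := by
        rw [Finset.prod_one_add, Finset.mul_sum]
        refine Finset.sum_congr rfl fun T _ => ?_
        rw [Finset.prod_div_distrib, Finset.prod_const]
        push_cast
        ring
    _ ≤ (Q.card : ℝ) * Y * Real.exp (2 * ∑ p ∈ midPrimes z L, (1 : ℝ) / p) := by
        refine mul_le_mul_of_nonneg_left ?_ (by positivity)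
        rw [Finset.mul_sum, Real.exp_sum]
        apply Finset.prod_le_prod
        · intro p _; positivity
        · intro p _
          have := Real.add_one_le_exp (2 * (1 / (p : ℝ)))
          calc 1 + 2 / (p : ℝ) = 2 * (1 / (p : ℝ)) + 1 := by ring
            _ ≤ _ := this

theorem sum_midPrimes_le (z L : ℕ) :
    ∑ p ∈ midPrimes z L, (1 : ℝ) / p ≤ 1 + Real.log L := by
  calc ∑ p ∈ midPrimes z L, (1 : ℝ) / p ≤ ∑ n ∈ Finset.Icc 1 L, (1 : ℝ) / n := by
        apply Finset.sum_le_sum_of_subset_of_nonneg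
        · intro p hp
          have hp := Finset.mem_filter.mp hp
          have := Finset.mem_Ioc.mp hp.1
          exact Finset.mem_Icc.mpr ⟨by omega, this.2⟩
        · intro _ _ _; positivity
    _ ≤ 1 + Real.log L := by
        have h := harmonic_le_one_add_log L
        rw [harmonic_eq_sum_Icc] at h
        push_cast at h
        simpa [one_div] using h


/-- pointwise bound for `d/φ(d)`. -/
theorem div_totient_le_split (CM : ℝ) (hM : ∀ z : ℕ, 2 ≤ z →
    ∏ p ∈ (Finset.Icc 1 z).filter Nat.Prime, (1 - (1 : ℝ) / p)⁻¹ ≤ CM * Real.log z)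
    (d Y z L : ℕ) (hd : 1 ≤ d) (hdY : d ≤ Y) (hY : 2 ≤ Y) (hz : 2 ≤ z) (l : ℝ) (hl : 2 ≤ l)
    (hlY : Real.log Y ≤ l) (hL : ∀ p : ℕ, L < p → l ^ 3 ≤ p) :
    (d : ℝ) / (Nat.totient d : ℝ) ≤ CM * Real.log z * Real.exp 3
      + CM * l * ((3 : ℝ) ^ z)⁻¹ * (3 : ℝ) ^ (d.primeFactors ∩ midPrimes z L).card := by
  classical
  have hd0 : d ≠ 0 := by omega
  rw [div_totient_eq_prod_inv d hd0]
  have hCMz : 0 ≤ CM * Real.log z := by
    refine le_trans ?_ (hM z hz)
    exact Finset.prod_nonneg fun p hp => zero_le_one.trans (one_le_fac (Finset.mem_filter.mp hp).2)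
  have hlogY0 : 0 < Real.log Y := Real.log_pos (by exact_mod_cast hY)
  have hCM0 : 0 ≤ CM := by
    have : 0 ≤ CM * Real.log Y := by
      refine le_trans ?_ (hM Y hY)
      exact Finset.prod_nonneg fun p hp => zero_le_one.trans (one_le_fac (Finset.mem_filter.mp hp).2)
    by_contra h
    push Not at h
    nlinarith
  set S2 := d.primeFactors ∩ midPrimes z L with hS2
  by_cases hcase : S2.card ≤ z
  · -- normal case
    set S1 := d.primeFactors.filter (fun p => p ≤ z) with hS1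
    set S3 := d.primeFactors.filter (fun p => L < p) with hS3
    have hprime : ∀ p ∈ d.primeFactors, p.Prime := fun p hp => Nat.prime_of_mem_primeFactors hp
    have hsub : d.primeFactors ⊆ S1 ∪ (S2 ∪ S3) := by
      intro p hp
      rw [Finset.mem_union, Finset.mem_union]
      by_cases h1 : p ≤ z
      · exact Or.inl (Finset.mem_filter.mpr ⟨hp, h1⟩)
      · by_cases h2 : L < p
        · exact Or.inr (Or.inr (Finset.mem_filter.mpr ⟨hp, h2⟩))
        · right; left
          rw [hS2, Finset.mem_inter]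
          refine ⟨hp, Finset.mem_filter.mpr ⟨Finset.mem_Ioc.mpr ⟨by omega, by omega⟩, hprime p hp⟩⟩
    have hS2' : ∀ p ∈ S2, p.Prime := fun p hp => hprime p (Finset.mem_inter.mp hp).1
    have hS1' : ∀ p ∈ S1, p.Prime := fun p hp => hprime p (Finset.mem_filter.mp hp).1
    have hS3' : ∀ p ∈ S3, p.Prime := fun p hp => hprime p (Finset.mem_filter.mp hp).1
    have hprodunion : ∀ A B : Finset ℕ, (∀ p ∈ A, p.Prime) → (∀ p ∈ B, p.Prime) →
        ∏ p ∈ A ∪ B, (1 - (1 : ℝ) / p)⁻¹ ≤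
          (∏ p ∈ A, (1 - (1 : ℝ) / p)⁻¹) * ∏ p ∈ B, (1 - (1 : ℝ) / p)⁻¹ := by
      intro A B hA hB
      rw [← Finset.prod_union_inter]
      have h1 : 0 ≤ ∏ p ∈ A ∪ B, (1 - (1 : ℝ) / p)⁻¹ := by
        apply Finset.prod_nonneg
        intro p hp
        rcases Finset.mem_union.mp hp with h | h
        · exact zero_le_one.trans (one_le_fac (hA p h))
        · exact zero_le_one.trans (one_le_fac (hB p h))
      have h2 : 1 ≤ ∏ p ∈ A ∩ B, (1 - (1 : ℝ) / p)⁻¹ := by
        apply Finset.one_le_prod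
        intro p hp
        exact one_le_fac (hA p (Finset.mem_inter.mp hp).1)
      nlinarith
    have hb1 : ∏ p ∈ S1, (1 - (1 : ℝ) / p)⁻¹ ≤ CM * Real.log z := by
      refine le_trans ?_ (hM z hz)
      apply Finset.prod_le_prod_of_subset_of_one_le
      · intro p hp
        have := Finset.mem_filter.mp hp
        exact Finset.mem_filter.mpr ⟨Finset.mem_Icc.mpr ⟨(hS1' p hp).one_lt.le, this.2⟩, hS1' p hp⟩
      · intro p hp
        exact zero_le_one.trans (one_le_fac (hS1' p hp))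
      · intro p hp _
        exact one_le_fac (Finset.mem_filter.mp hp).2
    have hzr : (0 : ℝ) < z := by exact_mod_cast (by omega : 0 < z)
    have hb2 : ∏ p ∈ S2, (1 - (1 : ℝ) / p)⁻¹ ≤ Real.exp 2 := by
      refine (prod_fac_le_exp S2 hS2' z hzr ?_).trans ?_
      · intro p hp
        have := (Finset.mem_filter.mp (Finset.mem_inter.mp hp).2).1
        have := (Finset.mem_Ioc.mp this).1
        exact_mod_cast this.le
      · apply Real.exp_le_exp.mpr
        rw [div_le_iff₀ hzr]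
        have : (S2.card : ℝ) ≤ z := by exact_mod_cast hcase
        linarith
    have hl3 : (0 : ℝ) < l ^ 3 := by positivity
    have hb3 : ∏ p ∈ S3, (1 - (1 : ℝ) / p)⁻¹ ≤ Real.exp 1 := by
      refine (prod_fac_le_exp S3 hS3' (l ^ 3) hl3 ?_).trans ?_
      · intro p hp
        exact hL p (Finset.mem_filter.mp hp).2
      · apply Real.exp_le_exp.mpr
        rw [div_le_iff₀ hl3]
        have h1 : (S3.card : ℝ) ≤ 2 * Real.log d := by
          refine le_trans ?_ (card_primeFactors_le_log d hd0)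
          exact_mod_cast Finset.card_le_card (Finset.filter_subset _ _)
        have h2 : Real.log d ≤ Real.log Y :=
          Real.log_le_log (by exact_mod_cast hd) (by exact_mod_cast hdY)
        have h3 : (S3.card : ℝ) ≤ 2 * l := by linarith
        nlinarith [mul_self_nonneg (l - 2), pow_pos (by linarith : (0 : ℝ) < l) 2,
          pow_pos (by linarith : (0 : ℝ) < l) 3]
    have hpos : ∀ S : Finset ℕ, (∀ p ∈ S, p.Prime) → 0 ≤ ∏ p ∈ S, (1 - (1 : ℝ) / p)⁻¹ :=
      fun S hS => Finset.prod_nonneg fun p hp => zero_le_one.trans (one_le_fac (hS p hp))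
    have hS23 : ∀ p ∈ S2 ∪ S3, p.Prime := by
      intro p hp
      rcases Finset.mem_union.mp hp with h | h
      · exact hS2' p h
      · exact hS3' p h
    have h1 : ∏ p ∈ d.primeFactors, (1 - (1 : ℝ) / p)⁻¹ ≤ CM * Real.log z * Real.exp 3 := by
      calc ∏ p ∈ d.primeFactors, (1 - (1 : ℝ) / p)⁻¹
          ≤ ∏ p ∈ S1 ∪ (S2 ∪ S3), (1 - (1 : ℝ) / p)⁻¹ := by
            apply Finset.prod_le_prod_of_subset_of_one_le hsub
            · intro p hp
              exact zero_le_one.trans (one_le_fac (hprime p hp))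
            · intro p hp _
              rcases Finset.mem_union.mp hp with h | h
              · exact one_le_fac (hS1' p h)
              · exact one_le_fac (hS23 p h)
        _ ≤ (∏ p ∈ S1, (1 - (1 : ℝ) / p)⁻¹) * ∏ p ∈ S2 ∪ S3, (1 - (1 : ℝ) / p)⁻¹ :=
            hprodunion _ _ hS1' hS23
        _ ≤ (∏ p ∈ S1, (1 - (1 : ℝ) / p)⁻¹) *
            ((∏ p ∈ S2, (1 - (1 : ℝ) / p)⁻¹) * ∏ p ∈ S3, (1 - (1 : ℝ) / p)⁻¹) :=
            mul_le_mul_of_nonneg_left (hprodunion _ _ hS2' hS3') (hpos S1 hS1')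
        _ ≤ (CM * Real.log z) * (Real.exp 2 * Real.exp 1) := by
            refine mul_le_mul hb1 (mul_le_mul hb2 hb3 (hpos S3 hS3') (Real.exp_pos 2).le) ?_ hCMz
            exact mul_nonneg (hpos S2 hS2') (hpos S3 hS3')
        _ = CM * Real.log z * Real.exp 3 := by
            rw [← Real.exp_add]; norm_num
    refine h1.trans (le_add_of_nonneg_right ?_)
    positivity
  · -- exceptional case
    push Not at hcase
    have h1 : ∏ p ∈ d.primeFactors, (1 - (1 : ℝ) / p)⁻¹ ≤ CM * l := by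
      calc ∏ p ∈ d.primeFactors, (1 - (1 : ℝ) / p)⁻¹
          ≤ ∏ p ∈ (Finset.Icc 1 Y).filter Nat.Prime, (1 - (1 : ℝ) / p)⁻¹ := by
            apply Finset.prod_le_prod_of_subset_of_one_le
            · intro p hp
              have hpp := Nat.prime_of_mem_primeFactors hp
              have := Nat.le_of_mem_primeFactors hp
              exact Finset.mem_filter.mpr ⟨Finset.mem_Icc.mpr ⟨hpp.one_lt.le, by omega⟩, hpp⟩
            · intro p hp
              exact zero_le_one.trans (one_le_fac (Nat.prime_of_mem_primeFactors hp))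
            · intro p hp _
              exact one_le_fac (Finset.mem_filter.mp hp).2
        _ ≤ CM * Real.log Y := hM Y hY
        _ ≤ CM * l := by gcongr
    have h2 : 1 ≤ ((3 : ℝ) ^ z)⁻¹ * (3 : ℝ) ^ S2.card := by
      rw [inv_mul_eq_div, one_le_div (by positivity)]
      exact pow_le_pow_right₀ (by norm_num) hcase.le
    have h3 : 0 ≤ CM * Real.log z * Real.exp 3 := by positivity
    calc ∏ p ∈ d.primeFactors, (1 - (1 : ℝ) / p)⁻¹ ≤ CM * l := h1
      _ = CM * l * 1 := by ring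
      _ ≤ CM * l * (((3 : ℝ) ^ z)⁻¹ * (3 : ℝ) ^ S2.card) := by gcongr
      _ = CM * l * ((3 : ℝ) ^ z)⁻¹ * (3 : ℝ) ^ S2.card := by ring
      _ ≤ _ := by linarith

/-- **Average of `d/φ(d)` over differences.** -/
theorem singular_average : ∀ c : ℝ, 0 < c → ∃ C : ℝ, 0 < C ∧ ∃ Y0 : ℕ, ∀ Y : ℕ, Y0 ≤ Y →
    ∀ Q : Finset ℕ, Q ⊆ Finset.Icc 1 Y → c * Y / (Real.log Y) ^ 2 ≤ (Q.card : ℝ) →
    ∑ q ∈ Q, ∑ q' ∈ Q.filter (fun q' => q < q'),
        ((q' - q : ℕ) : ℝ) / (Nat.totient (q' - q) : ℝ)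
      ≤ C * (Q.card : ℝ) ^ 2 * Real.log (Real.log (Real.log Y)) := by
  intro c hc
  obtain ⟨CM, hCM, hM⟩ := mertens_product_upper
  have hev : ∀ᶠ Y : ℕ in atTop, 2 ≤ Y ∧ (2 : ℝ) ≤ Real.log Y ∧ 10 ≤ Real.log (Real.log Y) ∧
      1 ≤ Real.log (Real.log (Real.log Y)) := by
    have t1 : Tendsto (fun X : ℕ => Real.log (X : ℝ)) atTop atTop :=
      Real.tendsto_log_atTop.comp tendsto_natCast_atTop_atTop
    have t2 : Tendsto (fun X : ℕ => Real.log (Real.log (X : ℝ))) atTop atTop :=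
      Real.tendsto_log_atTop.comp t1
    have t3 : Tendsto (fun X : ℕ => Real.log (Real.log (Real.log (X : ℝ)))) atTop atTop :=
      Real.tendsto_log_atTop.comp t2
    filter_upwards [eventually_ge_atTop 2, t1.eventually_ge_atTop 2, t2.eventually_ge_atTop 10,
      t3.eventually_ge_atTop 1] with X h1 h2 h3 h4
    exact ⟨h1, h2, h3, h4⟩
  obtain ⟨Y0, hY0⟩ := eventually_atTop.mp hev
  refine ⟨2 * CM * Real.exp 3 + CM * Real.exp 2 / c, by positivity, Y0, fun Y hY Q hQ hcard => ?_⟩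
  obtain ⟨hY2, hl1, hl2, hl3⟩ := hY0 Y hY
  set l1 := Real.log (Y : ℝ) with hl1def
  set l2 := Real.log l1 with hl2def
  set l3 := Real.log l2 with hl3def
  set z : ℕ := ⌊l2 ^ 2⌋₊ with hz
  set L : ℕ := ⌊l1 ^ 3⌋₊ with hL
  have hl10 : 0 < l1 := by linarith
  have hl20 : 0 < l2 := by linarith
  have hz_le : (z : ℝ) ≤ l2 ^ 2 := Nat.floor_le (by positivity)
  have hz_gt : l2 ^ 2 - 1 < z := Nat.sub_one_lt_floor _
  have hz2 : 2 ≤ z := by
    have : (2 : ℝ) ≤ z := by nlinarith
    exact_mod_cast this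
  have hL_le : (L : ℝ) ≤ l1 ^ 3 := Nat.floor_le (by positivity)
  have hL1 : 1 ≤ L := by
    rw [hL, Nat.one_le_floor_iff]
    exact one_le_pow₀ (by linarith)
  have hLp : ∀ p : ℕ, L < p → l1 ^ 3 ≤ p := by
    intro p hp
    have h1 := Nat.lt_floor_add_one (l1 ^ 3)
    have h2 : ((L + 1 : ℕ) : ℝ) ≤ p := by exact_mod_cast hp
    push_cast at h2
    linarith
  have hlogz : Real.log z ≤ 2 * l3 := by
    have hzpos : (0 : ℝ) < z := by exact_mod_cast (by omega : 0 < z)
    have := Real.log_le_log hzpos hz_le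
    rw [Real.log_pow] at this
    exact_mod_cast this
  set M : ℝ := (Q.card : ℝ) with hMdef
  have hM0 : 0 ≤ M := Nat.cast_nonneg _
  set A : ℝ := CM * Real.log z * Real.exp 3 with hA
  set B : ℝ := CM * l1 * ((3 : ℝ) ^ z)⁻¹ with hB
  have hB0 : 0 ≤ B := by positivity
  -- pointwise bound and summation
  have hstep1 : ∑ q ∈ Q, ∑ q' ∈ Q.filter (fun q' => q < q'),
        ((q' - q : ℕ) : ℝ) / (Nat.totient (q' - q) : ℝ)
      ≤ ∑ q ∈ Q, ∑ q' ∈ Q.filter (fun q' => q < q'),
        (A + B * (3 : ℝ) ^ ((q' - q).primeFactors ∩ midPrimes z L).card) := by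
    refine Finset.sum_le_sum fun q hq => Finset.sum_le_sum fun q' hq' => ?_
    have h1 := Finset.mem_filter.mp hq'
    have h2 := Finset.mem_Icc.mp (hQ h1.1)
    have h3 := h1.2
    exact div_totient_le_split CM hM (q' - q) Y z L (by omega) (by omega) hY2 hz2 l1 hl1 le_rfl hLp
  have hstep2 : ∑ q ∈ Q, ∑ q' ∈ Q.filter (fun q' => q < q'),
        (A + B * (3 : ℝ) ^ ((q' - q).primeFactors ∩ midPrimes z L).card)
      ≤ A * M ^ 2 + B * (M * Y * Real.exp (2 * ∑ p ∈ midPrimes z L, (1 : ℝ) / p)) := by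
    simp_rw [Finset.sum_add_distrib]
    apply add_le_add
    · have hA0 : 0 ≤ A := by
        have : 0 ≤ Real.log z := Real.log_nonneg (by exact_mod_cast (by omega : 1 ≤ z))
        positivity
      calc ∑ q ∈ Q, ∑ q' ∈ Q.filter (fun q' => q < q'), A
          ≤ ∑ q ∈ Q, M * A := by
            refine Finset.sum_le_sum fun q _ => ?_
            rw [Finset.sum_const, nsmul_eq_mul]
            refine mul_le_mul_of_nonneg_right ?_ hA0
            have h5 : (Q.filter (fun q' => q < q')).card ≤ Q.card := Finset.card_filter_le _ _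
            rw [hMdef]
            exact_mod_cast h5
        _ = A * M ^ 2 := by
            rw [Finset.sum_const, nsmul_eq_mul]; ring
    · simp_rw [← Finset.mul_sum]
      exact mul_le_mul_of_nonneg_left (sum_three_pow_le Y Q hQ z L) hB0
  have hYM : (Y : ℝ) ≤ M * l1 ^ 2 / c := by
    rw [div_le_iff₀ (by positivity)] at hcard
    rw [le_div_iff₀ hc]
    linarith
  have hexpL : Real.exp (2 * ∑ p ∈ midPrimes z L, (1 : ℝ) / p) ≤ Real.exp 2 * l1 ^ 6 := by
    have h1 := sum_midPrimes_le z L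
    have hLr : (1 : ℝ) ≤ L := by exact_mod_cast hL1
    calc Real.exp (2 * ∑ p ∈ midPrimes z L, (1 : ℝ) / p) ≤ Real.exp (2 * (1 + Real.log L)) := by
          apply Real.exp_le_exp.mpr; linarith
      _ = Real.exp 2 * (L : ℝ) ^ 2 := by
          rw [mul_add, Real.exp_add, mul_one]
          congr 1
          rw [mul_comm, Real.exp_mul, Real.exp_log (by linarith)]
          norm_num
      _ ≤ Real.exp 2 * (l1 ^ 3) ^ 2 := by gcongr
      _ = Real.exp 2 * l1 ^ 6 := by ring
  have h3z : l1 ^ 9 * ((3 : ℝ) ^ z)⁻¹ ≤ 1 := by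
    rw [← div_eq_mul_inv, div_le_one (by positivity)]
    have e1 : l1 ^ 9 = Real.exp (9 * l2) := by
      rw [mul_comm, Real.exp_mul, hl2def, Real.exp_log hl10]
      norm_num
    have e2 : Real.exp (z : ℝ) ≤ (3 : ℝ) ^ z := by
      rw [← mul_one (z : ℝ), Real.exp_nat_mul]
      have := Real.exp_one_lt_d9
      gcongr
      linarith
    rw [e1]
    refine le_trans ?_ e2
    apply Real.exp_le_exp.mpr
    nlinarith
  have hBterm : B * (M * Y * Real.exp (2 * ∑ p ∈ midPrimes z L, (1 : ℝ) / p))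
      ≤ CM * Real.exp 2 / c * M ^ 2 := by
    calc B * (M * Y * Real.exp (2 * ∑ p ∈ midPrimes z L, (1 : ℝ) / p))
        ≤ B * (M * (M * l1 ^ 2 / c) * (Real.exp 2 * l1 ^ 6)) := by gcongr
      _ = CM * Real.exp 2 / c * M ^ 2 * (l1 ^ 9 * ((3 : ℝ) ^ z)⁻¹) := by
          rw [hB]; ring
      _ ≤ CM * Real.exp 2 / c * M ^ 2 * 1 := by gcongr
      _ = CM * Real.exp 2 / c * M ^ 2 := by ring
  have hAterm : A * M ^ 2 ≤ 2 * CM * Real.exp 3 * M ^ 2 * l3 := by
    rw [hA]
    calc CM * Real.log z * Real.exp 3 * M ^ 2 ≤ CM * (2 * l3) * Real.exp 3 * M ^ 2 := by gcongr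
      _ = 2 * CM * Real.exp 3 * M ^ 2 * l3 := by ring
  calc ∑ q ∈ Q, ∑ q' ∈ Q.filter (fun q' => q < q'),
        ((q' - q : ℕ) : ℝ) / (Nat.totient (q' - q) : ℝ)
      ≤ A * M ^ 2 + B * (M * Y * Real.exp (2 * ∑ p ∈ midPrimes z L, (1 : ℝ) / p)) :=
        hstep1.trans hstep2
    _ ≤ 2 * CM * Real.exp 3 * M ^ 2 * l3 + CM * Real.exp 2 / c * M ^ 2 := add_le_add hAterm hBterm
    _ ≤ 2 * CM * Real.exp 3 * M ^ 2 * l3 + CM * Real.exp 2 / c * M ^ 2 * l3 := by
        have : 0 ≤ CM * Real.exp 2 / c * M ^ 2 := by positivity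
        nlinarith
    _ = (2 * CM * Real.exp 3 + CM * Real.exp 2 / c) * M ^ 2 * l3 := by ring

end Pool.Agent.Lib.Sieve
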