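import Mathlib
import Pool.Agent.Lib.Sieve.Lower
import Pool.Agent.Lib.Sieve.Mertens
import Pool.Agent.Lib.Sieve.SingularAverage

/-!
# Smooth numbers: sums over integers composed of given primes, and Rankin's bound
-/

open Finset Filter

namespace Pool.Agent.Lib.Sieve

/-- Sum of a completely multiplicative function over integers composed of primes in `T`. -/
theorem sum_primeFactors_subset_le (f : ℕ → ℝ) (hf0 : ∀ n, 0 ≤ f n) (hf1 : f 1 ≤ 1)
    (hmul : ∀ m n, f (m * n) = f m * f n) (M : ℕ) (T : Finset ℕ)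
    (hT : ∀ p ∈ T, p.Prime) (hlt : ∀ p ∈ T, f p < 1) :
    ∑ m ∈ Finset.Icc 1 M with m.primeFactors ⊆ T, f m ≤ ∏ p ∈ T, (1 - f p)⁻¹ := by
  classical
  have hmaps : ∀ e ∈ (Finset.Icc 1 M).filter (fun e => e.primeFactors ⊆ T),
      e.primeFactors ∈ T.powerset := by
    intro e he
    exact Finset.mem_powerset.mpr (Finset.mem_filter.mp he).2
  have hprod : ∏ p ∈ T, (1 - f p)⁻¹ = ∏ p ∈ T, (1 + f p / (1 - f p)) := by
    refine Finset.prod_congr rfl fun p hp => ?_
    have h1 : 1 - f p ≠ 0 := by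
      have := hlt p hp
      linarith
    field_simp
    ring
  rw [← Finset.sum_fiberwise_of_maps_to hmaps, hprod, Finset.prod_one_add]
  refine Finset.sum_le_sum fun S hS => ?_
  have hS' := Finset.mem_powerset.mp hS
  have h := sum_primeFactors_eq_le f hf0 hf1 hmul M S
    (fun p hp => hT p (hS' hp)) (fun p hp => hlt p (hS' hp))
  refine le_trans ?_ h
  apply Finset.sum_le_sum_of_subset_of_nonneg
  · intro e he
    have he := Finset.mem_filter.mp he
    exact Finset.mem_filter.mpr ⟨(Finset.mem_filter.mp he.1).1, he.2⟩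
  · intro _ _ _; exact hf0 _

/-- Lower bound for the Mertens product. -/
theorem log_le_prod (w : ℕ) :
    Real.log ((w : ℝ) + 1) ≤ ∏ p ∈ (Finset.Icc 1 w).filter Nat.Prime, (1 - (1 : ℝ) / p)⁻¹ := by
  have h1 : Real.log ((w : ℝ) + 1) ≤ ∑ n ∈ Finset.Icc 1 w, (1 : ℝ) / n := by
    have h := log_add_one_le_harmonic w
    rw [harmonic_eq_sum_Icc] at h
    push_cast at h
    simpa [one_div] using h
  refine h1.trans ?_
  have h2 := sum_primeFactors_subset_le (fun n : ℕ => (1 : ℝ) / n) (fun n => by positivity)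
    (by simp) (fun m n => by push_cast; rw [one_div_mul_one_div]) w
    ((Finset.Icc 1 w).filter Nat.Prime) (fun p hp => (Finset.mem_filter.mp hp).2)
    (fun p hp => by
      have := (Finset.mem_filter.mp hp).2.one_lt
      have h1 : (1 : ℝ) < p := by exact_mod_cast this
      rw [div_lt_one (by linarith)]
      exact h1)
  refine le_trans ?_ h2
  apply Finset.sum_le_sum_of_subset_of_nonneg
  · intro n hn
    have hn' := Finset.mem_Icc.mp hn
    refine Finset.mem_filter.mpr ⟨hn, fun p hp => ?_⟩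
    have hpp := Nat.prime_of_mem_primeFactors hp
    have := Nat.le_of_mem_primeFactors hp
    exact Finset.mem_filter.mpr ⟨Finset.mem_Icc.mpr ⟨hpp.one_lt.le, by omega⟩, hpp⟩
  · intro _ _ _; positivity

/-- **Rankin's bound** for smooth numbers, in a crude but sufficient form. -/
theorem rankin : ∃ C : ℝ, 0 < C ∧ ∀ (Y w : ℕ) (η : ℝ), 2 ≤ w → 1 ≤ Y → 0 < η → η ≤ 1 / 2 →
    (((Finset.Icc 1 Y).filter (fun d => ∀ p ∈ d.primeFactors, p ≤ w)).card : ℝ) ≤
      C * Y * (Y : ℝ) ^ (-η) * Real.log w *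
        Real.exp (4 * η * (w : ℝ) ^ η * (Real.log w + Real.log 4)) := by
  obtain ⟨C, hC, hM⟩ := mertens_product_upper
  refine ⟨C, hC, fun Y w η hw hY hη0 hη => ?_⟩
  have hYr : (1 : ℝ) ≤ Y := by exact_mod_cast hY
  have hY0 : (0 : ℝ) < Y := by linarith
  have hwr : (2 : ℝ) ≤ w := by exact_mod_cast hw
  set σ : ℝ := 1 - η with hσ
  have hσ0 : 1 / 2 ≤ σ := by rw [hσ]; linarith
  set f : ℕ → ℝ := fun n => if n = 0 then 0 else (n : ℝ) ^ (-σ) with hf
  have hf0 : ∀ n, 0 ≤ f n := by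
    intro n
    simp only [hf]
    split_ifs <;> positivity
  have hfn : ∀ n, n ≠ 0 → f n = (n : ℝ) ^ (-σ) := by
    intro n hn
    simp only [hf, if_neg hn]
  have hmul : ∀ m n, f (m * n) = f m * f n := by
    intro m n
    by_cases hm : m = 0
    · subst hm; simp [hf]
    by_cases hn : n = 0
    · subst hn; simp [hf]
    rw [hfn _ (mul_ne_zero hm hn), hfn m hm, hfn n hn]
    push_cast
    rw [Real.mul_rpow (Nat.cast_nonneg m) (Nat.cast_nonneg n)]
  set T := (Finset.Icc 1 w).filter Nat.Prime with hT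
  have hTp : ∀ p ∈ T, p.Prime := fun p hp => (Finset.mem_filter.mp hp).2
  have hhalf : ∀ p ∈ T, f p ≤ 3 / 4 := by
    intro p hp
    have hp2 : (2 : ℝ) ≤ p := by exact_mod_cast (hTp p hp).two_le
    rw [hfn p (hTp p hp).ne_zero, Real.rpow_neg (by linarith)]
    have h1 : (p : ℝ) ^ (1 / 2 : ℝ) ≤ (p : ℝ) ^ σ :=
      Real.rpow_le_rpow_of_exponent_le (by linarith) hσ0
    have h2 : (4 / 3 : ℝ) ≤ (p : ℝ) ^ (1 / 2 : ℝ) := by
      rw [← Real.sqrt_eq_rpow]
      apply Real.le_sqrt_of_sq_le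
      linarith
    rw [inv_le_comm₀ (by positivity) (by norm_num)]
    norm_num
    linarith
  have hlt : ∀ p ∈ T, f p < 1 := fun p hp => by
    have := hhalf p hp
    linarith
  have hsum := sum_primeFactors_subset_le f hf0 (by simp [hf]) hmul Y T hTp hlt
  -- Rankin's trick
  have hcount : (((Finset.Icc 1 Y).filter (fun d => ∀ p ∈ d.primeFactors, p ≤ w)).card : ℝ)
      ≤ (Y : ℝ) ^ σ * ∑ m ∈ Finset.Icc 1 Y with m.primeFactors ⊆ T, f m := by
    have hsub : (Finset.Icc 1 Y).filter (fun d => ∀ p ∈ d.primeFactors, p ≤ w) ⊆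
        (Finset.Icc 1 Y).filter (fun m => m.primeFactors ⊆ T) := by
      intro d hd
      have hd' := Finset.mem_filter.mp hd
      refine Finset.mem_filter.mpr ⟨hd'.1, fun p hp => ?_⟩
      have hpp := Nat.prime_of_mem_primeFactors hp
      exact Finset.mem_filter.mpr ⟨Finset.mem_Icc.mpr ⟨hpp.one_lt.le, hd'.2 p hp⟩, hpp⟩
    calc (((Finset.Icc 1 Y).filter (fun d => ∀ p ∈ d.primeFactors, p ≤ w)).card : ℝ)
        ≤ (((Finset.Icc 1 Y).filter (fun m => m.primeFactors ⊆ T)).card : ℝ) := by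
          exact_mod_cast Finset.card_le_card hsub
      _ = ∑ m ∈ Finset.Icc 1 Y with m.primeFactors ⊆ T, (1 : ℝ) := by
          rw [Finset.sum_const, nsmul_eq_mul, mul_one]
      _ ≤ ∑ m ∈ Finset.Icc 1 Y with m.primeFactors ⊆ T, (Y : ℝ) ^ σ * f m := by
          refine Finset.sum_le_sum fun m hm => ?_
          have hm' := Finset.mem_Icc.mp (Finset.mem_filter.mp hm).1
          have hm1 : (1 : ℝ) ≤ m := by exact_mod_cast hm'.1
          have hmY : (m : ℝ) ≤ Y := by exact_mod_cast hm'.2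
          rw [hfn m (by omega), Real.rpow_neg (by linarith), ← div_eq_mul_inv,
            one_le_div (by positivity)]
          exact Real.rpow_le_rpow (by linarith) hmY (by linarith)
      _ = (Y : ℝ) ^ σ * ∑ m ∈ Finset.Icc 1 Y with m.primeFactors ⊆ T, f m := by
          rw [Finset.mul_sum]
  -- compare products
  have hfac : ∀ p ∈ T, (1 - f p)⁻¹ ≤
      (1 - (1 : ℝ) / p)⁻¹ * Real.exp (4 * η * (w : ℝ) ^ η * (Real.log p / p)) := by
    intro p hp
    have hpp := hTp p hp
    have hp2 : (2 : ℝ) ≤ p := by exact_mod_cast hpp.two_le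
    have hp0 : (0 : ℝ) < p := by linarith
    have hpw : (p : ℝ) ≤ w := by
      exact_mod_cast (Finset.mem_Icc.mp (Finset.mem_filter.mp hp).1).2
    have h1 : 0 < 1 - f p := by have := hlt p hp; linarith
    have h2 : 0 < 1 - (1 : ℝ) / p := by
      rw [sub_pos, div_lt_one hp0]; linarith
    rw [inv_le_iff_one_le_mul₀ h1]
    have hlogp : 0 ≤ Real.log p := Real.log_nonneg (by linarith)
    -- f p - 1/p ≤ η w^η log p / p
    have h3 : f p - 1 / p ≤ η * (w : ℝ) ^ η * (Real.log p / p) := by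
      rw [hfn p hpp.ne_zero]
      have e1 : (p : ℝ) ^ (-σ) = (p : ℝ) ^ η * (1 / p) := by
        rw [hσ, show -(1 - η) = η + (-1) by ring, Real.rpow_add hp0, Real.rpow_neg_one, one_div]
      have e2 : (p : ℝ) ^ η - 1 ≤ η * (w : ℝ) ^ η * Real.log p := by
        have e3 : (p : ℝ) ^ η = Real.exp (η * Real.log p) := by
          rw [Real.rpow_def_of_pos hp0, mul_comm]
        have e4 : 1 - η * Real.log p ≤ Real.exp (-(η * Real.log p)) := by
          have := Real.add_one_le_exp (-(η * Real.log p))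
          linarith
        have e5 : (p : ℝ) ^ η - 1 ≤ η * Real.log p * (p : ℝ) ^ η := by
          have hpos : 0 < Real.exp (η * Real.log p) := Real.exp_pos _
          have : Real.exp (-(η * Real.log p)) * Real.exp (η * Real.log p) = 1 := by
            rw [← Real.exp_add]; simp
          rw [e3]
          nlinarith
        have e6 : (p : ℝ) ^ η ≤ (w : ℝ) ^ η := Real.rpow_le_rpow hp0.le hpw hη0.le
        calc (p : ℝ) ^ η - 1 ≤ η * Real.log p * (p : ℝ) ^ η := e5
          _ ≤ η * Real.log p * (w : ℝ) ^ η := by gcongr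
          _ = η * (w : ℝ) ^ η * Real.log p := by ring
      rw [e1]
      calc (p : ℝ) ^ η * (1 / p) - 1 / p = ((p : ℝ) ^ η - 1) * (1 / p) := by ring
        _ ≤ (η * (w : ℝ) ^ η * Real.log p) * (1 / p) := by gcongr
        _ = η * (w : ℝ) ^ η * (Real.log p / p) := by ring
    set E := η * (w : ℝ) ^ η * (Real.log p / p) with hE
    have hE0 : 0 ≤ E := by positivity
    have hexp : 1 + 4 * E ≤ Real.exp (4 * η * (w : ℝ) ^ η * (Real.log p / p)) := by
      have := Real.add_one_le_exp (4 * E)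
      have e : 4 * E = 4 * η * (w : ℝ) ^ η * (Real.log p / p) := by rw [hE]; ring
      rw [← e]
      linarith
    have hfp := hhalf p hp
    -- (1 - 1/p) ≤ (1 - f p)(1 + 4E)
    have hkey : 1 - (1 : ℝ) / p ≤ (1 - f p) * (1 + 4 * E) := by nlinarith
    calc (1 : ℝ) = (1 - (1 : ℝ) / p)⁻¹ * (1 - (1 : ℝ) / p) := (inv_mul_cancel₀ h2.ne').symm
      _ ≤ (1 - (1 : ℝ) / p)⁻¹ * ((1 - f p) * (1 + 4 * E)) := by gcongr
      _ ≤ (1 - (1 : ℝ) / p)⁻¹ * ((1 - f p) *
            Real.exp (4 * η * (w : ℝ) ^ η * (Real.log p / p))) := by gcongr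
      _ = (1 - (1 : ℝ) / p)⁻¹ * Real.exp (4 * η * (w : ℝ) ^ η * (Real.log p / p)) * (1 - f p) := by
          ring
  have hprod : ∏ p ∈ T, (1 - f p)⁻¹ ≤ C * Real.log w *
      Real.exp (4 * η * (w : ℝ) ^ η * (Real.log w + Real.log 4)) := by
    calc ∏ p ∈ T, (1 - f p)⁻¹ ≤ ∏ p ∈ T,
          ((1 - (1 : ℝ) / p)⁻¹ * Real.exp (4 * η * (w : ℝ) ^ η * (Real.log p / p))) := by
          apply Finset.prod_le_prod
          · intro p hp
            have := hlt p hp
            exact inv_nonneg.mpr (by linarith)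
          · exact hfac
      _ = (∏ p ∈ T, (1 - (1 : ℝ) / p)⁻¹) *
            Real.exp (4 * η * (w : ℝ) ^ η * ∑ p ∈ T, Real.log p / p) := by
          rw [Finset.prod_mul_distrib, ← Real.exp_sum, Finset.mul_sum]
      _ ≤ (C * Real.log w) *
            Real.exp (4 * η * (w : ℝ) ^ η * (Real.log w + Real.log 4)) := by
          have hs := sum_log_div_le w (by omega)
          have hlogw : 0 ≤ Real.log w := Real.log_nonneg (by linarith)
          gcongr
          exact hM w hw
  calc (((Finset.Icc 1 Y).filter (fun d => ∀ p ∈ d.primeFactors, p ≤ w)).card : ℝ)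
      ≤ (Y : ℝ) ^ σ * ∑ m ∈ Finset.Icc 1 Y with m.primeFactors ⊆ T, f m := hcount
    _ ≤ (Y : ℝ) ^ σ * (C * Real.log w *
      Real.exp (4 * η * (w : ℝ) ^ η * (Real.log w + Real.log 4))) := by
        have := hsum.trans hprod
        gcongr
    _ = C * Y * (Y : ℝ) ^ (-η) * Real.log w *
        Real.exp (4 * η * (w : ℝ) ^ η * (Real.log w + Real.log 4)) := by
        have : (Y : ℝ) ^ σ = Y * (Y : ℝ) ^ (-η) := by
          rw [hσ, sub_eq_add_neg, Real.rpow_add hY0, Real.rpow_one]
        rw [this]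
        ring

end Pool.Agent.Lib.Sieve
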