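import Mathlib
import Pool.Agent.Lib.Sieve.Lower
import Pool.Agent.Lib.Sieve.Pair
import Pool.Agent.Lib.Sieve.PairSieve

/-!
# The upper bound sieve for prime `k`-tuples, uniform in the shifts

`#{n ≤ N : n + h i prime for all i} ≤ C_k (M/φ(M))^k N / (log N)^k`, where `M` is any positive
integer divisible by all primes `p ≤ k` and by all primes dividing some difference `h i - h j`.
Only the primes not dividing `M` are sifted.
-/

open Finset ArithmeticFunction

namespace Pool.Agent.Lib.Sieve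

/-! ### Root counts of a polynomial-like function -/

/-- number of `x mod d` with `d ∣ f x` -/
def rc (f : ℕ → ℕ) (d : ℕ) : ℕ := ((Finset.range d).filter (fun x => d ∣ f x)).card

/-- compatibility with congruences -/
def PolyLike (f : ℕ → ℕ) : Prop := ∀ m x y : ℕ, x ≡ y [MOD m] → f x ≡ f y [MOD m]

theorem PolyLike.dvd_iff {f : ℕ → ℕ} (hf : PolyLike f) {m x y : ℕ} (h : x ≡ y [MOD m]) :
    m ∣ f x ↔ m ∣ f y := by
  have h2 := hf m x y h
  constructor
  · intro h3
    exact (Nat.modEq_zero_iff_dvd.mp (h2.symm.trans (Nat.modEq_zero_iff_dvd.mpr h3)))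
  · intro h3
    exact (Nat.modEq_zero_iff_dvd.mp (h2.trans (Nat.modEq_zero_iff_dvd.mpr h3)))

theorem PolyLike.dvd_mod_iff {f : ℕ → ℕ} (hf : PolyLike f) (d m x : ℕ) (h : m ∣ d) :
    m ∣ f (x % d) ↔ m ∣ f x := hf.dvd_iff ((Nat.mod_modEq x d).of_dvd h)

theorem rc_one (f : ℕ → ℕ) : rc f 1 = 1 := by
  unfold rc
  rw [Finset.filter_true_of_mem]
  · simp
  · intro x _; exact one_dvd _

theorem rc_mul {f : ℕ → ℕ} (hf : PolyLike f) {m n : ℕ} (hm : m ≠ 0) (hn : n ≠ 0)
    (h : m.Coprime n) : rc f (m * n) = rc f m * rc f n := by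
  unfold rc
  rw [← Finset.card_product]
  refine Finset.card_nbij' (fun x => (x % m, x % n))
    (fun y => (Nat.chineseRemainder h y.1 y.2 : ℕ)) ?_ ?_ ?_ ?_
  · intro x hx
    rw [Finset.mem_coe, Finset.mem_filter, Finset.mem_range] at hx
    rw [Finset.mem_coe, Finset.mem_product, Finset.mem_filter, Finset.mem_filter,
      Finset.mem_range, Finset.mem_range]
    refine ⟨⟨Nat.mod_lt _ (Nat.pos_of_ne_zero hm), ?_⟩, Nat.mod_lt _ (Nat.pos_of_ne_zero hn), ?_⟩
    · exact (hf.dvd_mod_iff m m x dvd_rfl).mpr ((Dvd.intro _ rfl).trans hx.2)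
    · exact (hf.dvd_mod_iff n n x dvd_rfl).mpr ((Dvd.intro_left _ rfl).trans hx.2)
  · intro y hy
    rw [Finset.mem_coe, Finset.mem_product, Finset.mem_filter, Finset.mem_filter,
      Finset.mem_range, Finset.mem_range] at hy
    rw [Finset.mem_coe, Finset.mem_filter, Finset.mem_range]
    obtain ⟨⟨h1, h2⟩, h3, h4⟩ := hy
    have hc := (Nat.chineseRemainder h y.1 y.2).2
    refine ⟨Nat.chineseRemainder_lt_mul h _ _ hm hn, ?_⟩
    apply Nat.Coprime.mul_dvd_of_dvd_of_dvd h
    · have e : (Nat.chineseRemainder h y.1 y.2 : ℕ) % m = y.1 := by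
        have := hc.1
        unfold Nat.ModEq at this
        rw [this, Nat.mod_eq_of_lt h1]
      rw [← hf.dvd_mod_iff m m _ dvd_rfl, e]
      exact h2
    · have e : (Nat.chineseRemainder h y.1 y.2 : ℕ) % n = y.2 := by
        have := hc.2
        unfold Nat.ModEq at this
        rw [this, Nat.mod_eq_of_lt h3]
      rw [← hf.dvd_mod_iff n n _ dvd_rfl, e]
      exact h4
  · intro x hx
    rw [Finset.mem_coe, Finset.mem_filter, Finset.mem_range] at hx
    have hu := Nat.chineseRemainder_modEq_unique h (a := x % m) (b := x % n) (z := x)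
      (Nat.mod_modEq x m).symm (Nat.mod_modEq x n).symm
    have hlt := Nat.chineseRemainder_lt_mul h (x % m) (x % n) hm hn
    unfold Nat.ModEq at hu
    rw [Nat.mod_eq_of_lt hx.1, Nat.mod_eq_of_lt hlt] at hu
    exact hu.symm
  · intro y hy
    rw [Finset.mem_coe, Finset.mem_product, Finset.mem_filter, Finset.mem_filter,
      Finset.mem_range, Finset.mem_range] at hy
    obtain ⟨⟨h1, h2⟩, h3, h4⟩ := hy
    have hc := (Nat.chineseRemainder h y.1 y.2).2
    have e1 : (Nat.chineseRemainder h y.1 y.2 : ℕ) % m = y.1 % m := hc.1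
    have e2 : (Nat.chineseRemainder h y.1 y.2 : ℕ) % n = y.2 % n := hc.2
    exact Prod.ext (e1.trans (Nat.mod_eq_of_lt h1)) (e2.trans (Nat.mod_eq_of_lt h3))

theorem rc_le (f : ℕ → ℕ) (d : ℕ) : rc f d ≤ d := by
  unfold rc
  exact (Finset.card_filter_le _ _).trans (by simp)

/-- for squarefree `d` all of whose primes have `c` roots -/
theorem rc_squarefree {f : ℕ → ℕ} (hf : PolyLike f) (c : ℕ) {d : ℕ} (hd : Squarefree d)
    (hp : ∀ p, p.Prime → p ∣ d → rc f p = c) :
    (rc f d : ℝ) = ∏ _p ∈ d.primeFactors, (c : ℝ) := by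
  induction d using Nat.recOnPosPrimePosCoprime with
  | prime_pow p n hp' hn =>
    have : n = 1 := by
      by_contra h
      have h2 : 2 ≤ n := by omega
      have : p * p ∣ p ^ n := by
        rw [← sq]; exact pow_dvd_pow p h2
      have := hd p this
      exact hp'.one_lt.ne' (Nat.isUnit_iff.mp this)
    subst this
    rw [pow_one, hp'.primeFactors, Finset.prod_singleton, hp p hp' (by rw [pow_one])]
  | zero => exact absurd hd not_squarefree_zero
  | one => rw [rc_one]; simp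
  | coprime m n hm hn h ihm ihn =>
    rw [rc_mul hf (by omega) (by omega) h, h.primeFactors_mul,
      Finset.prod_union h.disjoint_primeFactors]
    push_cast
    rw [ihm (hd.squarefree_of_dvd (Dvd.intro _ rfl))
        (fun p h1 h2 => hp p h1 (h2.mul_right _)),
      ihn (hd.squarefree_of_dvd (Dvd.intro_left _ rfl))
        (fun p h1 h2 => hp p h1 (h2.mul_left _))]

/-- count in an interval -/
theorem rc_count_periodic {f : ℕ → ℕ} (hf : PolyLike f) (d : ℕ) (k : ℕ) :
    ((Finset.Ico 1 (1 + d * k)).filter (fun x => d ∣ f x)).card = k * rc f d := by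
  have hper : Function.Periodic (fun x => d ∣ f x) d := by
    intro x
    apply propext
    exact hf.dvd_iff (by simp [Nat.ModEq])
  have hroot : rc f d = Nat.count (fun x => d ∣ f x) d := by
    unfold rc
    rw [Nat.count_eq_card_filter_range]
  induction k with
  | zero => simp
  | succ k ih =>
    have hsplit : Finset.Ico 1 (1 + d * (k + 1))
        = Finset.Ico 1 (1 + d * k) ∪ Finset.Ico (1 + d * k) (1 + d * k + d) := by
      rw [Finset.Ico_union_Ico_eq_Ico (by omega) (by nlinarith)]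
      congr 1
      ring
    rw [hsplit, Finset.filter_union, Finset.card_union_of_disjoint, ih,
      Nat.filter_Ico_card_eq_of_periodic _ _ _ hper, ← hroot]
    · ring
    · apply Finset.disjoint_filter_filter
      exact Finset.Ico_disjoint_Ico_consecutive _ _ _

theorem rc_abs_count_sub_le {f : ℕ → ℕ} (hf : PolyLike f) (d N : ℕ) (hd : 0 < d) :
    |(((Finset.Icc 1 N).filter (fun x => d ∣ f x)).card : ℝ)
      - (rc f d : ℝ) / d * N| ≤ rc f d := by
  set k := N / d with hk
  have h1 : d * k ≤ N := Nat.mul_div_le N d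
  have h2 : N < d * (k + 1) := Nat.lt_mul_div_succ N hd
  have hIcc : Finset.Icc 1 N = Finset.Ico 1 (1 + N) := by
    ext x; simp only [Finset.mem_Icc, Finset.mem_Ico]; omega
  have hlow : k * rc f d ≤ ((Finset.Icc 1 N).filter (fun x => d ∣ f x)).card := by
    rw [← rc_count_periodic hf d k, hIcc]
    apply Finset.card_le_card
    apply Finset.filter_subset_filter
    apply Finset.Ico_subset_Ico le_rfl
    omega
  have hup : ((Finset.Icc 1 N).filter (fun x => d ∣ f x)).card ≤ (k + 1) * rc f d := by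
    rw [← rc_count_periodic hf d (k + 1), hIcc]
    apply Finset.card_le_card
    apply Finset.filter_subset_filter
    apply Finset.Ico_subset_Ico le_rfl
    omega
  have hlow' : (k : ℝ) * rc f d
      ≤ (((Finset.Icc 1 N).filter (fun x => d ∣ f x)).card : ℝ) := by exact_mod_cast hlow
  have hup' : (((Finset.Icc 1 N).filter (fun x => d ∣ f x)).card : ℝ)
      ≤ ((k : ℝ) + 1) * rc f d := by exact_mod_cast hup
  have hdr : (0 : ℝ) < d := by exact_mod_cast hd
  have h1' : (d : ℝ) * k ≤ N := by exact_mod_cast h1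
  have h2' : (N : ℝ) ≤ d * (k + 1) := by exact_mod_cast h2.le
  have hR : (0 : ℝ) ≤ rc f d := Nat.cast_nonneg _
  have e1 : (k : ℝ) * rc f d ≤ (rc f d : ℝ) / d * N := by
    rw [div_mul_eq_mul_div, le_div_iff₀ hdr]
    nlinarith
  have e2 : (rc f d : ℝ) / d * N ≤ ((k : ℝ) + 1) * rc f d := by
    rw [div_mul_eq_mul_div, div_le_iff₀ hdr]
    nlinarith
  rw [abs_le]
  constructor <;> nlinarith

/-! ### The product of the shifts -/

/-- `∏ i, (n + h i)` -/
def tupleProd {k : ℕ} (h : Fin k → ℕ) (n : ℕ) : ℕ := ∏ i, (n + h i)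

theorem tupleProd_polyLike {k : ℕ} (h : Fin k → ℕ) : PolyLike (tupleProd h) := by
  intro m x y hxy
  unfold tupleProd
  apply Nat.ModEq.prod
  intro i _
  exact hxy.add_right _

theorem tupleProd_strictMono {k : ℕ} (hk : 1 ≤ k) (h : Fin k → ℕ) {x y : ℕ} (hx : 1 ≤ x)
    (hxy : x < y) : tupleProd h x < tupleProd h y := by
  unfold tupleProd
  apply Finset.prod_lt_prod_of_nonempty
  · intro i _; omega
  · intro i _; omega
  · exact ⟨⟨0, hk⟩, Finset.mem_univ _⟩

theorem rc_tuple_prime {k : ℕ} (h : Fin k → ℕ) {p : ℕ} (hp : p.Prime)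
    (hinj : ∀ i j, i ≠ j → (h i : ZMod p) ≠ (h j : ZMod p)) : rc (tupleProd h) p = k := by
  classical
  have : Fact p.Prime := ⟨hp⟩
  unfold rc
  have e : (Finset.range p).filter (fun x => p ∣ tupleProd h x) =
      (Finset.univ : Finset (Fin k)).image (fun i => (-(h i : ZMod p)).val) := by
    ext x
    rw [Finset.mem_filter, Finset.mem_range, Finset.mem_image]
    constructor
    · rintro ⟨hx, hd⟩
      unfold tupleProd at hd
      obtain ⟨i, _, hi⟩ := (Prime.dvd_finsetProd_iff hp.prime _).mp hd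
      refine ⟨i, Finset.mem_univ _, ?_⟩
      have h1 : ((x + h i : ℕ) : ZMod p) = 0 := (ZMod.natCast_eq_zero_iff _ _).mpr hi
      push_cast at h1
      have h2 : (x : ZMod p) = -(h i : ZMod p) := eq_neg_of_add_eq_zero_left h1
      rw [← h2, ZMod.val_natCast, Nat.mod_eq_of_lt hx]
    · rintro ⟨i, _, rfl⟩
      refine ⟨ZMod.val_lt _, ?_⟩
      unfold tupleProd
      refine Dvd.dvd.trans ?_ (Finset.dvd_prod_of_mem _ (Finset.mem_univ i))
      rw [← ZMod.natCast_eq_zero_iff]
      push_cast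
      rw [ZMod.natCast_zmod_val]
      ring
  rw [e, Finset.card_image_of_injective, Finset.card_univ, Fintype.card_fin]
  intro i j hij
  by_contra hne
  apply hinj i j hne
  have := ZMod.val_injective p hij
  exact neg_injective this

/-! ### Lower bound for the Selberg sum -/

/-- A version of `sum_le_selS` where only primes with `f p ≠ 0` need be sifted. -/
theorem sum_le_selS' (s : BoundingSieve) (Z : ℕ) (f : ℕ → ℝ) (hf0 : ∀ n, 0 ≤ f n) (hf1 : f 1 ≤ 1)
    (hmul : ∀ m n, f (m * n) = f m * f n)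
    (hP : ∀ p : ℕ, p.Prime → p ≤ Z → f p ≠ 0 → p ∣ s.prodPrimes)
    (hfnu : ∀ p : ℕ, p.Prime → p ∣ s.prodPrimes → f p = s.nu p) :
    ∑ m ∈ Finset.Icc 1 Z, f m ≤ selS s Z := by
  classical
  unfold selS
  set P := s.prodPrimes with hPdef
  have hPsq : Squarefree P := s.prodPrimes_squarefree
  have hP0 : P ≠ 0 := hPsq.ne_zero
  have hres : ∑ m ∈ Finset.Icc 1 Z, f m = ∑ m ∈ (Finset.Icc 1 Z).filter (fun m => f m ≠ 0), f m := by
    rw [Finset.sum_filter_ne_zero]
  rw [hres]
  have hmaps : ∀ m ∈ (Finset.Icc 1 Z).filter (fun m => f m ≠ 0),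
      (∏ p ∈ m.primeFactors, p) ∈ P.divisors.filter (fun l => l ≤ Z) := by
    intro m hm
    have hm' := Finset.mem_filter.mp hm
    have hm1 := (Finset.mem_Icc.mp hm'.1).1
    have hm2 := (Finset.mem_Icc.mp hm'.1).2
    rw [Finset.mem_filter, Nat.mem_divisors]
    refine ⟨⟨?_, hP0⟩, (Nat.le_of_dvd hm1 (Nat.prod_primeFactors_dvd m)).trans hm2⟩
    apply Finset.prod_primes_dvd
    · intro p hp
      exact (Nat.prime_of_mem_primeFactors hp).prime
    · intro p hp
      refine hP p (Nat.prime_of_mem_primeFactors hp) ((Nat.le_of_mem_primeFactors hp).trans hm2) ?_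
      intro h0
      obtain ⟨c, hc⟩ := Nat.dvd_of_mem_primeFactors hp
      apply hm'.2
      rw [hc, hmul, h0, zero_mul]
  rw [← Finset.sum_fiberwise_of_maps_to hmaps]
  refine Finset.sum_le_sum fun l hl => ?_
  have hl' := Finset.mem_filter.mp hl
  have hlP : l ∣ P := Nat.dvd_of_mem_divisors hl'.1
  have hlsq : Squarefree l := hPsq.squarefree_of_dvd hlP
  rw [selbergTerms_eq_prod s hlP]
  have h1 : ∑ m ∈ (Finset.Icc 1 Z).filter (fun m => f m ≠ 0) with
        (∏ p ∈ m.primeFactors, p) = l, f m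
      ≤ ∑ m ∈ Finset.Icc 1 Z with m.primeFactors = l.primeFactors, f m := by
    apply Finset.sum_le_sum_of_subset_of_nonneg
    · intro m hm
      have hm := Finset.mem_filter.mp hm
      refine Finset.mem_filter.mpr ⟨(Finset.mem_filter.mp hm.1).1, ?_⟩
      rw [← hm.2, Nat.primeFactors_prod]
      intro p hp; exact Nat.prime_of_mem_primeFactors hp
    · intro _ _ _; exact hf0 _
  refine h1.trans ?_
  have hpd : ∀ p ∈ l.primeFactors, p.Prime ∧ p ∣ P := fun p hp =>
    ⟨Nat.prime_of_mem_primeFactors hp, (Nat.dvd_of_mem_primeFactors hp).trans hlP⟩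
  refine (sum_primeFactors_eq_le f hf0 hf1 hmul Z l.primeFactors
    (fun p hp => (hpd p hp).1) ?_).trans ?_
  · intro p hp
    rw [hfnu p (hpd p hp).1 (hpd p hp).2]
    exact s.nu_lt_one_of_prime p (hpd p hp).1 (hpd p hp).2
  · apply le_of_eq
    refine Finset.prod_congr rfl fun p hp => ?_
    rw [hfnu p (hpd p hp).1 (hpd p hp).2]

/-- `j^Ω(m) / m` on integers coprime to `M`. -/
noncomputable def ff (j M m : ℕ) : ℝ :=
  if m.Coprime M then (j : ℝ) ^ (m.primeFactorsList.length) / m else 0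

theorem ff_nonneg (j M m : ℕ) : 0 ≤ ff j M m := by
  unfold ff; split_ifs <;> positivity

theorem ff_one (j M : ℕ) : ff j M 1 = 1 := by simp [ff]

theorem ff_zero (j M : ℕ) : ff j M 0 = 0 := by simp [ff]

theorem ff_mul (j M m n : ℕ) : ff j M (m * n) = ff j M m * ff j M n := by
  rcases Nat.eq_zero_or_pos m with hm | hm
  · subst hm; rw [zero_mul, ff_zero, zero_mul]
  rcases Nat.eq_zero_or_pos n with hn | hn
  · subst hn; rw [mul_zero, ff_zero, mul_zero]
  unfold ff
  by_cases h1 : m.Coprime M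
  · by_cases h2 : n.Coprime M
    · rw [if_pos (Nat.Coprime.mul_left h1 h2), if_pos h1, if_pos h2,
        (Nat.perm_primeFactorsList_mul hm.ne' hn.ne').length_eq, List.length_append, pow_add]
      push_cast
      rw [mul_div_mul_comm]
    · rw [if_neg h2, mul_zero, if_neg]
      intro h; exact h2 (Nat.Coprime.coprime_mul_left h)
  · rw [if_neg h1, zero_mul, if_neg]
    intro h; exact h1 (Nat.Coprime.coprime_mul_right h)

theorem ff_prime (j M : ℕ) {p : ℕ} (hp : p.Prime) : ff j M p = if p ∣ M then 0 else (j : ℝ) / p := by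
  unfold ff
  rw [Nat.primeFactorsList_prime hp]
  by_cases h : p ∣ M
  · rw [if_pos h, if_neg]
    rw [Nat.Prime.coprime_iff_not_dvd hp]; exact not_not.mpr h
  · rw [if_neg h, if_pos ((Nat.Prime.coprime_iff_not_dvd hp).mpr h)]
    simp

/-- `∑_{m | t} j^Ω(m) ≤ (j+1)^Ω(t)` -/
theorem sum_divisors_pow_le (j : ℕ) (t : ℕ) (ht : t ≠ 0) :
    ∑ m ∈ t.divisors, (j : ℝ) ^ (m.primeFactorsList.length) ≤
      ((j : ℝ) + 1) ^ (t.primeFactorsList.length) := by
  classical
  induction t using induction_on_primes with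
  | zero => exact absurd rfl ht
  | one => simp
  | prime_mul p a hp ih =>
    have ha : a ≠ 0 := by rintro rfl; simp at ht
    have ih := ih ha
    have hlen : (p * a).primeFactorsList.length = a.primeFactorsList.length + 1 := by
      rw [(Nat.perm_primeFactorsList_mul hp.ne_zero ha).length_eq, List.length_append,
        Nat.primeFactorsList_prime hp]
      simp [add_comm]
    have hsub : (p * a).divisors ⊆ a.divisors ∪ a.divisors.image (fun m => p * m) := by
      intro m hm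
      have hm1 := Nat.dvd_of_mem_divisors hm
      rw [Finset.mem_union, Nat.mem_divisors, Finset.mem_image]
      by_cases hpm : p ∣ m
      · right
        obtain ⟨c, rfl⟩ := hpm
        exact ⟨c, Nat.mem_divisors.mpr ⟨Nat.dvd_of_mul_dvd_mul_left hp.pos hm1, ha⟩, rfl⟩
      · left
        refine ⟨?_, ha⟩
        exact (Nat.Coprime.dvd_of_dvd_mul_left
          ((Nat.Prime.coprime_iff_not_dvd hp).mpr hpm).symm hm1)
    calc ∑ m ∈ (p * a).divisors, (j : ℝ) ^ (m.primeFactorsList.length)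
        ≤ ∑ m ∈ a.divisors ∪ a.divisors.image (fun m => p * m),
            (j : ℝ) ^ (m.primeFactorsList.length) := by
          apply Finset.sum_le_sum_of_subset_of_nonneg hsub
          intro _ _ _; positivity
      _ ≤ ∑ m ∈ a.divisors, (j : ℝ) ^ (m.primeFactorsList.length) +
          ∑ m ∈ a.divisors.image (fun m => p * m), (j : ℝ) ^ (m.primeFactorsList.length) := by
          rw [← Finset.sum_union_inter]
          have : 0 ≤ ∑ m ∈ a.divisors ∩ a.divisors.image (fun m => p * m),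
            (j : ℝ) ^ (m.primeFactorsList.length) := Finset.sum_nonneg fun _ _ => by positivity
          linarith
      _ = ∑ m ∈ a.divisors, (j : ℝ) ^ (m.primeFactorsList.length) +
          j * ∑ m ∈ a.divisors, (j : ℝ) ^ (m.primeFactorsList.length) := by
          congr 1
          rw [Finset.sum_image (fun x _ y _ hxy => Nat.eq_of_mul_eq_mul_left hp.pos hxy),
            Finset.mul_sum]
          refine Finset.sum_congr rfl fun m hm => ?_
          have hm0 : m ≠ 0 := (Nat.pos_of_mem_divisors hm).ne'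
          rw [(Nat.perm_primeFactorsList_mul hp.ne_zero hm0).length_eq, List.length_append,
            Nat.primeFactorsList_prime hp, pow_add]
          simp
      _ = ((j : ℝ) + 1) * ∑ m ∈ a.divisors, (j : ℝ) ^ (m.primeFactorsList.length) := by ring
      _ ≤ ((j : ℝ) + 1) * ((j : ℝ) + 1) ^ (a.primeFactorsList.length) := by gcongr
      _ = _ := by rw [hlen]; ring

theorem sum_ff_mul_le (j M W V : ℕ) :
    (∑ v ∈ Finset.Icc 1 W with v.Coprime M, (1 : ℝ) / v) * ∑ m ∈ Finset.Icc 1 V, ff j M m ≤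
      ∑ t ∈ Finset.Icc 1 (W * V), ff (j + 1) M t := by
  classical
  rw [Finset.sum_mul_sum, ← Finset.sum_product']
  have hmaps : ∀ x ∈ ((Finset.Icc 1 W).filter (fun v => v.Coprime M)) ×ˢ (Finset.Icc 1 V),
      x.1 * x.2 ∈ Finset.Icc 1 (W * V) := by
    intro x hx
    simp only [Finset.mem_product, Finset.mem_filter, Finset.mem_Icc] at hx ⊢
    exact ⟨Nat.mul_pos (by omega) (by omega), Nat.mul_le_mul hx.1.1.2 hx.2.2⟩
  rw [← Finset.sum_fiberwise_of_maps_to hmaps]
  refine Finset.sum_le_sum fun t ht => ?_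
  have ht1 := (Finset.mem_Icc.mp ht).1
  have ht0 : t ≠ 0 := by omega
  have htr : (0 : ℝ) < t := by exact_mod_cast ht1
  by_cases htM : t.Coprime M
  · have e : ff (j + 1) M t = ((j : ℝ) + 1) ^ (t.primeFactorsList.length) / t := by
      unfold ff; rw [if_pos htM]; push_cast; rfl
    rw [e, le_div_iff₀ htr]
    refine le_trans ?_ (sum_divisors_pow_le j t ht0)
    rw [Finset.sum_mul]
    have hterm : ∀ x ∈ (((Finset.Icc 1 W).filter (fun v => v.Coprime M)) ×ˢ
        (Finset.Icc 1 V)).filter (fun x => x.1 * x.2 = t),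
        1 / (x.1 : ℝ) * ff j M x.2 * t ≤ (j : ℝ) ^ (x.2.primeFactorsList.length) := by
      intro x hx
      have hx' := Finset.mem_filter.mp hx
      simp only [Finset.mem_product, Finset.mem_filter, Finset.mem_Icc] at hx'
      have h1 : (0 : ℝ) < x.1 := by exact_mod_cast hx'.1.1.1.1
      have h2 : (0 : ℝ) < x.2 := by exact_mod_cast hx'.1.2.1
      have h3 : (t : ℝ) = x.1 * x.2 := by rw [← hx'.2]; push_cast; rfl
      unfold ff
      split_ifs with hc
      · rw [h3]
        apply le_of_eq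
        field_simp
      · simp
    refine (Finset.sum_le_sum hterm).trans ?_
    have hinj : Set.InjOn (fun x : ℕ × ℕ => x.2)
        ((((Finset.Icc 1 W).filter (fun v => v.Coprime M)) ×ˢ
        (Finset.Icc 1 V)).filter (fun x => x.1 * x.2 = t) : Finset (ℕ × ℕ)) := by
      intro x hx y hy hxy
      have hx := Finset.mem_filter.mp (Finset.mem_coe.mp hx)
      have hy := Finset.mem_filter.mp (Finset.mem_coe.mp hy)
      simp only [Finset.mem_product, Finset.mem_filter, Finset.mem_Icc] at hx hy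
      have hxy : x.2 = y.2 := hxy
      have e := hx.2.trans hy.2.symm
      rw [← hxy] at e
      exact Prod.ext (Nat.eq_of_mul_eq_mul_right hx.1.2.1 e) hxy
    rw [← Finset.sum_image (g := fun x : ℕ × ℕ => x.2)
      (f := fun m => (j : ℝ) ^ (m.primeFactorsList.length)) hinj]
    apply Finset.sum_le_sum_of_subset_of_nonneg
    · intro m hm
      obtain ⟨x, hx, rfl⟩ := Finset.mem_image.mp hm
      have hx := Finset.mem_filter.mp hx
      exact Nat.mem_divisors.mpr ⟨Dvd.intro_left _ hx.2, ht0⟩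
    · intro _ _ _; positivity
  · have e : ff (j + 1) M t = 0 := by unfold ff; rw [if_neg htM]
    rw [e]
    apply Finset.sum_nonpos
    intro x hx
    have hx' := Finset.mem_filter.mp hx
    simp only [Finset.mem_product, Finset.mem_filter, Finset.mem_Icc] at hx'
    have hc : ¬ x.2.Coprime M := by
      intro hc
      apply htM
      rw [← hx'.2]
      exact Nat.Coprime.mul_left hx'.1.1.2 hc
    unfold ff
    rw [if_neg hc, mul_zero]

theorem sum_ff_ge (M W k : ℕ) :
    (∑ v ∈ Finset.Icc 1 W with v.Coprime M, (1 : ℝ) / v) ^ k ≤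
      ∑ t ∈ Finset.Icc 1 (W ^ k), ff k M t := by
  induction k with
  | zero => simp [ff]
  | succ k ih =>
    have h0 : 0 ≤ ∑ v ∈ Finset.Icc 1 W with v.Coprime M, (1 : ℝ) / v :=
      Finset.sum_nonneg fun _ _ => by positivity
    calc (∑ v ∈ Finset.Icc 1 W with v.Coprime M, (1 : ℝ) / v) ^ (k + 1)
        = (∑ v ∈ Finset.Icc 1 W with v.Coprime M, (1 : ℝ) / v) *
          (∑ v ∈ Finset.Icc 1 W with v.Coprime M, (1 : ℝ) / v) ^ k := pow_succ' _ _
      _ ≤ (∑ v ∈ Finset.Icc 1 W with v.Coprime M, (1 : ℝ) / v) *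
          ∑ t ∈ Finset.Icc 1 (W ^ k), ff k M t := by gcongr
      _ ≤ ∑ t ∈ Finset.Icc 1 (W * W ^ k), ff (k + 1) M t := sum_ff_mul_le k M W (W ^ k)
      _ = _ := by rw [pow_succ']

/-! ### The sieve -/

/-- the sieve for the tuple `n + h i`, by the primes up to `Z` not dividing `M` -/
noncomputable def tupleSieve (k : ℕ) (h : Fin k → ℕ) (N Z M : ℕ) (hk : 1 ≤ k)
    (hM : ∀ p, p.Prime → p ≤ k → p ∣ M) : BoundingSieve where
  support := (Finset.Icc 1 N).image (tupleProd h)
  prodPrimes := ∏ p ∈ (Finset.Icc 1 Z).filter (fun p => p.Prime ∧ ¬ p ∣ M), p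
  prodPrimes_squarefree := by
    apply Finset.squarefree_prod_of_pairwise_isCoprime
    · intro p hp q hq hpq
      have hp' := (Finset.mem_filter.mp (Finset.mem_coe.mp hp)).2.1
      have hq' := (Finset.mem_filter.mp (Finset.mem_coe.mp hq)).2.1
      exact Nat.coprime_iff_isRelPrime.mp ((Nat.coprime_primes hp' hq').mpr hpq)
    · intro p hp
      exact (Finset.mem_filter.mp hp).2.1.prime.squarefree
  weights := fun _ => 1
  weights_nonneg := fun _ => zero_le_one
  totalMass := N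
  nu := ArithmeticFunction.prodPrimeFactors (fun p => (k : ℝ) / p)
  nu_mult := ArithmeticFunction.IsMultiplicative.prodPrimeFactors _
  nu_pos_of_prime := by
    intro p hp _
    rw [ArithmeticFunction.prodPrimeFactors_apply hp.ne_zero, hp.primeFactors,
      Finset.prod_singleton]
    have := hp.pos
    positivity
  nu_lt_one_of_prime := by
    intro p hp hdvd
    rw [ArithmeticFunction.prodPrimeFactors_apply hp.ne_zero, hp.primeFactors,
      Finset.prod_singleton]
    have hp0 : (0 : ℝ) < p := by exact_mod_cast hp.pos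
    rw [div_lt_one hp0]
    have h' : p ∣ ∏ p ∈ (Finset.Icc 1 Z).filter (fun p => p.Prime ∧ ¬ p ∣ M), p := hdvd
    obtain ⟨q, hq, hpq⟩ := (Prime.dvd_finsetProd_iff hp.prime _).mp h'
    have hq' := Finset.mem_filter.mp hq
    have e : p = q := (Nat.prime_dvd_prime_iff_eq hp hq'.2.1).mp hpq
    have hpM : ¬ p ∣ M := by rw [e]; exact hq'.2.2
    have : k < p := by
      by_contra hlt
      exact hpM (hM p hp (not_lt.mp hlt))
    exact_mod_cast this

section

variable {k : ℕ} {h : Fin k → ℕ} {N Z M : ℕ} {hk : 1 ≤ k}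
  {hM : ∀ p, p.Prime → p ≤ k → p ∣ M}

theorem tuple_dvd_prodPrimes {p : ℕ} (hp : p.Prime) (hpZ : p ≤ Z) (hpM : ¬ p ∣ M) :
    p ∣ (tupleSieve k h N Z M hk hM).prodPrimes := by
  have : p ∣ ∏ p ∈ (Finset.Icc 1 Z).filter (fun p => p.Prime ∧ ¬ p ∣ M), p :=
    Finset.dvd_prod_of_mem (fun p => p)
      (Finset.mem_filter.mpr ⟨Finset.mem_Icc.mpr ⟨hp.one_lt.le, hpZ⟩, hp, hpM⟩)
  exact this

theorem tuple_prime_dvd_prodPrimes {p : ℕ} (hp : p.Prime)
    (hd : p ∣ (tupleSieve k h N Z M hk hM).prodPrimes) : p ≤ Z ∧ ¬ p ∣ M := by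
  have h' : p ∣ ∏ p ∈ (Finset.Icc 1 Z).filter (fun p => p.Prime ∧ ¬ p ∣ M), p := hd
  obtain ⟨q, hq, hpq⟩ := (Prime.dvd_finsetProd_iff hp.prime _).mp h'
  have hq' := Finset.mem_filter.mp hq
  have : p = q := (Nat.prime_dvd_prime_iff_eq hp hq'.2.1).mp hpq
  rw [this]
  exact ⟨(Finset.mem_Icc.mp hq'.1).2, hq'.2.2⟩

theorem tupleProd_injOn (hk : 1 ≤ k) (h : Fin k → ℕ) (N : ℕ) :
    Set.InjOn (tupleProd h) ((Finset.Icc 1 N : Finset ℕ) : Set ℕ) := by
  intro x hx y hy hxy
  have hx := (Finset.mem_Icc.mp (Finset.mem_coe.mp hx)).1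
  have hy := (Finset.mem_Icc.mp (Finset.mem_coe.mp hy)).1
  rcases lt_trichotomy x y with h1 | h1 | h1
  · exact absurd hxy (tupleProd_strictMono hk h hx h1).ne
  · exact h1
  · exact absurd hxy.symm (tupleProd_strictMono hk h hy h1).ne

theorem tuple_siftedSum :
    (tupleSieve k h N Z M hk hM).siftedSum =
      (((Finset.Icc 1 N).filter (fun n =>
        (tupleSieve k h N Z M hk hM).prodPrimes.Coprime (tupleProd h n))).card : ℝ) := by
  unfold BoundingSieve.siftedSum
  change ∑ d ∈ (Finset.Icc 1 N).image (tupleProd h),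
    (if (tupleSieve k h N Z M hk hM).prodPrimes.Coprime d then (1 : ℝ) else 0) = _
  rw [Finset.sum_image (tupleProd_injOn hk h N), Finset.card_filter]
  push_cast
  rfl

theorem tuple_multSum (d : ℕ) :
    (tupleSieve k h N Z M hk hM).multSum d =
      (((Finset.Icc 1 N).filter (fun n => d ∣ tupleProd h n)).card : ℝ) := by
  unfold BoundingSieve.multSum
  change ∑ n ∈ (Finset.Icc 1 N).image (tupleProd h), (if d ∣ n then (1 : ℝ) else 0) = _
  rw [Finset.sum_image (tupleProd_injOn hk h N), Finset.card_filter]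
  push_cast
  rfl

theorem tuple_abs_rem_le
    (hinj : ∀ i j, i ≠ j → ∀ p, p.Prime → (h i : ZMod p) = (h j : ZMod p) → p ∣ M) {d : ℕ}
    (hd : d ∣ (tupleSieve k h N Z M hk hM).prodPrimes) :
    |(tupleSieve k h N Z M hk hM).rem d| ≤ d := by
  have hsq : Squarefree d :=
    (tupleSieve k h N Z M hk hM).prodPrimes_squarefree.squarefree_of_dvd hd
  unfold BoundingSieve.rem
  rw [tuple_multSum]
  change |_ - (ArithmeticFunction.prodPrimeFactors (fun p => (k : ℝ) / p)) d * (N : ℝ)| ≤ _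
  have hroots : ∀ p, p.Prime → p ∣ d → rc (tupleProd h) p = k := by
    intro p hp hpd
    apply rc_tuple_prime h hp
    intro i j hij heq
    exact (tuple_prime_dvd_prodPrimes hp (hpd.trans hd)).2 (hinj i j hij p hp heq)
  have hnu : (ArithmeticFunction.prodPrimeFactors (fun p => (k : ℝ) / p)) d =
      (rc (tupleProd h) d : ℝ) / d := by
    rw [ArithmeticFunction.prodPrimeFactors_apply hsq.ne_zero,
      rc_squarefree (tupleProd_polyLike h) k hsq hroots]
    have h1 : (d : ℝ) = ∏ p ∈ d.primeFactors, (p : ℝ) := by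
      conv_lhs => rw [← Nat.prod_primeFactors_of_squarefree hsq]
      push_cast
      rfl
    conv_rhs => rw [h1]
    rw [← Finset.prod_div_distrib]
  rw [hnu]
  refine (rc_abs_count_sub_le (tupleProd_polyLike h) d N
    (Nat.pos_of_ne_zero hsq.ne_zero)).trans ?_
  exact_mod_cast rc_le _ d

theorem tuple_selS_ge (W : ℕ) (hM0 : M ≠ 0) :
    (∑ w ∈ Finset.Icc 1 W, (1 : ℝ) / w) ^ k ≤
      ((M : ℝ) / (Nat.totient M : ℝ)) ^ k * selS (tupleSieve k h N (W ^ k) M hk hM) (W ^ k) := by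
  have h1 := harmonic_le_coprime M W hM0
  have h0 : 0 ≤ ∑ w ∈ Finset.Icc 1 W, (1 : ℝ) / w := Finset.sum_nonneg fun _ _ => by positivity
  have h2 := pow_le_pow_left₀ h0 h1 k
  refine h2.trans ?_
  rw [mul_pow]
  refine mul_le_mul_of_nonneg_left ?_ (by positivity)
  refine (sum_ff_ge M W k).trans ?_
  refine sum_le_selS' _ (W ^ k) (fun m => ff k M m) (fun n => ff_nonneg k M n)
    (by rw [ff_one]) (fun m n => ff_mul k M m n) ?_ ?_
  · intro p hp hpZ hf
    apply tuple_dvd_prodPrimes hp hpZ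
    intro hpM
    apply hf
    rw [ff_prime k M hp, if_pos hpM]
  · intro p hp hpd
    change ff k M p = (ArithmeticFunction.prodPrimeFactors (fun p => (k : ℝ) / p)) p
    rw [ff_prime k M hp, if_neg (tuple_prime_dvd_prodPrimes hp hpd).2,
      ArithmeticFunction.prodPrimeFactors_apply hp.ne_zero, hp.primeFactors,
      Finset.prod_singleton]

end

/-- The sieve bound in terms of the parameter `W`. -/
theorem tuple_count_le (k : ℕ) (hk : 1 ≤ k) (h : Fin k → ℕ) (N W M : ℕ) (hW : 1 ≤ W)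
    (hM0 : M ≠ 0) (hM : ∀ p, p.Prime → p ≤ k → p ∣ M)
    (hinj : ∀ i j, i ≠ j → ∀ p, p.Prime → (h i : ZMod p) = (h j : ZMod p) → p ∣ M) :
    (((Finset.Icc 1 N).filter (fun n => ∀ i, (n + h i).Prime)).card : ℝ) ≤
      (W : ℝ) ^ k + ((M : ℝ) / (Nat.totient M : ℝ)) ^ k * N / (Real.log (W + 1)) ^ k +
        (W : ℝ) ^ (4 * k) := by
  set s := tupleSieve k h N (W ^ k) M hk hM with hs
  have hZ : 1 ≤ W ^ k := Nat.one_le_pow _ _ hW
  have hsel := selberg_bound s (W ^ k) hZ
  have h1 : (((Finset.Icc 1 N).filter (fun n => ∀ i, (n + h i).Prime)).card : ℝ)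
      ≤ (W : ℝ) ^ k + s.siftedSum := by
    rw [hs, tuple_siftedSum]
    have hsub : (Finset.Icc 1 N).filter (fun n => ∀ i, (n + h i).Prime) ⊆
        (Finset.Icc 1 (W ^ k)) ∪ ((Finset.Icc 1 N).filter (fun n =>
          (tupleSieve k h N (W ^ k) M hk hM).prodPrimes.Coprime (tupleProd h n))) := by
      intro p hp
      have hp' := Finset.mem_filter.mp hp
      have hpI := Finset.mem_Icc.mp hp'.1
      rw [Finset.mem_union]
      by_cases hpW : p ≤ W ^ k
      · exact Or.inl (Finset.mem_Icc.mpr ⟨hpI.1, hpW⟩)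
      · right
        refine Finset.mem_filter.mpr ⟨hp'.1, ?_⟩
        unfold tupleProd
        apply Nat.Coprime.prod_right
        intro i _
        refine ((Nat.Prime.coprime_iff_not_dvd (hp'.2 i)).mpr fun hd => hpW ?_).symm
        have := (tuple_prime_dvd_prodPrimes (hp'.2 i) hd).1
        omega
    have := (Finset.card_le_card hsub).trans (Finset.card_union_le _ _)
    rw [Nat.card_Icc, Nat.add_sub_cancel] at this
    exact_mod_cast this
  have hharm : Real.log ((W : ℝ) + 1) ≤ ∑ w ∈ Finset.Icc 1 W, (1 : ℝ) / w := by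
    have h := log_add_one_le_harmonic W
    rw [harmonic_eq_sum_Icc] at h
    push_cast at h
    simpa [one_div] using h
  have hWr : (1 : ℝ) ≤ W := by exact_mod_cast hW
  have hlog : 0 < Real.log ((W : ℝ) + 1) := Real.log_pos (by linarith)
  have hS := selS_pos s (W ^ k) hZ
  have hSge : (∑ w ∈ Finset.Icc 1 W, (1 : ℝ) / w) ^ k ≤
      ((M : ℝ) / (Nat.totient M : ℝ)) ^ k * selS s (W ^ k) := tuple_selS_ge W hM0
  have hmain : s.totalMass / selS s (W ^ k)
      ≤ ((M : ℝ) / (Nat.totient M : ℝ)) ^ k * N / (Real.log (W + 1)) ^ k := by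
    change (N : ℝ) / selS s (W ^ k) ≤ _
    rw [div_le_div_iff₀ hS (by positivity)]
    have h3 : (Real.log ((W : ℝ) + 1)) ^ k
        ≤ ((M : ℝ) / (Nat.totient M : ℝ)) ^ k * selS s (W ^ k) :=
      (pow_le_pow_left₀ hlog.le hharm k).trans hSge
    calc (N : ℝ) * (Real.log ((W : ℝ) + 1)) ^ k
        ≤ (N : ℝ) * (((M : ℝ) / (Nat.totient M : ℝ)) ^ k * selS s (W ^ k)) := by gcongr
      _ = ((M : ℝ) / (Nat.totient M : ℝ)) ^ k * N * selS s (W ^ k) := by ring
  have herr : ∑ d1 ∈ s.prodPrimes.divisors with d1 ≤ W ^ k,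
      ∑ d2 ∈ s.prodPrimes.divisors with d2 ≤ W ^ k, |s.rem (d1.lcm d2)| ≤
        (W : ℝ) ^ (4 * k) := by
    have hterm : ∀ d1 ∈ s.prodPrimes.divisors.filter (fun d => d ≤ W ^ k),
        ∀ d2 ∈ s.prodPrimes.divisors.filter (fun d => d ≤ W ^ k),
        |s.rem (d1.lcm d2)| ≤ (W : ℝ) ^ (2 * k) := by
      intro d1 h1 d2 h2
      have h1' := Finset.mem_filter.mp h1
      have h2' := Finset.mem_filter.mp h2
      have hd1 := Nat.dvd_of_mem_divisors h1'.1
      have hd2 := Nat.dvd_of_mem_divisors h2'.1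
      have h10 := Nat.pos_of_mem_divisors h1'.1
      have h20 := Nat.pos_of_mem_divisors h2'.1
      refine (tuple_abs_rem_le hinj (Nat.lcm_dvd hd1 hd2)).trans ?_
      have : d1.lcm d2 ≤ W ^ (2 * k) := by
        calc d1.lcm d2 ≤ d1 * d2 := Nat.le_of_dvd (Nat.mul_pos h10 h20) (Nat.lcm_dvd_mul d1 d2)
          _ ≤ W ^ k * W ^ k := Nat.mul_le_mul h1'.2 h2'.2
          _ = W ^ (2 * k) := by ring
      exact_mod_cast this
    have hcard : ((s.prodPrimes.divisors.filter (fun d => d ≤ W ^ k)).card : ℝ) ≤ (W : ℝ) ^ k := by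
      have : (s.prodPrimes.divisors.filter (fun d => d ≤ W ^ k)).card ≤ W ^ k := by
        have hsub : s.prodPrimes.divisors.filter (fun d => d ≤ W ^ k) ⊆ Finset.Icc 1 (W ^ k) := by
          intro d hd
          have hd' := Finset.mem_filter.mp hd
          exact Finset.mem_Icc.mpr ⟨Nat.pos_of_mem_divisors hd'.1, hd'.2⟩
        exact (Finset.card_le_card hsub).trans (by simp)
      exact_mod_cast this
    calc ∑ d1 ∈ s.prodPrimes.divisors with d1 ≤ W ^ k,
          ∑ d2 ∈ s.prodPrimes.divisors with d2 ≤ W ^ k, |s.rem (d1.lcm d2)|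
        ≤ ∑ d1 ∈ s.prodPrimes.divisors with d1 ≤ W ^ k,
          ∑ d2 ∈ s.prodPrimes.divisors with d2 ≤ W ^ k, (W : ℝ) ^ (2 * k) :=
          Finset.sum_le_sum fun d1 h1 => Finset.sum_le_sum fun d2 h2 => hterm d1 h1 d2 h2
      _ = ((s.prodPrimes.divisors.filter (fun d => d ≤ W ^ k)).card : ℝ)
          * (((s.prodPrimes.divisors.filter (fun d => d ≤ W ^ k)).card : ℝ) *
            (W : ℝ) ^ (2 * k)) := by
          simp only [Finset.sum_const, nsmul_eq_mul]
      _ ≤ (W : ℝ) ^ k * ((W : ℝ) ^ k * (W : ℝ) ^ (2 * k)) := by gcongr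
      _ = (W : ℝ) ^ (4 * k) := by ring
  linarith

/-- `(log y)^k ≤ C √y` -/
theorem log_pow_le (k : ℕ) (y : ℝ) (hy : 1 ≤ y) :
    (Real.log y) ^ k ≤ (2 * (k + 1)) ^ k * Real.sqrt y := by
  have hy0 : 0 < y := by linarith
  have hk : (0 : ℝ) < 2 * (k + 1) := by positivity
  have h1 : Real.log y ≤ (2 * (k + 1)) * y ^ (1 / (2 * ((k : ℝ) + 1))) := by
    have h2 : Real.log (y ^ (1 / (2 * ((k : ℝ) + 1)))) ≤ y ^ (1 / (2 * ((k : ℝ) + 1))) :=
      (Real.log_le_sub_one_of_pos (Real.rpow_pos_of_pos hy0 _)).trans (by linarith)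
    rw [Real.log_rpow hy0] at h2
    calc Real.log y = (2 * (k + 1)) * (1 / (2 * ((k : ℝ) + 1)) * Real.log y) := by
          field_simp
      _ ≤ _ := by gcongr
  have h0 : 0 ≤ Real.log y := Real.log_nonneg hy
  calc (Real.log y) ^ k ≤ ((2 * (k + 1)) * y ^ (1 / (2 * ((k : ℝ) + 1)))) ^ k :=
        pow_le_pow_left₀ h0 h1 k
    _ = (2 * (k + 1)) ^ k * y ^ (1 / (2 * ((k : ℝ) + 1)) * k) := by
        rw [mul_pow, ← Real.rpow_natCast (y ^ (1 / (2 * ((k : ℝ) + 1)))), ← Real.rpow_mul hy0.le]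
    _ ≤ (2 * (k + 1)) ^ k * y ^ (1 / 2 : ℝ) := by
        have : 1 / (2 * ((k : ℝ) + 1)) * k ≤ 1 / 2 := by
          rw [div_mul_eq_mul_div, one_mul, div_le_iff₀ hk]
          linarith
        have h3 := Real.rpow_le_rpow_of_exponent_le hy this
        gcongr
    _ = _ := by rw [Real.sqrt_eq_rpow]

/-- **Upper bound sieve for prime `k`-tuples**, uniform in the shifts. -/
theorem tuple_sieve (k : ℕ) (hk : 1 ≤ k) : ∃ C : ℝ, 0 < C ∧ ∀ (N : ℕ) (h : Fin k → ℕ) (M : ℕ),
    2 ≤ N → M ≠ 0 → (∀ p, p.Prime → p ≤ k → p ∣ M) →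
    (∀ i j, i ≠ j → ∀ p, p.Prime → (h i : ZMod p) = (h j : ZMod p) → p ∣ M) →
    (((Finset.Icc 1 N).filter (fun n => ∀ i, (n + h i).Prime)).card : ℝ) ≤
      C * ((M : ℝ) / (Nat.totient M : ℝ)) ^ k * N / (Real.log N) ^ k := by
  refine ⟨2 * (2 * (k + 1)) ^ k + (8 * k) ^ k, by positivity, ?_⟩
  intro N h M hN hM0 hM hinj
  have hNr : (2 : ℝ) ≤ N := by exact_mod_cast hN
  have hN0 : (0 : ℝ) < N := by linarith
  have hlogN : 0 < Real.log N := Real.log_pos (by linarith)
  have hphi : 1 ≤ ((M : ℝ) / (Nat.totient M : ℝ)) ^ k :=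
    one_le_pow₀ (one_le_div_totient M (Nat.pos_of_ne_zero hM0))
  have hkr : (1 : ℝ) ≤ k := by exact_mod_cast hk
  have hsqrt0 : 0 < Real.sqrt N := Real.sqrt_pos.mpr hN0
  have hlog2 := log_pow_le k N (by linarith)
  have hsq : Real.sqrt N ≤ (2 * (k + 1)) ^ k * N / (Real.log N) ^ k := by
    rw [le_div_iff₀ (by positivity)]
    calc Real.sqrt N * (Real.log N) ^ k ≤ Real.sqrt N * ((2 * (k + 1)) ^ k * Real.sqrt N) := by
          gcongr
      _ = (2 * (k + 1)) ^ k * (Real.sqrt N * Real.sqrt N) := by ring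
      _ = (2 * (k + 1)) ^ k * N := by rw [Real.mul_self_sqrt hN0.le]
  set W := ⌊(N : ℝ) ^ (1 / (8 * k) : ℝ)⌋₊ with hW
  have hexp : 0 ≤ (1 / (8 * k) : ℝ) := by positivity
  have hpow1 : (1 : ℝ) ≤ (N : ℝ) ^ (1 / (8 * k) : ℝ) := Real.one_le_rpow (by linarith) hexp
  have hW1 : 1 ≤ W := Nat.one_le_floor_iff _ |>.mpr hpow1
  have hWle : (W : ℝ) ≤ (N : ℝ) ^ (1 / (8 * k) : ℝ) := Nat.floor_le (by positivity)
  have hWlt : (N : ℝ) ^ (1 / (8 * k) : ℝ) < W + 1 := Nat.lt_floor_add_one _
  have hW8 : (W : ℝ) ^ (4 * k) ≤ Real.sqrt N := by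
    calc (W : ℝ) ^ (4 * k) ≤ ((N : ℝ) ^ (1 / (8 * k) : ℝ)) ^ (4 * k) := by gcongr
      _ = Real.sqrt N := by
        rw [← Real.rpow_natCast, ← Real.rpow_mul hN0.le, Real.sqrt_eq_rpow]
        congr 1
        push_cast
        field_simp
        norm_num
  have hWr : (1 : ℝ) ≤ W := by exact_mod_cast hW1
  have hW2 : (W : ℝ) ^ k ≤ (W : ℝ) ^ (4 * k) := pow_le_pow_right₀ hWr (by omega)
  have hlogW : Real.log N / (8 * k) ≤ Real.log ((W : ℝ) + 1) := by
    have : Real.log ((N : ℝ) ^ (1 / (8 * k) : ℝ)) ≤ Real.log ((W : ℝ) + 1) :=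
      Real.log_le_log (by positivity) hWlt.le
    rw [Real.log_rpow hN0] at this
    calc Real.log N / (8 * k) = 1 / (8 * k) * Real.log N := by ring
      _ ≤ _ := this
  have hmain := tuple_count_le k hk h N W M hW1 hM0 hM hinj
  have hm : ((M : ℝ) / (Nat.totient M : ℝ)) ^ k * N / (Real.log ((W : ℝ) + 1)) ^ k
      ≤ (8 * k) ^ k * ((M : ℝ) / (Nat.totient M : ℝ)) ^ k * N / (Real.log N) ^ k := by
    have hl : (Real.log N / (8 * k)) ^ k ≤ (Real.log ((W : ℝ) + 1)) ^ k :=
      pow_le_pow_left₀ (by positivity) hlogW k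
    calc ((M : ℝ) / (Nat.totient M : ℝ)) ^ k * N / (Real.log ((W : ℝ) + 1)) ^ k
        ≤ ((M : ℝ) / (Nat.totient M : ℝ)) ^ k * N / (Real.log N / (8 * k)) ^ k := by gcongr
      _ = (8 * k) ^ k * ((M : ℝ) / (Nat.totient M : ℝ)) ^ k * N / (Real.log N) ^ k := by
        have e : (Real.log N / (8 * k)) ^ k = (Real.log N) ^ k / (8 * k) ^ k := div_pow _ _ _
        rw [e, div_div_eq_mul_div]
        ring
  have herr : 2 * Real.sqrt N ≤
      2 * (2 * (k + 1)) ^ k * ((M : ℝ) / (Nat.totient M : ℝ)) ^ k * N / (Real.log N) ^ k := by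
    calc 2 * Real.sqrt N ≤ 2 * ((2 * (k + 1)) ^ k * N / (Real.log N) ^ k) := by gcongr
      _ = 2 * (2 * (k + 1)) ^ k * 1 * N / (Real.log N) ^ k := by ring
      _ ≤ _ := by gcongr
  have hfin : (2 * (2 * (k + 1)) ^ k + (8 * k) ^ k) * ((M : ℝ) / (Nat.totient M : ℝ)) ^ k * N /
      (Real.log N) ^ k =
      2 * (2 * (k + 1)) ^ k * ((M : ℝ) / (Nat.totient M : ℝ)) ^ k * N / (Real.log N) ^ k +
      (8 * k) ^ k * ((M : ℝ) / (Nat.totient M : ℝ)) ^ k * N / (Real.log N) ^ k := by ring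
  rw [hfin]
  linarith

end Pool.Agent.Lib.Sieve
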