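import Mathlib
import Pool.Agent.Lib.Sieve.Smooth

/-!
# The Erdős–Rankin covering argument for an arbitrary finite set of integers
-/

open Finset Filter

namespace Pool.Agent.Lib.Sieve

/-! ### Step 1: a common residue for the middle primes, by averaging -/

theorem card_dist_le (D : Finset ℕ) (B : Finset ℕ) (a : ℕ) :
    (B.filter (fun b : ℕ => ((a : ℤ) - (b : ℤ)).natAbs ∈ D)).card ≤ 2 * D.card := by
  apply Finset.card_le_mul_card_image_of_maps_to (f := fun b : ℕ => ((a : ℤ) - (b : ℤ)).natAbs)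
  · intro b hb
    exact (Finset.mem_filter.mp hb).2
  · intro d _
    have hsub : ((B.filter (fun b : ℕ => ((a : ℤ) - (b : ℤ)).natAbs ∈ D)).filter
        (fun b : ℕ => ((a : ℤ) - (b : ℤ)).natAbs = d)) ⊆ {a - d, a + d} := by
      intro b hb
      have hb := (Finset.mem_filter.mp hb).2
      rw [Finset.mem_insert, Finset.mem_singleton]
      omega
    exact (Finset.card_le_card hsub).trans Finset.card_le_two

theorem exists_shift (Y : ℕ) (hY : 1 ≤ Y) (A D : Finset ℕ) :
    ∃ b ∈ Finset.Icc 1 Y, ((A.filter (fun a : ℕ => ((a : ℤ) - (b : ℤ)).natAbs ∈ D)).card : ℝ)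
      ≤ 2 * A.card * D.card / Y := by
  have hne : (Finset.Icc 1 Y).Nonempty := ⟨1, Finset.mem_Icc.mpr ⟨le_rfl, hY⟩⟩
  have hY0 : (0 : ℝ) < Y := by exact_mod_cast hY
  have hsum : ∑ b ∈ Finset.Icc 1 Y, ((A.filter (fun a : ℕ => ((a : ℤ) - (b : ℤ)).natAbs ∈ D)).card : ℝ)
      ≤ ∑ b ∈ Finset.Icc 1 Y, (2 * A.card * D.card / Y : ℝ) := by
    have h1 : ∑ b ∈ Finset.Icc 1 Y, (A.filter (fun a : ℕ => ((a : ℤ) - (b : ℤ)).natAbs ∈ D)).card
        = ∑ a ∈ A, ((Finset.Icc 1 Y).filter (fun b : ℕ => ((a : ℤ) - (b : ℤ)).natAbs ∈ D)).card := by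
      simp_rw [Finset.card_filter]
      exact Finset.sum_comm
    have h2 : ∑ a ∈ A, ((Finset.Icc 1 Y).filter (fun b : ℕ => ((a : ℤ) - (b : ℤ)).natAbs ∈ D)).card
        ≤ A.card * (2 * D.card) := by
      calc ∑ a ∈ A, ((Finset.Icc 1 Y).filter (fun b : ℕ => ((a : ℤ) - (b : ℤ)).natAbs ∈ D)).card
          ≤ ∑ a ∈ A, 2 * D.card := Finset.sum_le_sum fun a _ => card_dist_le D _ a
        _ = A.card * (2 * D.card) := by rw [Finset.sum_const, smul_eq_mul]
    rw [Finset.sum_const, Nat.card_Icc, nsmul_eq_mul]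
    have h3 : ((Y + 1 - 1 : ℕ) : ℝ) * (2 * A.card * D.card / Y) = A.card * (2 * D.card) := by
      rw [Nat.add_sub_cancel]
      field_simp
    rw [h3]
    have := h1.trans_le h2
    exact_mod_cast this
  obtain ⟨b, hb1, hb⟩ := Finset.exists_le_of_sum_le hne hsum
  exact ⟨b, hb1, hb⟩

/-! ### Step 2: greedy choice for the small primes -/

theorem exists_class (R : Finset ℕ) (r : ℕ) (hr : 1 ≤ r) :
    ∃ c : ℕ, ((R.filter (fun a => ¬ a ≡ c [MOD r])).card : ℝ) ≤ (1 - 1 / (r : ℝ)) * R.card := by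
  have hr0 : (0 : ℝ) < r := by exact_mod_cast hr
  have hne : (Finset.range r).Nonempty := ⟨0, Finset.mem_range.mpr hr⟩
  have hfib : R.card = ∑ c ∈ Finset.range r, (R.filter (fun a => a % r = c)).card :=
    Finset.card_eq_sum_card_fiberwise (f := fun a => a % r) (t := Finset.range r) (fun a _ =>
      Finset.mem_coe.mpr (Finset.mem_range.mpr (Nat.mod_lt _ hr)))
  have hsum : ∑ c ∈ Finset.range r, ((R.card : ℝ) / r)
      ≤ ∑ c ∈ Finset.range r, ((R.filter (fun a => a % r = c)).card : ℝ) := by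
    rw [Finset.sum_const, Finset.card_range, nsmul_eq_mul, mul_div_cancel₀ _ hr0.ne']
    exact_mod_cast hfib.le
  obtain ⟨c, hc, hcle⟩ := Finset.exists_le_of_sum_le hne hsum
  refine ⟨c, ?_⟩
  have hsplit := Finset.card_filter_add_card_filter_not (s := R) (fun a => a % r = c)
  have heq : R.filter (fun a => ¬ a ≡ c [MOD r]) = R.filter (fun a => ¬ a % r = c) := by
    refine Finset.filter_congr fun a _ => ?_
    unfold Nat.ModEq
    rw [Nat.mod_eq_of_lt (Finset.mem_range.mp hc)]
  rw [heq]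
  have hsplit' : ((R.filter (fun a => a % r = c)).card : ℝ)
      + ((R.filter (fun a => ¬ a % r = c)).card : ℝ) = R.card := by exact_mod_cast hsplit
  have : (R.card : ℝ) / r = 1 / (r : ℝ) * R.card := by ring
  linarith

theorem exists_greedy (A : Finset ℕ) (S : Finset ℕ) (hS : ∀ r ∈ S, 1 ≤ r) :
    ∃ c : ℕ → ℕ, ((A.filter (fun a => ∀ r ∈ S, ¬ a ≡ c r [MOD r])).card : ℝ)
      ≤ (∏ r ∈ S, (1 - 1 / (r : ℝ))) * A.card := by
  classical
  induction S using Finset.induction_on with
  | empty =>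
    refine ⟨fun _ => 0, ?_⟩
    simp
  | insert r S hrS ih =>
    obtain ⟨c, hc⟩ := ih (fun q hq => hS q (Finset.mem_insert_of_mem hq))
    have hr := hS r (Finset.mem_insert_self _ _)
    obtain ⟨c0, hc0⟩ := exists_class (A.filter (fun a => ∀ q ∈ S, ¬ a ≡ c q [MOD q])) r hr
    refine ⟨fun q => if q = r then c0 else c q, ?_⟩
    have heq : A.filter (fun a => ∀ q ∈ insert r S, ¬ a ≡ (if q = r then c0 else c q) [MOD q])
        = (A.filter (fun a => ∀ q ∈ S, ¬ a ≡ c q [MOD q])).filter (fun a => ¬ a ≡ c0 [MOD r]) := by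
      ext a
      simp only [Finset.mem_filter, Finset.mem_insert]
      constructor
      · rintro ⟨ha, h⟩
        refine ⟨⟨ha, fun q hq => ?_⟩, ?_⟩
        · have := h q (Or.inr hq)
          have hne : q ≠ r := by rintro rfl; exact hrS hq
          rwa [if_neg hne] at this
        · have := h r (Or.inl rfl)
          rwa [if_pos rfl] at this
      · rintro ⟨⟨ha, h⟩, h'⟩
        refine ⟨ha, fun q hq => ?_⟩
        rcases hq with rfl | hq
        · rw [if_pos rfl]; exact h'
        · have hne : q ≠ r := by rintro rfl; exact hrS hq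
          rw [if_neg hne]; exact h q hq
    rw [heq, Finset.prod_insert hrS]
    have hr1 : 0 ≤ 1 - 1 / (r : ℝ) := by
      have : (1 : ℝ) ≤ r := by exact_mod_cast hr
      rw [sub_nonneg, div_le_one (by linarith)]
      exact this
    calc _ ≤ _ := hc0
      _ ≤ (1 - 1 / (r : ℝ)) * ((∏ q ∈ S, (1 - 1 / (q : ℝ))) * A.card) := by gcongr
      _ = _ := by ring

/-! ### Step 3: one prime for each survivor -/

theorem exists_one_each (A : Finset ℕ) (S : Finset ℕ) :
    ∃ c : ℕ → ℕ, (A.filter (fun a => ∀ r ∈ S, ¬ a ≡ c r [MOD r])).card ≤ A.card - S.card := by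
  classical
  induction S using Finset.induction_on with
  | empty =>
    refine ⟨fun _ => 0, ?_⟩
    simp
  | insert r S hrS ih =>
    obtain ⟨c, hc⟩ := ih
    set R := A.filter (fun a => ∀ q ∈ S, ¬ a ≡ c q [MOD q]) with hR
    obtain ⟨c0, hc0⟩ : ∃ c0 : ℕ, (R.filter (fun a => ¬ a ≡ c0 [MOD r])).card ≤ R.card - 1 := by
      rcases R.eq_empty_or_nonempty with h | ⟨a0, ha0⟩
      · exact ⟨0, by simp [h]⟩
      · refine ⟨a0, ?_⟩
        have : R.filter (fun a => ¬ a ≡ a0 [MOD r]) ⊆ R.erase a0 := by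
          intro a ha
          have ha := Finset.mem_filter.mp ha
          refine Finset.mem_erase.mpr ⟨?_, ha.1⟩
          rintro rfl
          exact ha.2 (Nat.ModEq.refl _)
        have := Finset.card_le_card this
        rwa [Finset.card_erase_of_mem ha0] at this
    refine ⟨fun q => if q = r then c0 else c q, ?_⟩
    have heq : A.filter (fun a => ∀ q ∈ insert r S, ¬ a ≡ (if q = r then c0 else c q) [MOD q])
        = R.filter (fun a => ¬ a ≡ c0 [MOD r]) := by
      ext a
      simp only [hR, Finset.mem_filter, Finset.mem_insert]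
      constructor
      · rintro ⟨ha, h⟩
        refine ⟨⟨ha, fun q hq => ?_⟩, ?_⟩
        · have := h q (Or.inr hq)
          have hne : q ≠ r := by rintro rfl; exact hrS hq
          rwa [if_neg hne] at this
        · have := h r (Or.inl rfl)
          rwa [if_pos rfl] at this
      · rintro ⟨⟨ha, h⟩, h'⟩
        refine ⟨ha, fun q hq => ?_⟩
        rcases hq with rfl | hq
        · rw [if_pos rfl]; exact h'
        · have hne : q ≠ r := by rintro rfl; exact hrS hq
          rw [if_neg hne]; exact h q hq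
    rw [heq, Finset.card_insert_of_notMem hrS]
    omega

/-- the integers `d ≤ Y` with no prime factor in `(w, y]` -/
def gapFree (Y w y : ℕ) : Finset ℕ :=
  (Finset.Icc 1 Y).filter (fun d => ∀ p ∈ d.primeFactors, p ≤ w ∨ y < p)

/-! ### The covering lemma, abstract form -/

theorem covering_abstract (z w y Y : ℕ) (hw2 : 2 ≤ w) (hwy : w ≤ y) (hyz : y ≤ z) (hY : 1 ≤ Y)
    (A : Finset ℕ) (hA : A ⊆ Finset.Icc 1 Y)
    (hcard : (∏ r ∈ (Finset.Icc 3 w).filter Nat.Prime, (1 - 1 / (r : ℝ))) *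
      (2 * A.card * (gapFree Y w y).card / Y + 1) ≤
        (((Finset.Ioc y z).filter Nat.Prime).card : ℝ)) :
    ∃ N : ℕ, 2 ∣ N ∧ ∀ a ∈ A, ∃ r : ℕ, r.Prime ∧ r ≤ z ∧ N ≡ a [MOD r] := by
  classical
  obtain ⟨b, hbY, hb⟩ := exists_shift Y hY A (gapFree Y w y)
  set A1 := A.filter (fun a : ℕ => a = b ∨ ((a : ℤ) - (b : ℤ)).natAbs ∈ gapFree Y w y) with hA1
  have hA1card : (A1.card : ℝ) ≤ 2 * A.card * (gapFree Y w y).card / Y + 1 := by
    have h1 : A1.card ≤ (A.filter (fun a : ℕ => ((a : ℤ) - (b : ℤ)).natAbs ∈ gapFree Y w y)).card + 1 := by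
      have hsub : A1 ⊆ insert b (A.filter (fun a : ℕ => ((a : ℤ) - (b : ℤ)).natAbs ∈ gapFree Y w y)) := by
        intro a ha
        have ha := Finset.mem_filter.mp ha
        rw [Finset.mem_insert, Finset.mem_filter]
        rcases ha.2 with h | h
        · exact Or.inl h
        · exact Or.inr ⟨ha.1, h⟩
      exact (Finset.card_le_card hsub).trans (Finset.card_insert_le _ _)
    have h2 : (A1.card : ℝ)
        ≤ ((A.filter (fun a : ℕ => ((a : ℤ) - (b : ℤ)).natAbs ∈ gapFree Y w y)).card : ℝ) + 1 := by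
      exact_mod_cast h1
    linarith
  set S1 := (Finset.Icc 3 w).filter Nat.Prime with hS1
  set S3 := (Finset.Ioc y z).filter Nat.Prime with hS3
  obtain ⟨c1, hc1⟩ := exists_greedy A1 S1 (fun r hr => (Finset.mem_filter.mp hr).2.one_lt.le)
  set A2 := A1.filter (fun a => ∀ r ∈ S1, ¬ a ≡ c1 r [MOD r]) with hA2
  obtain ⟨c3, hc3⟩ := exists_one_each A2 S3
  have hprod0 : 0 ≤ ∏ r ∈ S1, (1 - 1 / (r : ℝ)) := by
    apply Finset.prod_nonneg
    intro r hr
    have : (1 : ℝ) ≤ r := by exact_mod_cast (Finset.mem_filter.mp hr).2.one_lt.le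
    rw [sub_nonneg, div_le_one (by linarith)]
    exact this
  have hA2card : A2.card ≤ S3.card := by
    have : (A2.card : ℝ) ≤ S3.card := by
      calc (A2.card : ℝ) ≤ (∏ r ∈ S1, (1 - 1 / (r : ℝ))) * A1.card := hc1
        _ ≤ (∏ r ∈ S1, (1 - 1 / (r : ℝ))) * (2 * A.card * (gapFree Y w y).card / Y + 1) := by
            gcongr
        _ ≤ S3.card := hcard
    exact_mod_cast this
  have hempty : A2.filter (fun a => ∀ r ∈ S3, ¬ a ≡ c3 r [MOD r]) = ∅ := by
    rw [← Finset.card_eq_zero]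
    omega
  -- the residue function
  set c : ℕ → ℕ := fun r => if r = 2 then 0 else if r ≤ w then c1 r else if r ≤ y then b else c3 r
    with hc
  set T := (Finset.Icc 2 z).filter Nat.Prime ∪ {2} with hT
  have hTp : ∀ r ∈ T, r.Prime := by
    intro r hr
    rcases Finset.mem_union.mp hr with h | h
    · exact (Finset.mem_filter.mp h).2
    · rw [Finset.mem_singleton] at h; rw [h]; exact Nat.prime_two
  have hTne : ∀ r ∈ T, (fun r => r) r ≠ 0 := fun r hr => (hTp r hr).ne_zero
  have hTcop : Set.Pairwise (T : Set ℕ) (Function.onFun Nat.Coprime (fun r => r)) := by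
    intro p hp q hq hpq
    exact (Nat.coprime_primes (hTp p hp) (hTp q hq)).mpr hpq
  obtain ⟨N, hN⟩ := Nat.chineseRemainderOfFinset c (fun r => r) T hTne hTcop
  have hNr : ∀ r : ℕ, r.Prime → r ≤ z → N ≡ c r [MOD r] := by
    intro r hr hrz
    apply hN
    apply Finset.mem_union_left
    exact Finset.mem_filter.mpr ⟨Finset.mem_Icc.mpr ⟨hr.two_le, hrz⟩, hr⟩
  refine ⟨N, ?_, ?_⟩
  · have h2 : N ≡ c 2 [MOD 2] := hN 2 (Finset.mem_union_right _ (Finset.mem_singleton_self 2))
    have : c 2 = 0 := by simp [hc]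
    rw [this] at h2
    exact Nat.modEq_zero_iff_dvd.mp h2
  · intro a ha
    by_cases h1 : a ∈ A1
    · by_cases h2 : a ∈ A2
      · -- step 3
        have h3 : a ∉ A2.filter (fun a => ∀ r ∈ S3, ¬ a ≡ c3 r [MOD r]) := by
          rw [hempty]; exact Finset.notMem_empty a
        rw [Finset.mem_filter] at h3
        push Not at h3
        obtain ⟨r, hr, har⟩ := h3 h2
        have hr' := Finset.mem_filter.mp hr
        have hrI := Finset.mem_Ioc.mp hr'.1
        refine ⟨r, hr'.2, hrI.2, ?_⟩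
        have hcr : c r = c3 r ∨ r = 2 := by
          by_cases hr2 : r = 2
          · exact Or.inr hr2
          · left
            simp only [hc, if_neg hr2]
            rw [if_neg (by omega), if_neg (by omega)]
        rcases hcr with hcr | hr2
        · have := hNr r hr'.2 hrI.2
          rw [hcr] at this
          exact this.trans har.symm
        · omega
      · -- step 2
        have h3 : ¬ ∀ r ∈ S1, ¬ a ≡ c1 r [MOD r] := fun h => h2 (Finset.mem_filter.mpr ⟨h1, h⟩)
        push Not at h3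
        obtain ⟨r, hr, har⟩ := h3
        have hr' := Finset.mem_filter.mp hr
        have hrI := Finset.mem_Icc.mp hr'.1
        refine ⟨r, hr'.2, by omega, ?_⟩
        have hcr : c r = c1 r := by
          simp only [hc]
          rw [if_neg (by omega), if_pos hrI.2]
        have := hNr r hr'.2 (by omega)
        rw [hcr] at this
        exact this.trans har.symm
    · -- step 1
      have h3 : ¬ (a = b ∨ ((a : ℤ) - (b : ℤ)).natAbs ∈ gapFree Y w y) := fun h =>
        h1 (Finset.mem_filter.mpr ⟨ha, h⟩)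
      rw [not_or] at h3
      obtain ⟨hab, h4⟩ := h3
      have haI := Finset.mem_Icc.mp (hA ha)
      have hbI := Finset.mem_Icc.mp hbY
      have h5 : ¬ ∀ p ∈ (((a : ℤ) - (b : ℤ)).natAbs).primeFactors, p ≤ w ∨ y < p := by
        intro h
        exact h4 (Finset.mem_filter.mpr ⟨Finset.mem_Icc.mpr ⟨by omega, by omega⟩, h⟩)
      push Not at h5
      obtain ⟨r, hr, hwr, hry⟩ := h5
      have hrp := Nat.prime_of_mem_primeFactors hr
      have hrd : r ∣ ((a : ℤ) - (b : ℤ)).natAbs := Nat.dvd_of_mem_primeFactors hr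
      refine ⟨r, hrp, by omega, ?_⟩
      have hcr : c r = b := by
        simp only [hc]
        rw [if_neg (by omega), if_neg (by omega), if_pos hry]
      have h6 := hNr r hrp (by omega)
      rw [hcr] at h6
      refine h6.trans ?_
      have h7 : (r : ℤ) ∣ (a : ℤ) - (b : ℤ) := Int.natCast_dvd.mpr hrd
      exact (Nat.modEq_iff_dvd.mpr h7)

end Pool.Agent.Lib.Sieve
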