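import Mathlib
import Pool.Agent.Lib.Sieve.Covering
import Pool.Agent.Lib.MP_5d7b92_nt.Count

/-!
# Quantitative Erdős–Rankin covering lemma for an arbitrary set of integers
-/

open Finset Filter

namespace Pool.Agent.Lib.Sieve

open Pool.Agent.Lib.MP_5d7b92_nt

/-- integers up to `Y` with a prime factor above `y` -/
theorem card_large_factor_le (Y y : ℕ) (hy : 2 ≤ y) (hyY : y ≤ Y) :
    (((Finset.Icc 1 Y).filter (fun d => ∃ p ∈ d.primeFactors, y < p)).card : ℝ) ≤
      5 * Y / Real.log y * (1 + Real.log ((Y : ℝ) / y)) := by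
  classical
  have hy0 : (0 : ℝ) < y := by exact_mod_cast (by omega : 0 < y)
  have hlogy : 0 < Real.log y := Real.log_pos (by exact_mod_cast (by omega : 1 < y))
  set M := Y / y with hM
  have hM1 : 1 ≤ M := (Nat.one_le_div_iff (by omega)).mpr hyY
  have hsub : (Finset.Icc 1 Y).filter (fun d => ∃ p ∈ d.primeFactors, y < p) ⊆
      (Finset.Icc 1 M).biUnion (fun m => (Nat.primesLE (Y / m)).image (fun p => m * p)) := by
    intro d hd
    obtain ⟨hdI, p, hpf, hyp⟩ := Finset.mem_filter.mp hd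
    have hp := Nat.prime_of_mem_primeFactors hpf
    have hpd := Nat.dvd_of_mem_primeFactors hpf
    clear hpf
    have hdI := Finset.mem_Icc.mp hdI
    obtain ⟨m, rfl⟩ := hpd
    have hm0 : 0 < m := by
      rcases Nat.eq_zero_or_pos m with h | h
      · subst h; simp at hdI
      · exact h
    rw [Finset.mem_biUnion]
    refine ⟨m, ?_, ?_⟩
    · refine Finset.mem_Icc.mpr ⟨hm0, ?_⟩
      rw [hM, Nat.le_div_iff_mul_le (by omega)]
      calc m * y ≤ m * p := Nat.mul_le_mul_left _ hyp.le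
        _ = p * m := Nat.mul_comm _ _
        _ ≤ Y := hdI.2
    · rw [Finset.mem_image]
      refine ⟨p, ?_, Nat.mul_comm _ _⟩
      rw [Nat.mem_primesLE]
      exact ⟨(Nat.le_div_iff_mul_le hm0).mpr hdI.2, hp⟩
  have h1 : (((Finset.Icc 1 Y).filter (fun d => ∃ p ∈ d.primeFactors, y < p)).card : ℝ)
      ≤ ∑ m ∈ Finset.Icc 1 M, (Nat.primeCounting (Y / m) : ℝ) := by
    have : ((Finset.Icc 1 Y).filter (fun d => ∃ p ∈ d.primeFactors, y < p)).card
        ≤ ∑ m ∈ Finset.Icc 1 M, Nat.primeCounting (Y / m) := by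
      refine (Finset.card_le_card hsub).trans (Finset.card_biUnion_le.trans ?_)
      refine Finset.sum_le_sum fun m _ => ?_
      refine Finset.card_image_le.trans ?_
      rw [Nat.primesLE_card_eq_primeCounting]
    exact_mod_cast this
  refine h1.trans ?_
  have h2 : ∀ m ∈ Finset.Icc 1 M, (Nat.primeCounting (Y / m) : ℝ) ≤
      5 * Y / Real.log y * (1 / (m : ℝ)) := by
    intro m hm
    have hmI := Finset.mem_Icc.mp hm
    have hm0 : (0 : ℝ) < m := by exact_mod_cast hmI.1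
    have hyYm : y ≤ Y / m := by
      rw [Nat.le_div_iff_mul_le hmI.1]
      have := (Nat.le_div_iff_mul_le (by omega : 0 < y)).mp hmI.2
      calc y * m = m * y := Nat.mul_comm _ _
        _ ≤ Y := this
    have h3 := primeCounting_le (Y / m) (by omega)
    have h4 : Real.log y ≤ Real.log ((Y / m : ℕ) : ℝ) :=
      Real.log_le_log hy0 (by exact_mod_cast hyYm)
    have h5 : ((Y / m : ℕ) : ℝ) ≤ (Y : ℝ) / m := Nat.cast_div_le
    calc (Nat.primeCounting (Y / m) : ℝ) ≤ 5 * ((Y / m : ℕ) : ℝ) / Real.log ((Y / m : ℕ) : ℝ) := h3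
      _ ≤ 5 * ((Y / m : ℕ) : ℝ) / Real.log y := by gcongr
      _ ≤ 5 * ((Y : ℝ) / m) / Real.log y := by gcongr
      _ = 5 * Y / Real.log y * (1 / (m : ℝ)) := by ring
  refine (Finset.sum_le_sum h2).trans ?_
  rw [← Finset.mul_sum]
  have h6 : ∑ m ∈ Finset.Icc 1 M, 1 / (m : ℝ) ≤ 1 + Real.log ((Y : ℝ) / y) := by
    have h7 := harmonic_le_one_add_log M
    rw [harmonic_eq_sum_Icc] at h7
    push_cast at h7
    have h8 : Real.log (M : ℝ) ≤ Real.log ((Y : ℝ) / y) := by
      apply Real.log_le_log (by exact_mod_cast hM1)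
      exact Nat.cast_div_le
    have h9 : ∑ m ∈ Finset.Icc 1 M, 1 / (m : ℝ) = ∑ m ∈ Finset.Icc 1 M, ((m : ℝ))⁻¹ :=
      Finset.sum_congr rfl fun m _ => one_div _
    rw [h9]
    linarith
  gcongr

theorem gapFree_card_le (Y w y : ℕ) (hy : 2 ≤ y) (hyY : y ≤ Y) :
    ((gapFree Y w y).card : ℝ) ≤
      (((Finset.Icc 1 Y).filter (fun d => ∀ p ∈ d.primeFactors, p ≤ w)).card : ℝ) +
      5 * Y / Real.log y * (1 + Real.log ((Y : ℝ) / y)) := by
  classical
  have hsub : gapFree Y w y ⊆ (Finset.Icc 1 Y).filter (fun d => ∀ p ∈ d.primeFactors, p ≤ w) ∪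
      (Finset.Icc 1 Y).filter (fun d => ∃ p ∈ d.primeFactors, y < p) := by
    intro d hd
    obtain ⟨hdI, hd⟩ := Finset.mem_filter.mp hd
    rw [Finset.mem_union, Finset.mem_filter, Finset.mem_filter]
    by_cases h : ∀ p ∈ d.primeFactors, p ≤ w
    · exact Or.inl ⟨hdI, h⟩
    · right
      push Not at h
      obtain ⟨p, hp, hwp⟩ := h
      refine ⟨hdI, p, hp, ?_⟩
      rcases hd p hp with h1 | h1
      · omega
      · exact h1
  have h1 : ((gapFree Y w y).card : ℝ) ≤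
      (((Finset.Icc 1 Y).filter (fun d => ∀ p ∈ d.primeFactors, p ≤ w)).card : ℝ) +
      (((Finset.Icc 1 Y).filter (fun d => ∃ p ∈ d.primeFactors, y < p)).card : ℝ) := by
    exact_mod_cast (Finset.card_le_card hsub).trans (Finset.card_union_le _ _)
  have h2 := card_large_factor_le Y y hy hyY
  linarith

/-- The product over odd primes. -/
theorem prod_odd_le (w : ℕ) (hw : 2 ≤ w) :
    ∏ r ∈ (Finset.Icc 3 w).filter Nat.Prime, (1 - 1 / (r : ℝ)) ≤
      2 / Real.log ((w : ℝ) + 1) := by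
  have hlog : 0 < Real.log ((w : ℝ) + 1) := Real.log_pos (by
    have : (2 : ℝ) ≤ w := by exact_mod_cast hw
    linarith)
  have h := log_le_prod w
  have heq : (Finset.Icc 1 w).filter Nat.Prime = insert 2 ((Finset.Icc 3 w).filter Nat.Prime) := by
    ext p
    simp only [Finset.mem_filter, Finset.mem_Icc, Finset.mem_insert]
    constructor
    · rintro ⟨⟨h1, h2⟩, hp⟩
      have := hp.two_le
      rcases Nat.lt_or_ge 2 p with h3 | h3
      · exact Or.inr ⟨⟨h3, h2⟩, hp⟩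
      · left; omega
    · rintro (rfl | ⟨⟨h1, h2⟩, hp⟩)
      · exact ⟨⟨by omega, hw⟩, Nat.prime_two⟩
      · exact ⟨⟨by omega, h2⟩, hp⟩
  have hnot : 2 ∉ (Finset.Icc 3 w).filter Nat.Prime := by
    simp
  rw [heq, Finset.prod_insert hnot] at h
  set P := ∏ r ∈ (Finset.Icc 3 w).filter Nat.Prime, (1 - 1 / (r : ℝ)) with hP
  have hPpos : 0 < P := by
    apply Finset.prod_pos
    intro r hr
    have hr := Finset.mem_filter.mp hr
    have : (3 : ℝ) ≤ r := by exact_mod_cast (Finset.mem_Icc.mp hr.1).1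
    have h1 : 1 / (r : ℝ) < 1 := by rw [div_lt_one (by linarith)]; linarith
    linarith
  have hinv : ∏ p ∈ (Finset.Icc 3 w).filter Nat.Prime, (1 - (1 : ℝ) / p)⁻¹ = P⁻¹ := by
    rw [hP, Finset.prod_inv_distrib]
  rw [hinv] at h
  have h2 : (1 - (1 : ℝ) / ((2 : ℕ) : ℝ))⁻¹ = 2 := by norm_num
  rw [h2] at h
  rw [le_div_iff₀ hlog]
  have h3 : P * Real.log ((w : ℝ) + 1) ≤ P * (2 * P⁻¹) := by gcongr
  have h4 : P * (2 * P⁻¹) = 2 := by field_simp
  linarith

theorem sq_half_le_exp {x : ℝ} (hx : 0 ≤ x) : x ^ 2 / 2 ≤ Real.exp x := by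
  have := Real.quadratic_le_exp_of_nonneg hx
  linarith

/-- Primes in `(z/100, z]`. -/
theorem card_primes_upper_range (z : ℕ) (hz : 1000 ≤ Real.log z) :
    1 / 50 * (z : ℝ) / Real.log z ≤ (((Finset.Ioc (z / 100) z).filter Nat.Prime).card : ℝ) := by
  have hz0 : (0 : ℝ) < z := by
    by_contra h
    have : (z : ℝ) = 0 := le_antisymm (not_lt.mp h) (Nat.cast_nonneg z)
    rw [this, Real.log_zero] at hz
    norm_num at hz
  set L := Real.log z with hL
  have hzexp : (z : ℝ) = Real.exp L := (Real.exp_log hz0).symm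
  have hzbig : (500000 : ℝ) ≤ z := by
    rw [hzexp]
    have := sq_half_le_exp (x := L) (by linarith)
    nlinarith
  have hznat : 500000 ≤ z := by exact_mod_cast hzbig
  set y := z / 100 with hy
  have hy1 : 5000 ≤ y := by omega
  have hyz : y ≤ z := by omega
  have hy200 : (z : ℝ) / 200 ≤ y := by
    have h1 : z ≤ 200 * y := by omega
    have h2 : (z : ℝ) ≤ 200 * y := by exact_mod_cast h1
    linarith
  have hyle : (y : ℝ) ≤ z / 100 := by
    have : ((z / 100 : ℕ) : ℝ) ≤ (z : ℝ) / (100 : ℕ) := Nat.cast_div_le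
    rw [hy]
    push_cast at this
    exact this
  have hlogy : 5 / 8 * L ≤ Real.log y := by
    have h1 : Real.log ((z : ℝ) / 200) ≤ Real.log y := Real.log_le_log (by positivity) hy200
    rw [Real.log_div hz0.ne' (by norm_num)] at h1
    have h2 : Real.log 200 ≤ 200 := by
      have := Real.log_le_sub_one_of_pos (x := 200) (by norm_num)
      linarith
    rw [← hL] at h1
    linarith
  have hsplit : Nat.primeCounting z ≤
      Nat.primeCounting y + ((Finset.Ioc y z).filter Nat.Prime).card := by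
    rw [← Nat.primesLE_card_eq_primeCounting z, ← Nat.primesLE_card_eq_primeCounting y]
    have hsub : Nat.primesLE z ⊆ Nat.primesLE y ∪ (Finset.Ioc y z).filter Nat.Prime := by
      intro p hp
      rw [Nat.mem_primesLE] at hp
      rw [Finset.mem_union, Nat.mem_primesLE, Finset.mem_filter, Finset.mem_Ioc]
      rcases Nat.lt_or_ge y p with h | h
      · exact Or.inr ⟨⟨h, hp.1⟩, hp.2⟩
      · exact Or.inl ⟨h, hp.2⟩
    exact (Finset.card_le_card hsub).trans (Finset.card_union_le _ _)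
  have h1 := primeCounting_ge z (by omega)
  have h2 := primeCounting_le y (by omega)
  have h3 : (5 : ℝ) * y / Real.log y ≤ 2 / 25 * z / L := by
    have hLpos : 0 < L := by linarith
    calc (5 : ℝ) * y / Real.log y ≤ 5 * (z / 100) / Real.log y := by
          have : 0 ≤ Real.log y := by linarith
          gcongr
      _ ≤ 5 * (z / 100) / (5 / 8 * L) := by gcongr
      _ = 2 / 25 * z / L := by field_simp; norm_num
  have h4 : (Nat.primeCounting z : ℝ) ≤
      (Nat.primeCounting y : ℝ) + (((Finset.Ioc y z).filter Nat.Prime).card : ℝ) := by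
    exact_mod_cast hsplit
  have h5 : 1 / 50 * (z : ℝ) / L = (1 / 10 : ℝ) * z / L - 2 / 25 * z / L := by ring
  rw [h5]
  linarith

theorem alg2 (K z L1 L2 L3 : ℝ) (hK : K ≠ 0) (hL1 : L1 ≠ 0) (hL2 : L2 ≠ 0) :
    2 * (1 / (3200 * K) * z * L1 * L3 / L2 ^ 2) * (K * (L2 / L1)) = z * L3 / (1600 * L2) := by
  field_simp
  ring

theorem alg3 (z L2 L3 : ℝ) (hL2 : L2 ≠ 0) :
    z * L3 / (3200 * L2) * 2⁻¹ = z * L3 / (6400 * L2) := by
  field_simp
  ring

theorem alg4 (z L1 L2 L3 : ℝ) (hL1 : L1 ≠ 0) (hL2 : L2 ≠ 0) (hL3 : L3 ≠ 0) :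
    2 / (L1 * L3 / (8 * L2)) * (z * L3 / (1600 * L2) + z * L3 / (3200 * L2) * 2⁻¹) =
      1 / 80 * z / L1 := by
  field_simp
  ring

theorem alg5 (a G K Y t : ℝ) (ha : 0 ≤ a) (hY : 0 < Y) (h : G ≤ K * Y * t) :
    2 * a * G / Y + 1 ≤ 2 * a * (K * t) + 1 := by
  have h1 : 2 * a * G / Y ≤ 2 * a * (K * Y * t) / Y := by gcongr
  have h2 : 2 * a * (K * Y * t) / Y = 2 * a * (K * t) := by field_simp
  linarith

theorem alg6 (a X t : ℝ) (h : a ≤ X) (ht : 0 ≤ t) : 2 * a * t + 1 ≤ 2 * X * t + 1 := by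
  gcongr

theorem alg7 (a G Y : ℝ) (ha : 0 ≤ a) (hG : 0 ≤ G) (hY : 0 ≤ Y) :
    0 ≤ 2 * a * G / Y + 1 := by
  positivity

theorem eventually_logs (C : ℝ) : ∃ z₀ : ℕ, ∀ z : ℕ, z₀ ≤ z →
    0 < Real.log z ∧ 0 < Real.log (Real.log z) ∧ C ≤ Real.log (Real.log z) ∧
      40 ≤ Real.log (Real.log (Real.log z)) := by
  have h1 : Tendsto (fun z : ℕ => Real.log z) atTop atTop :=
    Real.tendsto_log_atTop.comp tendsto_natCast_atTop_atTop
  have h2 : Tendsto (fun z : ℕ => Real.log (Real.log z)) atTop atTop :=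
    Real.tendsto_log_atTop.comp h1
  have h3 : Tendsto (fun z : ℕ => Real.log (Real.log (Real.log z))) atTop atTop :=
    Real.tendsto_log_atTop.comp h2
  have := ((h1.eventually_gt_atTop 0).and ((h2.eventually_gt_atTop 0).and
    ((h2.eventually_ge_atTop C).and (h3.eventually_ge_atTop 40))))
  exact Filter.eventually_atTop.mp this

theorem arCQ1 {a w z : ℝ} (h3 : 100 ≤ a) (h4 : a * a ≤ z) (h : w ≤ a) : w * 100 ≤ z := by
  nlinarith

theorem arCQ3 {l η L1 L2 : ℝ} (h : L1 ≤ l) (hη : 0 < η) (e : L1 * η = 4 * L2) :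
    l * (-η) ≤ -(4 * L2) := by
  nlinarith

theorem arCQ4 {l η E c : ℝ} (h : l ≤ E) (hη : 0 < η) (e : E * η = c) : l * η ≤ c := by
  nlinarith

theorem arCQ5 {L3 x : ℝ} (h : 40 ≤ L3) (h6 : (L3 / 2) ^ 2 / 2 ≤ x) : 4 * L3 ≤ x := by
  nlinarith

theorem arCQ6 {l m B L2 : ℝ} (h2 : l ≤ m + B * L2) (hm : m ≤ 199) (hL : 800 ≤ L2) :
    1 + l ≤ (B + 200) * L2 := by
  nlinarith

theorem arCQ7 {L1 L2 L3 z : ℝ} (h1 : 160000 * L1 ≤ z) (h2 : 400 * L2 ≤ L1) (h3 : 800 ≤ L2)
    (h4 : 40 ≤ L3) : 6400 * L2 ≤ z * L3 := by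
  nlinarith

theorem arCQ8 {x y : ℝ} (h : 40 ≤ x) (h1 : x ^ 2 / 2 ≤ y) : 20 * x ≤ y := by
  nlinarith

theorem arCQ9 {x y : ℝ} (h : 800 ≤ x) (h1 : x ^ 2 / 2 ≤ y) : 400 * x ≤ y := by
  nlinarith

theorem arCQ10 {x y : ℝ} (h : 320000 ≤ x) (h1 : x ^ 2 / 2 ≤ y) : 160000 * x ≤ y := by
  nlinarith

theorem arCQ11 {L1 L2 L3 : ℝ} (h1 : 0 < L1) (h : 20 * L3 ≤ L2) (h2 : 0 < L3) :
    L1 * L3 * 8 ≤ L1 * (8 * L2) := by
  nlinarith

theorem arCQ12 {L1 L2 L3 : ℝ} (h1 : 400 * L2 ≤ L1) (h2 : 800 ≤ L2) (h3 : 40 ≤ L3) :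
    100 * (8 * L2) ≤ L1 * L3 := by
  nlinarith

/-- **Quantitative covering lemma.** -/
theorem covering_main (B : ℝ) (hB : 0 ≤ B) : ∃ c : ℝ, 0 < c ∧ ∃ z₀ : ℕ, ∀ z : ℕ, z₀ ≤ z →
    ∀ Y : ℕ, (Y : ℝ) ≤ z * (Real.log z) ^ B → ∀ A : Finset ℕ, A ⊆ Finset.Icc 1 Y →
    (A.card : ℝ) ≤ c * z * Real.log z * Real.log (Real.log (Real.log z)) /
      (Real.log (Real.log z)) ^ 2 →
    ∃ N : ℕ, 2 ∣ N ∧ ∀ a ∈ A, ∃ r : ℕ, r.Prime ∧ r ≤ z ∧ N ≡ a [MOD r] := by
  obtain ⟨C, hC, hR⟩ := rankin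
  set K : ℝ := 10 * (B + 200) + 1 with hK
  have hKpos : 0 < K := by positivity
  obtain ⟨z₀, hz₀⟩ := eventually_logs C
  refine ⟨1 / (3200 * K), by positivity, z₀, fun z hz Y hYz A hA hAcard => ?_⟩
  obtain ⟨hL1, hL2, hCL2, hL3⟩ := hz₀ z hz
  have hz0 : (0 : ℝ) < z := by
    by_contra h
    have : (z : ℝ) = 0 := le_antisymm (not_lt.mp h) (Nat.cast_nonneg z)
    rw [this, Real.log_zero] at hL1
    exact lt_irrefl _ hL1
  set L1 := Real.log z with hL1def
  set L2 := Real.log L1 with hL2def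
  set L3 := Real.log L2 with hL3def
  have hzexp : (z : ℝ) = Real.exp L1 := (Real.exp_log hz0).symm
  have hL1exp : L1 = Real.exp L2 := (Real.exp_log hL1).symm
  have hL2exp : L2 = Real.exp L3 := (Real.exp_log hL2).symm
  have hL3pos : 0 < L3 := by linarith
  have hL2big : 20 * L3 ≤ L2 := by
    have := sq_half_le_exp (x := L3) (by linarith)
    rw [← hL2exp] at this
    exact arCQ8 hL3 this
  have hL2big' : 800 ≤ L2 := by linarith
  have hL1big : 400 * L2 ≤ L1 := by
    have := sq_half_le_exp (x := L2) (by linarith)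
    rw [← hL1exp] at this
    exact arCQ9 hL2big' this
  have hL1big' : 320000 ≤ L1 := by linarith
  have hzbig : 160000 * L1 ≤ z := by
    have := sq_half_le_exp (x := L1) (by linarith)
    rw [← hzexp] at this
    exact arCQ10 hL1big' this
  -- the parameter w
  set E : ℝ := L1 * L3 / (8 * L2) with hE
  have hE1 : E ≤ L1 / 8 := by
    rw [hE, div_le_div_iff₀ (by positivity) (by norm_num)]
    exact arCQ11 hL1 hL2big hL3pos
  have hE2 : 100 ≤ E := by
    rw [hE, le_div_iff₀ (by positivity)]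
    exact arCQ12 hL1big hL2big' hL3
  have hEpos : 0 < E := by linarith
  set w : ℕ := ⌊Real.exp E⌋₊ with hw
  have hwle : (w : ℝ) ≤ Real.exp E := Nat.floor_le (Real.exp_pos _).le
  have hwlt : Real.exp E < (w : ℝ) + 1 := Nat.lt_floor_add_one _
  have hw2 : 2 ≤ w := by
    apply Nat.le_floor
    have := Real.add_one_le_exp E
    push_cast
    linarith
  have hw0 : (0 : ℝ) < w := by exact_mod_cast (by omega : 0 < w)
  have hlogw : Real.log w ≤ E := by
    have := Real.log_le_log hw0 hwle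
    rwa [Real.log_exp] at this
  have hlogw0 : 0 ≤ Real.log w := Real.log_nonneg (by exact_mod_cast (by omega : 1 ≤ w))
  have hlogw1 : E ≤ Real.log ((w : ℝ) + 1) := by
    have := Real.log_le_log (Real.exp_pos _) hwlt.le
    rwa [Real.log_exp] at this
  -- the parameter y
  set y : ℕ := z / 100 with hy
  have hznat : 1000000 ≤ z := by
    have : (1000000 : ℝ) ≤ z := by linarith
    exact_mod_cast this
  have hy2 : 2 ≤ y := by omega
  have hyz : y ≤ z := by omega
  have hy0 : (0 : ℝ) < y := by exact_mod_cast (by omega : 0 < y)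
  have hy200 : (z : ℝ) / 200 ≤ y := by
    have h1 : z ≤ 200 * y := by omega
    have h2 : (z : ℝ) ≤ 200 * y := by exact_mod_cast h1
    linarith
  have hwy : w ≤ y := by
    rw [hy, Nat.le_div_iff_mul_le (by norm_num)]
    have h1 : (w : ℝ) * 100 ≤ z := by
      have h2 : Real.exp E ≤ Real.exp (L1 / 8) := Real.exp_le_exp.mpr hE1
      have h3 : (100 : ℝ) ≤ Real.exp (L1 / 8) := by
        have := Real.add_one_le_exp (L1 / 8)
        linarith
      have h4 : Real.exp (L1 / 8) * Real.exp (L1 / 8) ≤ z := by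
        rw [← Real.exp_add, hzexp]
        apply Real.exp_le_exp.mpr
        linarith
      exact arCQ1 h3 h4 (hwle.trans h2)
    exact_mod_cast h1
  have hlog200 : Real.log 200 ≤ 199 := by
    have := Real.log_le_sub_one_of_pos (x := 200) (by norm_num)
    linarith
  have hlogy : L1 / 2 ≤ Real.log y := by
    have h1 : Real.log ((z : ℝ) / 200) ≤ Real.log y := Real.log_le_log (by positivity) hy200
    rw [Real.log_div hz0.ne' (by norm_num)] at h1
    rw [← hL1def] at h1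
    linarith
  -- the parameter Y'
  set Y' : ℕ := max Y z with hY'
  have hY'z : z ≤ Y' := le_max_right _ _
  have hYY' : Y ≤ Y' := le_max_left _ _
  have hY'0 : (0 : ℝ) < Y' := by
    have : (z : ℝ) ≤ Y' := by exact_mod_cast hY'z
    linarith
  have hL1B : 1 ≤ L1 ^ B := Real.one_le_rpow (by linarith) hB
  have hL1B0 : 0 < L1 ^ B := by linarith
  have hY'le : (Y' : ℝ) ≤ z * L1 ^ B := by
    rw [hY', Nat.cast_max]
    exact max_le hYz (le_mul_of_one_le_right hz0.le hL1B)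
  have hlogY' : L1 ≤ Real.log Y' := Real.log_le_log hz0 (by exact_mod_cast hY'z)
  -- Rankin's bound
  set η : ℝ := 4 * L2 / L1 with hη
  have hηpos : 0 < η := by positivity
  have hη2 : η ≤ 1 / 2 := by
    rw [hη, div_le_div_iff₀ hL1 (by norm_num)]
    linarith
  have hS := hR Y' w η hw2 (by omega) hηpos hη2
  set S : ℝ := (((Finset.Icc 1 Y').filter (fun d => ∀ p ∈ d.primeFactors, p ≤ w)).card : ℝ)
    with hSdef
  have hSle : S ≤ Y' * (L2 / L1) := by
    have h1 : (Y' : ℝ) ^ (-η) ≤ Real.exp (-(4 * L2)) := by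
      rw [Real.rpow_def_of_pos hY'0]
      apply Real.exp_le_exp.mpr
      have : L1 * η = 4 * L2 := by rw [hη]; field_simp
      exact arCQ3 hlogY' hηpos this
    have h2 : (w : ℝ) ^ η ≤ Real.exp (L3 / 2) := by
      rw [Real.rpow_def_of_pos hw0]
      apply Real.exp_le_exp.mpr
      have h3 : E * η = L3 / 2 := by
        rw [hE, hη]; field_simp; norm_num
      exact arCQ4 hlogw hηpos h3
    have h2' : 0 ≤ (w : ℝ) ^ η := by positivity
    have hlog4 : Real.log 4 ≤ 3 := by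
      have := Real.log_le_sub_one_of_pos (x := 4) (by norm_num)
      linarith
    have hlog40 : 0 ≤ Real.log 4 := Real.log_nonneg (by norm_num)
    have h4 : 4 * η * (w : ℝ) ^ η * (Real.log w + Real.log 4) ≤ L2 := by
      have h5 : Real.log w + Real.log 4 ≤ 2 * E := by linarith
      calc 4 * η * (w : ℝ) ^ η * (Real.log w + Real.log 4)
          ≤ 4 * η * Real.exp (L3 / 2) * (2 * E) := by gcongr
        _ = 8 * (E * η) * Real.exp (L3 / 2) := by ring
        _ = 4 * L3 * Real.exp (L3 / 2) := by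
            have h3 : E * η = L3 / 2 := by
              rw [hE, hη]; field_simp; norm_num
            rw [h3]; ring
        _ ≤ Real.exp (L3 / 2) * Real.exp (L3 / 2) := by
            have h6 := sq_half_le_exp (x := L3 / 2) (by linarith)
            have h7 : 4 * L3 ≤ Real.exp (L3 / 2) := arCQ5 hL3 h6
            exact mul_le_mul_of_nonneg_right h7 (Real.exp_pos (L3 / 2)).le
        _ = L2 := by rw [← Real.exp_add, add_halves, ← hL2exp]
    have h9 : Real.log w ≤ L1 := by linarith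
    calc S ≤ C * Y' * (Y' : ℝ) ^ (-η) * Real.log w *
        Real.exp (4 * η * (w : ℝ) ^ η * (Real.log w + Real.log 4)) := hS
      _ ≤ C * Y' * Real.exp (-(4 * L2)) * L1 * Real.exp L2 := by gcongr
      _ = C * Y' * (Real.exp (-(4 * L2)) * Real.exp L2 * Real.exp L2) := by
          rw [hL1exp]; rw [← hL1exp]; ring
      _ = C * Y' * Real.exp (-L2) * Real.exp (-L2) := by
          rw [← Real.exp_add, ← Real.exp_add]
          rw [show -(4 * L2) + L2 + L2 = -L2 + -L2 by ring, Real.exp_add]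
          ring
      _ ≤ L2 * Y' * 1 * Real.exp (-L2) := by
          have : Real.exp (-L2) ≤ 1 := Real.exp_le_one_iff.mpr (by linarith)
          gcongr
      _ = Y' * (L2 / L1) := by
          rw [Real.exp_neg, ← hL1exp]
          ring
  -- bound for gapFree
  have hG := gapFree_card_le Y' w y hy2 (by omega)
  rw [← hSdef] at hG
  have hlogYy : 1 + Real.log ((Y' : ℝ) / y) ≤ (B + 200) * L2 := by
    have h1 : (Y' : ℝ) / y ≤ 200 * L1 ^ B := by
      rw [div_le_iff₀ hy0]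
      calc (Y' : ℝ) ≤ z * L1 ^ B := hY'le
        _ = 200 * L1 ^ B * (z / 200) := by ring
        _ ≤ 200 * L1 ^ B * y := by gcongr
    have h2 : Real.log ((Y' : ℝ) / y) ≤ Real.log (200 * L1 ^ B) :=
      Real.log_le_log (by positivity) h1
    rw [Real.log_mul (by norm_num) hL1B0.ne', Real.log_rpow hL1, ← hL2def] at h2
    exact arCQ6 h2 hlog200 hL2big'
  have hlogYy0 : 0 ≤ 1 + Real.log ((Y' : ℝ) / y) := by
    have : 0 ≤ Real.log ((Y' : ℝ) / y) := by
      apply Real.log_nonneg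
      rw [le_div_iff₀ hy0, one_mul]
      exact_mod_cast (by omega : y ≤ Y')
    linarith
  have hGle : ((gapFree Y' w y).card : ℝ) ≤ K * Y' * (L2 / L1) := by
    have h1 : 5 * (Y' : ℝ) / Real.log y * (1 + Real.log ((Y' : ℝ) / y)) ≤
        5 * (Y' : ℝ) / (L1 / 2) * ((B + 200) * L2) := by gcongr
    have h2 : 5 * (Y' : ℝ) / (L1 / 2) * ((B + 200) * L2) = 10 * (B + 200) * Y' * (L2 / L1) := by
      field_simp; norm_num
    have h3 : K * Y' * (L2 / L1) = 10 * (B + 200) * Y' * (L2 / L1) + Y' * (L2 / L1) := by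
      rw [hK]; ring
    linarith
  -- apply the abstract lemma
  refine covering_abstract z w y Y' hw2 hwy hyz (by omega) A
    (hA.trans (Finset.Icc_subset_Icc_right hYY')) ?_
  have hprod := prod_odd_le w hw2
  have hprod' : ∏ r ∈ (Finset.Icc 3 w).filter Nat.Prime, (1 - 1 / (r : ℝ)) ≤ 2 / E :=
    hprod.trans (by gcongr)
  have hfin := card_primes_upper_range z (by linarith)
  refine le_trans ?_ hfin
  have h1 : 2 * (A.card : ℝ) * (gapFree Y' w y).card / Y' + 1 ≤
      2 * A.card * (K * (L2 / L1)) + 1 := alg5 _ _ _ _ _ (Nat.cast_nonneg _) hY'0 hGle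
  have h2 : 2 * (A.card : ℝ) * (K * (L2 / L1)) + 1 ≤ z * L3 / (1600 * L2) + 1 := by
    have h3 := alg6 _ _ (K * (L2 / L1)) hAcard (by positivity)
    have h4 := alg2 K z L1 L2 L3 hKpos.ne' hL1.ne' hL2.ne'
    rw [h4] at h3
    exact h3
  have h5 : (1 : ℝ) ≤ z * L3 / (3200 * L2) * 2⁻¹ := by
    have : 6400 * L2 ≤ z * L3 := arCQ7 hzbig hL1big hL2big' hL3
    rw [alg3 _ _ _ hL2.ne']
    rw [le_div_iff₀ (by positivity)]
    linarith
  calc (∏ r ∈ (Finset.Icc 3 w).filter Nat.Prime, (1 - 1 / (r : ℝ))) *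
      (2 * (A.card : ℝ) * (gapFree Y' w y).card / Y' + 1)
      ≤ 2 / E * (z * L3 / (1600 * L2) + 1) := by
        have h6 : 0 ≤ 2 * (A.card : ℝ) * (gapFree Y' w y).card / Y' + 1 :=
          alg7 _ _ _ (Nat.cast_nonneg _) (Nat.cast_nonneg _) (Nat.cast_nonneg _)
        have h7 : (0 : ℝ) ≤ 2 / E := by positivity
        exact mul_le_mul hprod' (h1.trans h2) h6 h7
    _ ≤ 2 / E * (z * L3 / (1600 * L2) + z * L3 / (3200 * L2) * 2⁻¹) :=
        mul_le_mul_of_nonneg_left (by linarith) (by positivity)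
    _ = 1 / 80 * z / L1 := by
        rw [hE]
        exact alg4 _ _ _ _ hL1.ne' hL2.ne' hL3pos.ne'
    _ ≤ 1 / 50 * z / L1 := by
        gcongr
        norm_num

end Pool.Agent.Lib.Sieve
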