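import Mathlib
import Pool.Agent.Lib.Sieve.CoveringQuant

/-!
# From a covering to an even integer all of whose translates are composite
-/

open Finset Filter

namespace Pool.Agent.Lib.Sieve

theorem exists_even_of_cover (z Y N₀ : ℕ) (hz : 2 ≤ z) (A : Finset ℕ) (hA : ∀ a ∈ A, a ≤ Y)
    (hN2 : 2 ∣ N₀) (hN : ∀ a ∈ A, ∃ r : ℕ, r.Prime ∧ r ≤ z ∧ N₀ ≡ a [MOD r])
    (hbig : z + Y < 4 ^ z) :
    ∃ m : ℕ, 2 ∣ m ∧ 4 ^ z ≤ m ∧ m ≤ 2 * 4 ^ (2 * z) ∧ ∀ a ∈ A, ¬ (m - a).Prime := by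
  set P := primorial z with hP
  have hPpos : 0 < P := primorial_pos z
  have hP4 : P ≤ 4 ^ z := primorial_le_four_pow z
  have hdvd : ∀ r : ℕ, r.Prime → r ≤ z → r ∣ P := fun r hr hrz =>
    (Nat.Prime.dvd_primorial_iff hr).mpr hrz
  have h2P : 2 ∣ P := hdvd 2 Nat.prime_two hz
  have hmod : ∀ r : ℕ, r.Prime → r ≤ z → (N₀ % P + P * 4 ^ z) ≡ N₀ [MOD r] := by
    intro r hr hrz
    have h1 : N₀ % P ≡ N₀ [MOD r] := (Nat.mod_modEq N₀ P).of_dvd (hdvd r hr hrz)
    have h2 : P * 4 ^ z ≡ 0 [MOD r] :=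
      (Nat.modEq_zero_iff_dvd).mpr ((hdvd r hr hrz).mul_right _)
    simpa using h1.add h2
  have hle : N₀ % P < P := Nat.mod_lt _ hPpos
  have hm4 : 4 ^ z ≤ N₀ % P + P * 4 ^ z := by
    calc 4 ^ z = 1 * 4 ^ z := (one_mul _).symm
      _ ≤ P * 4 ^ z := Nat.mul_le_mul_right _ hPpos
      _ ≤ _ := Nat.le_add_left _ _
  refine ⟨N₀ % P + P * 4 ^ z, ?_, hm4, ?_, ?_⟩
  · have := hmod 2 Nat.prime_two hz
    exact (Nat.modEq_zero_iff_dvd).mp (this.trans ((Nat.modEq_zero_iff_dvd).mpr hN2))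
  · have h1 : (4 : ℕ) ^ (2 * z) = 4 ^ z * 4 ^ z := by rw [two_mul, pow_add]
    have h2 : P * 4 ^ z ≤ 4 ^ z * 4 ^ z := Nat.mul_le_mul_right _ hP4
    have h3 : 4 ^ z ≤ 4 ^ z * 4 ^ z := Nat.le_mul_of_pos_left _ (by positivity)
    rw [h1]
    omega
  · intro a ha hprime
    obtain ⟨r, hr, hrz, hmr⟩ := hN a ha
    have haY := hA a ha
    have h1 : (N₀ % P + P * 4 ^ z) ≡ a [MOD r] := (hmod r hr hrz).trans hmr
    have h2 : r ∣ (N₀ % P + P * 4 ^ z) - a := (Nat.modEq_iff_dvd' (by omega)).mp h1.symm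
    have h3 := (Nat.prime_dvd_prime_iff_eq hr hprime).mp h2
    omega

/-- Size bound used for the choice of parameters. -/
theorem size_bound (z : ℕ) (hz : 10000 ≤ z) (Y : ℕ) (hY : Y ≤ z ^ 4) : z + Y < 4 ^ z := by
  have hzr : (10000 : ℝ) ≤ z := by exact_mod_cast hz
  have h1 : (z : ℝ) / 5 ≤ Real.exp ((z : ℝ) / 5) := by
    have := Real.add_one_le_exp ((z : ℝ) / 5)
    linarith
  have h2 : ((z : ℝ) / 5) ^ 5 ≤ Real.exp z := by
    calc ((z : ℝ) / 5) ^ 5 ≤ (Real.exp ((z : ℝ) / 5)) ^ 5 := by gcongr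
      _ = Real.exp z := by rw [← Real.exp_nat_mul]; congr 1; push_cast; ring
  have h3 : Real.exp z ≤ (4 : ℝ) ^ z := by
    have h4 : Real.exp 1 ≤ 4 := by
      have := Real.exp_one_lt_d9
      linarith
    calc Real.exp z = (Real.exp 1) ^ z := by rw [← Real.exp_nat_mul]; simp
      _ ≤ (4 : ℝ) ^ z := by gcongr
  have h5 : (z : ℝ) + Y < (4 : ℝ) ^ z := by
    have hY' : (Y : ℝ) ≤ (z : ℝ) ^ 4 := by exact_mod_cast hY
    have h6 : (z : ℝ) ≤ (z : ℝ) ^ 4 := le_self_pow₀ (by linarith) (by norm_num)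
    have h7 : 3 * (z : ℝ) ^ 4 ≤ ((z : ℝ) / 5) ^ 5 := by
      rw [div_pow]
      rw [le_div_iff₀ (by norm_num)]
      have : (z : ℝ) ^ 5 = z * z ^ 4 := by ring
      rw [this]
      have h8 : (0 : ℝ) ≤ (z : ℝ) ^ 4 := by positivity
      nlinarith
    have h9 : (0 : ℝ) < (z : ℝ) ^ 4 := by positivity
    linarith
  exact_mod_cast h5

/-- Comparison of iterated logarithms. -/
theorem log_compare (z : ℕ) (x : ℝ) (hx1 : (z : ℝ) ≤ x) (hx2 : x ≤ 4 * z)
    (hL3 : 40 ≤ Real.log (Real.log (Real.log z))) (hL2 : 0 < Real.log (Real.log z))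
    (hL1 : 0 < Real.log z) (hz : (4 : ℝ) ≤ z) :
    Real.log z ≤ Real.log x ∧ Real.log x ≤ 2 * Real.log z ∧
    Real.log (Real.log z) ≤ Real.log (Real.log x) ∧
    Real.log (Real.log x) ≤ 2 * Real.log (Real.log z) ∧
    Real.log (Real.log (Real.log x)) ≤ 2 * Real.log (Real.log (Real.log z)) := by
  have hz0 : (0 : ℝ) < z := by linarith
  have h1 : Real.log z ≤ Real.log x := Real.log_le_log hz0 hx1
  have h2 : Real.log x ≤ 2 * Real.log z := by
    calc Real.log x ≤ Real.log (4 * z) := Real.log_le_log (by linarith) hx2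
      _ = Real.log 4 + Real.log z := Real.log_mul (by norm_num) hz0.ne'
      _ ≤ Real.log z + Real.log z := by
          have := Real.log_le_log (by norm_num) hz
          linarith
      _ = 2 * Real.log z := by ring
  have hlog2 : Real.log 2 ≤ 1 := by
    have := Real.log_two_lt_d9
    linarith
  have hL2' : 1 ≤ Real.log (Real.log z) := by
    by_contra h
    have h3 := Real.log_le_sub_one_of_pos hL2
    linarith
  have h3 : Real.log (Real.log z) ≤ Real.log (Real.log x) := Real.log_le_log hL1 h1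
  have h4 : Real.log (Real.log x) ≤ 2 * Real.log (Real.log z) := by
    calc Real.log (Real.log x) ≤ Real.log (2 * Real.log z) :=
          Real.log_le_log (by linarith) h2
      _ = Real.log 2 + Real.log (Real.log z) := Real.log_mul (by norm_num) hL1.ne'
      _ ≤ 2 * Real.log (Real.log z) := by linarith
  have h5 : Real.log (Real.log (Real.log x)) ≤ 2 * Real.log (Real.log (Real.log z)) := by
    calc Real.log (Real.log (Real.log x)) ≤ Real.log (2 * Real.log (Real.log z)) :=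
          Real.log_le_log (by linarith) h4
      _ = Real.log 2 + Real.log (Real.log (Real.log z)) := Real.log_mul (by norm_num) hL2.ne'
      _ ≤ 2 * Real.log (Real.log (Real.log z)) := by linarith
  exact ⟨h1, h2, h3, h4, h5⟩

end Pool.Agent.Lib.Sieve
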